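import Mathlib

/-!
# A back-and-forth lemma
-/

set_option autoImplicit false

namespace Pool.Agent.FinWidth

variable {A B : Type}

theorem back_forth [Countable A] [Countable B] (good : List (A × B) → Prop)
    (l0 : List (A × B)) (h0 : good l0)
    (forth : ∀ l, good l → ∀ a, ∃ b, good ((a, b) :: l))
    (back : ∀ l, good l → ∀ b, ∃ a, good ((a, b) :: l))
    (inj : ∀ l, good l → ∀ p ∈ l, ∀ q ∈ l, (p.1 = q.1 ↔ p.2 = q.2)) :
    ∃ e : A ≃ B, (∀ p ∈ l0, e p.1 = p.2) ∧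
      ∀ S : List A, ∃ l, good l ∧ (∀ p ∈ l, e p.1 = p.2) ∧ ∀ a ∈ S, (a, e a) ∈ l := by
  classical
  have : Encodable (A ⊕ B) := Encodable.ofCountable _
  have step : ∀ (x : Option (A ⊕ B)) (l : {l // good l}), ∃ l' : {l // good l},
      (∀ p ∈ l.1, p ∈ l'.1) ∧ (∀ a, x = some (Sum.inl a) → ∃ b, (a, b) ∈ l'.1) ∧
      (∀ b, x = some (Sum.inr b) → ∃ a, (a, b) ∈ l'.1) := by
    rintro x ⟨l, hl⟩
    rcases x with _ | (a | b)
    · exact ⟨⟨l, hl⟩, fun p hp => hp, by simp, by simp⟩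
    · obtain ⟨b, hb⟩ := forth l hl a
      refine ⟨⟨_, hb⟩, fun p hp => List.mem_cons_of_mem _ hp, ?_, by simp⟩
      intro a' ha'
      simp only [Option.some.injEq, Sum.inl.injEq] at ha'
      exact ⟨b, by simp [ha']⟩
    · obtain ⟨a, ha⟩ := back l hl b
      refine ⟨⟨_, ha⟩, fun p hp => List.mem_cons_of_mem _ hp, by simp, ?_⟩
      intro b' hb'
      simp only [Option.some.injEq, Sum.inr.injEq] at hb'
      exact ⟨a, by simp [hb']⟩
  choose f hf1 hf2 hf3 using step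
  let L : ℕ → {l // good l} := fun n =>
    Nat.rec ⟨l0, h0⟩ (fun n l => f (Encodable.decode n) l) n
  have hL0 : L 0 = ⟨l0, h0⟩ := rfl
  have hLs : ∀ n, L (n + 1) = f (Encodable.decode n) (L n) := fun n => rfl
  have hmono : ∀ m n, m ≤ n → ∀ p ∈ (L m).1, p ∈ (L n).1 := by
    intro m n hmn
    induction hmn with
    | refl => exact fun p hp => hp
    | step _ ih => intro p hp; rw [hLs]; exact hf1 _ _ p (ih p hp)
  have hA : ∀ a, ∃ b, ∃ n, (a, b) ∈ (L n).1 := by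
    intro a
    obtain ⟨b, hb⟩ := hf2 (Encodable.decode (Encodable.encode (Sum.inl a : A ⊕ B)))
      (L (Encodable.encode (Sum.inl a : A ⊕ B))) a (Encodable.encodek _)
    exact ⟨b, Encodable.encode (Sum.inl a : A ⊕ B) + 1, by rw [← hLs] at hb; exact hb⟩
  have hB : ∀ b, ∃ a, ∃ n, (a, b) ∈ (L n).1 := by
    intro b
    obtain ⟨a, ha⟩ := hf3 (Encodable.decode (Encodable.encode (Sum.inr b : A ⊕ B)))
      (L (Encodable.encode (Sum.inr b : A ⊕ B))) b (Encodable.encodek _)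
    exact ⟨a, Encodable.encode (Sum.inr b : A ⊕ B) + 1, by rw [← hLs] at ha; exact ha⟩
  have hinj : ∀ m n, ∀ p ∈ (L m).1, ∀ q ∈ (L n).1, (p.1 = q.1 ↔ p.2 = q.2) := by
    intro m n p hp q hq
    exact inj _ (L (max m n)).2 p (hmono _ _ (le_max_left _ _) p hp) q
      (hmono _ _ (le_max_right _ _) q hq)
  choose φ nφ hφ using hA
  choose ψ nψ hψ using hB
  let e : A ≃ B :=
    { toFun := φ
      invFun := ψ
      left_inv := fun a => (hinj _ _ _ (hψ (φ a)) _ (hφ a)).2 rfl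
      right_inv := fun b => (hinj _ _ _ (hφ (ψ b)) _ (hψ b)).1 rfl }
  have he : ∀ n, ∀ p ∈ (L n).1, e p.1 = p.2 := by
    intro n p hp
    exact (hinj _ _ _ (hφ p.1) _ hp).1 rfl
  refine ⟨e, fun p hp => he 0 p (by rw [hL0]; exact hp), fun S => ?_⟩
  have hS : ∃ n, ∀ a ∈ S, nφ a ≤ n := by
    induction S with
    | nil => exact ⟨0, by simp⟩
    | cons a S ih =>
      obtain ⟨n, hn⟩ := ih
      refine ⟨max n (nφ a), fun b hb => ?_⟩
      rcases List.mem_cons.1 hb with rfl | hb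
      · exact le_max_right _ _
      · exact (hn b hb).trans (le_max_left _ _)
  obtain ⟨n, hn⟩ := hS
  exact ⟨(L n).1, (L n).2, he n, fun a ha => hmono _ _ (hn a ha) _ (hφ a)⟩

end Pool.Agent.FinWidth
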