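import Mathlib

/-!
# Groups of permutations of partial orders of finite width: basic definitions
-/

set_option autoImplicit false

namespace Pool.Agent.FinWidth

open Equiv

variable {A : Type}

/-- `x` and `y` lie in one orbit of `G`. -/
def SO (G : Subgroup (Perm A)) (x y : A) : Prop := ∃ g ∈ G, g x = y

/-- The orbit of `x`. -/
def orb (G : Subgroup (Perm A)) (x : A) : Set A := {y | SO G x y}

theorem SO.refl (G : Subgroup (Perm A)) (x : A) : SO G x x := ⟨1, G.one_mem, rfl⟩

theorem SO.symm {G : Subgroup (Perm A)} {x y : A} (h : SO G x y) : SO G y x := by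
  obtain ⟨g, hg, rfl⟩ := h
  exact ⟨g⁻¹, G.inv_mem hg, by simp⟩

theorem SO.trans {G : Subgroup (Perm A)} {x y z : A} (h : SO G x y) (h' : SO G y z) :
    SO G x z := by
  obtain ⟨g, hg, rfl⟩ := h
  obtain ⟨g', hg', rfl⟩ := h'
  exact ⟨g' * g, G.mul_mem hg' hg, by simp⟩

theorem SO.of_mem {G : Subgroup (Perm A)} {g : Perm A} (hg : g ∈ G) (x : A) : SO G x (g x) :=
  ⟨g, hg, rfl⟩

theorem mem_orb {G : Subgroup (Perm A)} {x y : A} : y ∈ orb G x ↔ SO G x y := Iff.rfl

theorem self_mem_orb (G : Subgroup (Perm A)) (x : A) : x ∈ orb G x := SO.refl G x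

/-- A relation that is invariant under `G` and monotone with respect to `le`. -/
structure Mono (G : Subgroup (Perm A)) (le : A → A → Prop) (R : A → A → Prop) : Prop where
  inv : ∀ g ∈ G, ∀ x y, R x y → R (g x) (g y)
  mono : ∀ x' x y y', le x' x → R x y → le y y' → R x' y'

theorem Mono.inv_iff {G : Subgroup (Perm A)} {le : A → A → Prop} {R : A → A → Prop}
    (h : Mono G le R) {g : Perm A} (hg : g ∈ G) (x y : A) : R (g x) (g y) ↔ R x y := by
  refine ⟨fun h' => ?_, h.inv g hg x y⟩
  have := h.inv g⁻¹ (G.inv_mem hg) _ _ h'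
  simpa using this

/-- A system: a group `G` of permutations of `A` preserving a partial order `le`, whose
comparable elements lie in one orbit, having finitely many orbits on pairs, and containing every
permutation that preserves the orbits and the invariant monotone relations. -/
structure Sys (G : Subgroup (Perm A)) (le : A → A → Prop) : Prop where
  refl : ∀ x, le x x
  trans : ∀ x y z, le x y → le y z → le x z
  antisymm : ∀ x y, le x y → le y x → x = y
  inv : ∀ g ∈ G, ∀ x y, le x y → le (g x) (g y)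
  same : ∀ x y, le x y → SO G x y
  pairs : ∃ T : Finset (A × A), ∀ x y, ∃ t ∈ T, ∃ g ∈ G, g t.1 = x ∧ g t.2 = y
  mc : ∀ g : Perm A, (∀ x, SO G x (g x)) →
    (∀ R, Mono G le R → ∀ x y, R x y → R (g x) (g y)) → g ∈ G

theorem Sys.inv_iff {G : Subgroup (Perm A)} {le : A → A → Prop} (h : Sys G le)
    {g : Perm A} (hg : g ∈ G) (x y : A) : le (g x) (g y) ↔ le x y := by
  refine ⟨fun h' => ?_, h.inv g hg x y⟩
  have := h.inv g⁻¹ (G.inv_mem hg) _ _ h'
  simpa using this

/-- Every antichain contained in `S` has at most `n` elements. -/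
def WLE (le : A → A → Prop) (S : Set A) (n : ℕ) : Prop :=
  ∀ F : Finset A, (∀ x ∈ F, x ∈ S) → (∀ x ∈ F, ∀ y ∈ F, le x y → x = y) → F.card ≤ n

theorem WLE.mono {le : A → A → Prop} {S : Set A} {m n : ℕ} (h : WLE le S m) (hmn : m ≤ n) :
    WLE le S n := fun F h1 h2 => (h F h1 h2).trans hmn

theorem WLE.subset {le : A → A → Prop} {S S' : Set A} {n : ℕ} (h : WLE le S n) (hs : S' ⊆ S) :
    WLE le S' n := fun F h1 h2 => h F (fun x hx => hs (h1 x hx)) h2

/-- The bounded isolation property. -/
def BIP (G : Subgroup (Perm A)) : Prop :=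
  ∃ N : ℕ, ∀ (F : Finset A) (a : A), ∃ F' : Finset A, F' ⊆ F ∧ F'.card ≤ N ∧
    ∀ g ∈ G, (∀ f ∈ F', g f = f) → ∃ h ∈ G, (∀ f ∈ F, h f = f) ∧ h a = g a

/-- `D` is a strong cut of `X`: an initial part such that all its elements are below all
the other elements of `X`. -/
def SCut (le : A → A → Prop) (X D : Set A) : Prop :=
  D ⊆ X ∧ ∀ y ∈ D, ∀ z ∈ X, z ∉ D → le y z

/-- Each strong cut of `X` that contains `y` contains `x`. -/
def Pre (le : A → A → Prop) (X : Set A) (x y : A) : Prop :=
  ∀ D, SCut le X D → y ∈ D → x ∈ D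

/-- `x` and `y` have a common upper bound in `X`. -/
def CC (le : A → A → Prop) (X : Set A) (x y : A) : Prop := ∃ u ∈ X, le x u ∧ le y u

/-- Strong cuts of the orbit of `x` that are invariant under the stabiliser of `x`. -/
def Cuts (G : Subgroup (Perm A)) (le : A → A → Prop) (x : A) : Set (Set A) :=
  {D | SCut le (orb G x) D ∧ ∀ g ∈ G, g x = x → ∀ y ∈ D, g y ∈ D}

/-- A group acting transitively on a subset `X` of `A`. -/
structure Tr (H : Subgroup (Perm A)) (le : A → A → Prop) (X : Set A) : Prop where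
  refl : ∀ x, le x x
  trans : ∀ x y z, le x y → le y z → le x z
  antisymm : ∀ x y, le x y → le y x → x = y
  inv : ∀ g ∈ H, ∀ x y, le x y → le (g x) (g y)
  stab : ∀ g ∈ H, ∀ x ∈ X, g x ∈ X
  tr : ∀ x ∈ X, ∀ y ∈ X, ∃ g ∈ H, g x = y
  width : ∃ w, WLE le X w

theorem Tr.dual {H : Subgroup (Perm A)} {le : A → A → Prop} {X : Set A} (h : Tr H le X) :
    Tr H (fun x y => le y x) X where
  refl := h.refl
  trans := fun x y z h1 h2 => h.trans z y x h2 h1
  antisymm := fun x y h1 h2 => h.antisymm x y h2 h1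
  inv := fun g hg x y h1 => h.inv g hg y x h1
  stab := h.stab
  tr := h.tr
  width := by
    obtain ⟨w, hw⟩ := h.width
    exact ⟨w, fun F h1 h2 => hw F h1 (fun x hx y hy hxy => (h2 y hy x hx hxy).symm)⟩

end Pool.Agent.FinWidth
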