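import Pool.Agent.FinWidth.BackForth
import Pool.Agent.FinWidth.Basic

/-!
# The base case: all orbits are chains
-/

set_option autoImplicit false

namespace Pool.Agent.FinWidth

open Equiv

variable {A : Type} {G : Subgroup (Perm A)} {le : A → A → Prop}

/-- The dual relation. -/
theorem Mono.dual {R : A → A → Prop} (hR : Mono G le R) : Mono G le (fun x y => ¬ R y x) where
  inv := fun g hg x y h h' => h ((hR.inv_iff hg y x).1 h')
  mono := fun x' x y y' h1 h2 h3 h4 => h2 (hR.mono y y' x' x h3 h4 h1)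

theorem Mono.top : Mono G le (fun _ _ => True) where
  inv := fun _ _ _ _ _ => trivial
  mono := fun _ _ _ _ _ _ _ => trivial

/-- Composition through the orbit of `a`. -/
theorem Mono.comp {R S : A → A → Prop} (hR : Mono G le R) (hS : Mono G le S) (a : A)
    (hle : ∀ x, le x x) :
    Mono G le (fun u v => ∃ z ∈ orb G a, R u z ∧ S z v) where
  inv := by
    rintro g hg x y ⟨z, hz, h1, h2⟩
    exact ⟨g z, SO.trans hz (SO.of_mem hg z), hR.inv g hg _ _ h1, hS.inv g hg _ _ h2⟩
  mono := by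
    rintro x' x y y' h1 ⟨z, hz, h2, h3⟩ h4
    exact ⟨z, hz, hR.mono _ _ _ _ h1 h2 (hle z), hS.mono _ _ _ _ (hle z) h3 h4⟩

/-- A list of pairs preserving the orbits and the monotone relations. -/
def Good (G : Subgroup (Perm A)) (le : A → A → Prop) (l : List (A × A)) : Prop :=
  (∀ p ∈ l, SO G p.1 p.2) ∧ ∀ R, Mono G le R → ∀ p ∈ l, ∀ q ∈ l, (R p.1 q.1 → R p.2 q.2)

theorem Good.iff {l : List (A × A)} (h : Good G le l) {R : A → A → Prop} (hR : Mono G le R)
    {p q : A × A} (hp : p ∈ l) (hq : q ∈ l) : R p.1 q.1 ↔ R p.2 q.2 := by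
  refine ⟨h.2 R hR p hp q hq, fun h' => ?_⟩
  by_contra hc
  exact h.2 _ hR.dual q hq p hp hc h'

/-- There are finitely many monotone relations. -/
theorem Sys.finite_mono (h : Sys G le) : {R | Mono G le R}.Finite := by
  classical
  obtain ⟨T, hT⟩ := h.pairs
  have hinj : Set.InjOn (fun R : A → A → Prop => T.filter (fun t => R t.1 t.2))
      {R | Mono G le R} := by
    intro R hR S hS hRS
    ext x y
    obtain ⟨t, ht, g, hg, h1, h2⟩ := hT x y
    have h3 : t ∈ T.filter (fun t => R t.1 t.2) ↔ t ∈ T.filter (fun t => S t.1 t.2) := by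
      simp only at hRS
      rw [hRS]
    simp only [Finset.mem_filter, ht, true_and] at h3
    rw [← h1, ← h2, Mono.inv_iff hR hg, Mono.inv_iff hS hg]
    exact h3
  refine Set.Finite.of_finite_image (Set.Finite.subset (Finset.finite_toSet T.powerset) ?_) hinj
  rintro _ ⟨R, -, rfl⟩
  simp only [Finset.coe_powerset, Set.mem_preimage, Set.mem_powerset_iff]
  intro t ht
  exact (Finset.mem_filter.1 ht).1

/-- A least element in a finite nonempty family of nested sets. -/
theorem exists_least {ι : Type} (s : Set ι) (hs : s.Finite) (hne : s.Nonempty) (U : ι → Set A)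
    (hU : ∀ i ∈ s, ∀ j ∈ s, U i ⊆ U j ∨ U j ⊆ U i) : ∃ i ∈ s, ∀ j ∈ s, U i ⊆ U j := by
  obtain ⟨i, hi⟩ := hs.exists_minimalFor U s hne
  refine ⟨i, hi.1, fun j hj => ?_⟩
  rcases hU i hi.1 j hj with h | h
  · exact h
  · exact hi.2 hj h

/-- In a chain orbit, the upper sets given by finitely many elements and monotone relations have
a least element among those containing `a`. -/
theorem Sys.least_up (h : Sys G le)
    {a : A} (hch : ∀ x ∈ orb G a, ∀ y ∈ orb G a, le x y ∨ le y x) (S : Set A) (hS : S.Finite)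
    (hne : S.Nonempty) :
    ∃ y ∈ S, ∃ R, Mono G le R ∧ R y a ∧
      ∀ y' ∈ S, ∀ R', Mono G le R' → R' y' a → ∀ z ∈ orb G a, R y z → R' y' z := by
  classical
  let s : Set (A × (A → A → Prop)) := {p | p.1 ∈ S ∧ Mono G le p.2 ∧ p.2 p.1 a}
  have hs : s.Finite :=
    Set.Finite.subset (hS.prod h.finite_mono) (fun p hp => ⟨hp.1, hp.2.1⟩)
  obtain ⟨y0, hy0⟩ := hne
  have hne' : s.Nonempty := ⟨(y0, fun _ _ => True), hy0, Mono.top, trivial⟩
  obtain ⟨⟨y, R⟩, ⟨h1, h2, h3⟩, hmin⟩ := exists_least s hs hne'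
    (fun p => {z | z ∈ orb G a ∧ p.2 p.1 z}) (by
      rintro ⟨y, R⟩ ⟨hy, hR, hRa⟩ ⟨y', R'⟩ ⟨hy', hR', hRa'⟩
      by_contra hcon
      push Not at hcon
      obtain ⟨h1, h2⟩ := hcon
      obtain ⟨z, ⟨hz, hz1⟩, hz2⟩ := Set.not_subset.1 h1
      obtain ⟨w, ⟨hw, hw1⟩, hw2⟩ := Set.not_subset.1 h2
      simp only at hz1 hw1
      rcases hch z hz w hw with h3 | h3
      · exact hw2 ⟨hw, hR.mono _ _ _ _ (h.refl y) hz1 h3⟩
      · exact hz2 ⟨hz, hR'.mono _ _ _ _ (h.refl y') hw1 h3⟩)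
  refine ⟨y, h1, R, h2, h3, fun y' hy' R' hR' hR'a z hz hyz => ?_⟩
  exact (hmin (y', R') ⟨hy', hR', hR'a⟩ ⟨hz, hyz⟩).2

theorem Sys.least_down (h : Sys G le)
    {a : A} (hch : ∀ x ∈ orb G a, ∀ y ∈ orb G a, le x y ∨ le y x) (S : Set A) (hS : S.Finite)
    (hne : S.Nonempty) :
    ∃ y ∈ S, ∃ R, Mono G le R ∧ R a y ∧
      ∀ y' ∈ S, ∀ R', Mono G le R' → R' a y' → ∀ z ∈ orb G a, R z y → R' z y' := by
  classical
  let s : Set (A × (A → A → Prop)) := {p | p.1 ∈ S ∧ Mono G le p.2 ∧ p.2 a p.1}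
  have hs : s.Finite :=
    Set.Finite.subset (hS.prod h.finite_mono) (fun p hp => ⟨hp.1, hp.2.1⟩)
  obtain ⟨y0, hy0⟩ := hne
  have hne' : s.Nonempty := ⟨(y0, fun _ _ => True), hy0, Mono.top, trivial⟩
  obtain ⟨⟨y, R⟩, ⟨h1, h2, h3⟩, hmin⟩ := exists_least s hs hne'
    (fun p => {z | z ∈ orb G a ∧ p.2 z p.1}) (by
      rintro ⟨y, R⟩ ⟨hy, hR, hRa⟩ ⟨y', R'⟩ ⟨hy', hR', hRa'⟩
      by_contra hcon
      push Not at hcon
      obtain ⟨h1, h2⟩ := hcon
      obtain ⟨z, ⟨hz, hz1⟩, hz2⟩ := Set.not_subset.1 h1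
      obtain ⟨w, ⟨hw, hw1⟩, hw2⟩ := Set.not_subset.1 h2
      simp only at hz1 hw1
      rcases hch z hz w hw with h3 | h3
      · exact hz2 ⟨hz, hR'.mono _ _ _ _ h3 hw1 (h.refl y')⟩
      · exact hw2 ⟨hw, hR.mono _ _ _ _ h3 hz1 (h.refl y)⟩)
  refine ⟨y, h1, R, h2, h3, fun y' hy' R' hR' hR'a z hz hyz => ?_⟩
  exact (hmin (y', R') ⟨hy', hR', hR'a⟩ ⟨hz, hyz⟩).2

/-- Extension of good lists. -/
theorem Good.extend (h : Sys G le) (hch : ∀ a, ∀ x ∈ orb G a, ∀ y ∈ orb G a, le x y ∨ le y x)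
    {l : List (A × A)} (hl : Good G le l) (a : A) : ∃ b, Good G le ((a, b) :: l) := by
  classical
  by_cases hnil : l = []
  · subst hnil
    refine ⟨a, fun p hp => ?_, fun R hR p hp q hq => ?_⟩
    · simp only [List.mem_cons, List.not_mem_nil, or_false] at hp
      rw [hp]
      exact SO.refl G a
    · simp only [List.mem_cons, List.not_mem_nil, or_false] at hp hq
      rw [hp, hq]
      exact id
  have hS : ({y | ∃ p ∈ l, p.1 = y} : Set A).Finite := by
    refine Set.Finite.subset (l.map Prod.fst).toFinset.finite_toSet ?_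
    rintro y ⟨p, hp, rfl⟩
    simp only [List.coe_toFinset, List.mem_map, Set.mem_ofPred_eq]
    exact ⟨p, hp, rfl⟩
  have hne : ({y | ∃ p ∈ l, p.1 = y} : Set A).Nonempty := by
    obtain ⟨p, hp⟩ := List.exists_mem_of_ne_nil l hnil
    exact ⟨p.1, p, hp, rfl⟩
  obtain ⟨_, ⟨p1, hp1, rfl⟩, R1, hR1, hR1a, hmin1⟩ := h.least_up (hch a) _ hS hne
  obtain ⟨_, ⟨p2, hp2, rfl⟩, R2, hR2, hR2a, hmin2⟩ := h.least_down (hch a) _ hS hne
  have hcomp := hR1.comp hR2 a h.refl
  obtain ⟨b, hb, hb1, hb2⟩ := hl.2 _ hcomp p1 hp1 p2 hp2 ⟨a, self_mem_orb G a, hR1a, hR2a⟩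
  have hup : ∀ R, Mono G le R → ∀ q ∈ l, R q.1 a → R q.2 b := by
    intro R hR q hq hqa
    by_contra hc
    have hm : Mono G le (fun u v => ∃ z ∈ orb G a, R1 u z ∧ ¬ R v z) := hR1.comp hR.dual a h.refl
    obtain ⟨z, hz, hz1, hz2⟩ := (hl.iff hm hp1 hq).2 ⟨b, hb, hb1, hc⟩
    exact hz2 (hmin1 q.1 ⟨q, hq, rfl⟩ R hR hqa z hz hz1)
  have hdown : ∀ R, Mono G le R → ∀ q ∈ l, R a q.1 → R b q.2 := by
    intro R hR q hq hqa
    by_contra hc
    have hm : Mono G le (fun u v => ∃ z ∈ orb G a, (¬ R z u) ∧ R2 z v) :=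
      hR.dual.comp hR2 a h.refl
    obtain ⟨z, hz, hz1, hz2⟩ := (hl.iff hm hq hp2).2 ⟨b, hb, hc, hb2⟩
    exact hz1 (hmin2 q.1 ⟨q, hq, rfl⟩ R hR hqa z hz hz2)
  refine ⟨b, fun p hp => ?_, fun R hR p hp q hq => ?_⟩
  · rcases List.mem_cons.1 hp with rfl | hp
    · exact hb
    · exact hl.1 p hp
  · rcases List.mem_cons.1 hp with h1 | h1
    · rcases List.mem_cons.1 hq with h2 | h2
      · rw [h1, h2]
        obtain ⟨g, hg, hgb⟩ := hb
        simp only
        rw [← hgb]
        exact hR.inv g hg a a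
      · rw [h1]
        exact hdown R hR q h2
    · rcases List.mem_cons.1 hq with h2 | h2
      · rw [h2]
        exact hup R hR p h1
      · exact hl.2 R hR p h1 q h2

theorem Good.swap {l : List (A × A)} (hl : Good G le l) : Good G le (l.map Prod.swap) := by
  refine ⟨fun p hp => ?_, fun R hR p hp q hq => ?_⟩
  · obtain ⟨p', hp', rfl⟩ := List.mem_map.1 hp
    exact (hl.1 p' hp').symm
  · obtain ⟨p', hp', rfl⟩ := List.mem_map.1 hp
    obtain ⟨q', hq', rfl⟩ := List.mem_map.1 hq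
    exact (hl.iff hR hp' hq').2

/-- A good list extends to an element of the group. -/
theorem Good.exists_mem [Countable A] (h : Sys G le)
    (hch : ∀ a, ∀ x ∈ orb G a, ∀ y ∈ orb G a, le x y ∨ le y x)
    {l : List (A × A)} (hl : Good G le l) : ∃ g ∈ G, ∀ p ∈ l, g p.1 = p.2 := by
  classical
  obtain ⟨e, he, heS⟩ := back_forth (Good G le) l hl
    (fun l hl a => hl.extend h hch a)
    (fun l hl b => by
      obtain ⟨a, ha⟩ := hl.swap.extend h hch b
      refine ⟨a, ?_⟩
      have := ha.swap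
      simpa using this)
    (fun l hl p hp q hq => by
      have hle : Mono G le le :=
        ⟨fun g hg x y h' => h.inv g hg x y h', fun x' x y y' h1 h2 h3 =>
          h.trans _ _ _ h1 (h.trans _ _ _ h2 h3)⟩
      constructor
      · intro heq
        have h1 := (hl.iff hle hp hq).1 (by rw [heq]; exact h.refl _)
        have h2 := (hl.iff hle hq hp).1 (by rw [heq]; exact h.refl _)
        exact h.antisymm _ _ h1 h2
      · intro heq
        have h1 := (hl.iff hle hp hq).2 (by rw [heq]; exact h.refl _)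
        have h2 := (hl.iff hle hq hp).2 (by rw [heq]; exact h.refl _)
        exact h.antisymm _ _ h1 h2)
  refine ⟨e, h.mc e ?_ ?_, he⟩
  · intro x
    obtain ⟨l', hl', -, hmem⟩ := heS [x]
    exact hl'.1 _ (hmem x (by simp))
  · intro R hR x y hxy
    obtain ⟨l', hl', -, hmem⟩ := heS [x, y]
    exact hl'.2 R hR _ (hmem x (by simp)) _ (hmem y (by simp)) hxy

/-- L6: the base case. -/
theorem Sys.bip_base [Countable A] (h : Sys G le)
    (hch : ∀ a, ∀ x ∈ orb G a, ∀ y ∈ orb G a, le x y ∨ le y x) : BIP G := by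
  classical
  refine ⟨2, fun F a => ?_⟩
  by_cases hF : F.Nonempty
  · obtain ⟨y1, hy1, R1, hR1, hR1a, hmin1⟩ :=
      h.least_up (hch a) (F : Set A) F.finite_toSet (by simpa using hF)
    obtain ⟨y2, hy2, R2, hR2, hR2a, hmin2⟩ :=
      h.least_down (hch a) (F : Set A) F.finite_toSet (by simpa using hF)
    refine ⟨{y1, y2}, ?_, Finset.card_le_two, ?_⟩
    · intro y hy
      rcases Finset.mem_insert.1 hy with rfl | hy
      · exact hy1
      · rw [Finset.mem_singleton.1 hy]; exact hy2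
    · intro g hg hgf
      have hg1 : g y1 = y1 := hgf y1 (by simp)
      have hg2 : g y2 = y2 := hgf y2 (by simp)
      have h1 : R1 y1 (g a) := by
        have := hR1.inv g hg _ _ hR1a
        rwa [hg1] at this
      have h2 : R2 (g a) y2 := by
        have := hR2.inv g hg _ _ hR2a
        rwa [hg2] at this
      have hga : g a ∈ orb G a := SO.of_mem hg a
      have hgood : Good G le ((a, g a) :: F.toList.map (fun f => (f, f))) := by
        refine ⟨fun p hp => ?_, fun R hR p hp q hq => ?_⟩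
        · rcases List.mem_cons.1 hp with rfl | hp
          · exact hga
          · obtain ⟨f, -, rfl⟩ := List.mem_map.1 hp
            exact SO.refl G f
        · rcases List.mem_cons.1 hp with h3 | h3
          · rcases List.mem_cons.1 hq with h4 | h4
            · rw [h3, h4]
              exact hR.inv g hg a a
            · obtain ⟨f, hf, rfl⟩ := List.mem_map.1 h4
              rw [h3]
              intro h5
              exact hmin2 f (by simpa using hf) R hR h5 _ hga h2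
          · obtain ⟨f, hf, rfl⟩ := List.mem_map.1 h3
            rcases List.mem_cons.1 hq with h4 | h4
            · rw [h4]
              intro h5
              exact hmin1 f (by simpa using hf) R hR h5 _ hga h1
            · obtain ⟨f', hf', rfl⟩ := List.mem_map.1 h4
              exact id
      obtain ⟨k, hk, hkl⟩ := hgood.exists_mem h hch
      refine ⟨k, hk, fun f hf => ?_, ?_⟩
      · exact hkl (f, f) (List.mem_cons_of_mem _ (List.mem_map.2 ⟨f, by simpa using hf, rfl⟩))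
      · exact hkl (a, g a) (by simp)
  · refine ⟨∅, by simp, by simp, fun g hg _ => ⟨g, hg, ?_, rfl⟩⟩
    intro f hf
    exact absurd ⟨f, hf⟩ hF

end Pool.Agent.FinWidth
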