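import Pool.Agent.FinWidth.Cut

/-!
# Classes of the preorder given by strong cuts are singletons or disconnected
-/

set_option autoImplicit false

namespace Pool.Agent.FinWidth

open Equiv

variable {A : Type} {H G : Subgroup (Perm A)} {le : A → A → Prop} {X : Set A}

/-- The setwise stabiliser. -/
def stabS (G : Subgroup (Perm A)) (S : Set A) : Subgroup (Perm A) where
  carrier := {g | g ∈ G ∧ ∀ y, g y ∈ S ↔ y ∈ S}
  one_mem' := ⟨G.one_mem, fun y => by simp⟩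
  mul_mem' := by
    rintro a b ⟨ha, ha'⟩ ⟨hb, hb'⟩
    exact ⟨G.mul_mem ha hb, fun y => by rw [Perm.mul_apply, ha', hb']⟩
  inv_mem' := by
    rintro a ⟨ha, ha'⟩
    refine ⟨G.inv_mem ha, fun y => ?_⟩
    rw [← ha']
    simp

theorem mem_stabS {S : Set A} {g : Perm A} : g ∈ stabS G S ↔ g ∈ G ∧ ∀ y, g y ∈ S ↔ y ∈ S :=
  Iff.rfl

/-- Finitely many orbits on pairs pass to pair-homogeneous subsets. -/
theorem Sys.pairs_sub (h : Sys G le) {S : Set A} (K : Subgroup (Perm A))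
    (hS : ∀ g ∈ G, ∀ x ∈ S, ∀ y ∈ S, g x ∈ S → g y ∈ S → ∃ k ∈ K, k x = g x ∧ k y = g y) :
    ∃ T : Finset (A × A), (∀ t ∈ T, t.1 ∈ S ∧ t.2 ∈ S) ∧
      ∀ x ∈ S, ∀ y ∈ S, ∃ t ∈ T, ∃ g ∈ K, g t.1 = x ∧ g t.2 = y := by
  classical
  obtain ⟨T, hT⟩ := h.pairs
  have : ∀ t : A × A, ∃ s : A × A, (∃ g ∈ G, g t.1 ∈ S ∧ g t.2 ∈ S) →
      (s.1 ∈ S ∧ s.2 ∈ S ∧ ∃ g ∈ G, g t.1 = s.1 ∧ g t.2 = s.2) := by
    intro t
    by_cases ht : ∃ g ∈ G, g t.1 ∈ S ∧ g t.2 ∈ S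
    · obtain ⟨g, hg, h1, h2⟩ := ht
      exact ⟨(g t.1, g t.2), fun _ => ⟨h1, h2, g, hg, rfl, rfl⟩⟩
    · exact ⟨t, fun h' => absurd h' ht⟩
  choose s hs using this
  refine ⟨(T.filter (fun t => ∃ g ∈ G, g t.1 ∈ S ∧ g t.2 ∈ S)).image s, ?_, ?_⟩
  · intro t ht
    obtain ⟨t', ht', rfl⟩ := Finset.mem_image.1 ht
    have := hs t' (Finset.mem_filter.1 ht').2
    exact ⟨this.1, this.2.1⟩
  · intro x hx y hy
    obtain ⟨t, ht, g, hg, h1, h2⟩ := hT x y
    have hex : ∃ g ∈ G, g t.1 ∈ S ∧ g t.2 ∈ S := ⟨g, hg, by rwa [h1], by rwa [h2]⟩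
    obtain ⟨h3, h4, g', hg', h5, h6⟩ := hs t hex
    refine ⟨s t, Finset.mem_image.2 ⟨t, Finset.mem_filter.2 ⟨ht, hex⟩, rfl⟩, ?_⟩
    have h7 : (g * g'⁻¹) (s t).1 = x := by rw [← h5, ← h1]; simp
    have h8 : (g * g'⁻¹) (s t).2 = y := by rw [← h6, ← h2]; simp
    obtain ⟨k, hk, hk1, hk2⟩ := hS (g * g'⁻¹) (G.mul_mem hg (G.inv_mem hg')) (s t).1 h3 (s t).2 h4
      (by rwa [h7]) (by rwa [h8])
    exact ⟨k, hk, hk1.trans h7, hk2.trans h8⟩

/-- The class of `d` in `X`. -/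
def Cls (le : A → A → Prop) (X : Set A) (d : A) : Set A :=
  {y | y ∈ X ∧ Pre le X y d ∧ Pre le X d y}

theorem self_mem_Cls {d : A} (hd : d ∈ X) : d ∈ Cls le X d := ⟨hd, Pre.refl _, Pre.refl _⟩

/-- An element of `G` that moves an element of a class into the class preserves the class. -/
theorem Sys.cls_stab (h : Sys G le) {x d : A} {y : A} (hy : y ∈ Cls le (orb G x) d)
    {g : Perm A} (hg : g ∈ G) (hgy : g y ∈ Cls le (orb G x) d) :
    ∀ z, g z ∈ Cls le (orb G x) d ↔ z ∈ Cls le (orb G x) d := by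
  have key : ∀ (g : Perm A), g ∈ G → ∀ y, y ∈ Cls le (orb G x) d → g y ∈ Cls le (orb G x) d →
      ∀ z, z ∈ Cls le (orb G x) d → g z ∈ Cls le (orb G x) d := by
    intro g hg y hy hgy z hz
    refine ⟨(h.orb_iff hg x z).2 hz.1, ?_, ?_⟩
    · have h1 : Pre le (orb G x) z y := hz.2.1.trans hy.2.2
      exact (h.pre_inv hg h1).trans hgy.2.1
    · have h1 : Pre le (orb G x) y z := hy.2.1.trans hz.2.2
      exact hgy.2.2.trans (h.pre_inv hg h1)
  intro z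
  refine ⟨fun hz => ?_, fun hz => key g hg y hy hgy z hz⟩
  have := key g⁻¹ (G.inv_mem hg) (g y) hgy (by simpa using hy) (g z) hz
  simpa using this

theorem Sys.tr_cls (h : Sys G le) {x d : A} (hw : ∃ w, WLE le (orb G x) w) :
    Tr (stabS G (Cls le (orb G x) d)) le (Cls le (orb G x) d) where
  refl := h.refl
  trans := h.trans
  antisymm := h.antisymm
  inv := fun g hg => h.inv g hg.1
  stab := fun g hg y hy => (hg.2 y).2 hy
  tr := by
    intro y hy z hz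
    obtain ⟨g, hg, hgy⟩ := (SO.symm hy.1).trans hz.1
    exact ⟨g, ⟨hg, h.cls_stab hy hg (by rw [hgy]; exact hz)⟩, hgy⟩
  width := by
    obtain ⟨w, hw⟩ := hw
    exact ⟨w, hw.subset (fun y hy => hy.1)⟩

theorem Sys.tr_orb (h : Sys G le) {x : A} (hw : ∃ w, WLE le (orb G x) w) :
    Tr G le (orb G x) where
  refl := h.refl
  trans := h.trans
  antisymm := h.antisymm
  inv := h.inv
  stab := fun _ hg y hy => (h.orb_iff hg x y).2 hy
  tr := by
    intro y hy z hz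
    exact (SO.symm hy).trans hz
  width := hw

/-- Lemma A: a class with two elements is disconnected. -/
theorem Sys.cls_disc (h : Sys G le) {x : A} (hw : ∃ w, WLE le (orb G x) w) {d e : A}
    (hd : d ∈ orb G x) (he : e ∈ Cls le (orb G x) d) (hde : d ≠ e) :
    ∃ y ∈ Cls le (orb G x) d, ¬ CC le (Cls le (orb G x) d) d y := by
  set X := orb G x with hX
  set C := Cls le X d with hC
  have hdC : d ∈ C := self_mem_Cls hd
  have htr : Tr (stabS G C) le C := h.tr_cls hw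
  by_contra hcon
  push Not at hcon
  have hcc : ∀ y ∈ C, ∀ z ∈ C, CC le C y z := fun y hy z hz =>
    htr.cc_trans hy hdC hz (hcon y hy).symm (hcon z hz)
  have hpairs : ∃ T : Finset (A × A), ∀ y ∈ C, ∀ z ∈ C, ∃ t ∈ T, ∃ g ∈ stabS G C,
      g t.1 = y ∧ g t.2 = z := by
    obtain ⟨T, -, hT⟩ := h.pairs_sub (S := C) (stabS G C) (by
      intro g hg y hy z hz h1 _
      exact ⟨g, ⟨hg, h.cls_stab hy hg h1⟩, rfl, rfl⟩)
    exact ⟨T, hT⟩
  obtain ⟨D, hD, ⟨a, ha⟩, b, hb, hbD⟩ := htr.exists_cut hcc ⟨d, hdC, e, he, hde⟩ hpairs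
  have haC : a ∈ C := hD.1 ha
  have hcut : SCut le X ({z | z ∈ X ∧ ¬ Pre le X d z} ∪ D) := by
    refine ⟨?_, ?_⟩
    · rintro z (hz | hz)
      · exact hz.1
      · exact (hD.1 hz).1
    · rintro y hy z hz hzn
      have h1 : Pre le X d z := by
        by_contra hc
        exact hzn (Or.inl ⟨hz, hc⟩)
      have h2 : z ∉ D := fun h' => hzn (Or.inr h')
      rcases hy with hy | hy
      · exact le_of_not_pre hz (fun h3 => hy.2 (h1.trans h3))
      · by_cases hzC : z ∈ C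
        · exact hD.2 y hy z hzC h2
        · refine le_of_not_pre hz (fun h3 => hzC ⟨hz, ?_, h1⟩)
          exact h3.trans (hD.1 hy).2.1
  have h3 : Pre le X b a := hb.2.1.trans haC.2.2
  rcases h3 _ hcut (Or.inr ha) with h4 | h4
  · exact h4.2 hb.2.2
  · exact hbD h4

end Pool.Agent.FinWidth
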