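import Pool.Agent.FinWidth.Directed

/-!
# Existence of strong cuts, and classes of the preorder given by strong cuts
-/

set_option autoImplicit false

namespace Pool.Agent.FinWidth

open Equiv

variable {A : Type} {H G : Subgroup (Perm A)} {le : A → A → Prop} {X : Set A}

/-- The sets `D n` of elements that can be reached from `x0` by `n` steps that are not strictly
upwards, read backwards. -/
def Reach (le : A → A → Prop) (X : Set A) (x0 : A) : ℕ → Set A
  | 0 => {x0}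
  | n + 1 => {z | z ∈ X ∧ ∃ y ∈ Reach le X x0 n, ¬ (le y z ∧ y ≠ z)}

/-- L3: a nontrivial strong cut exists. -/
theorem Tr.exists_cut (h : Tr H le X) (hcc : ∀ x ∈ X, ∀ y ∈ X, CC le X x y)
    (hnt : ∃ a ∈ X, ∃ b ∈ X, a ≠ b)
    (hp : ∃ T : Finset (A × A), ∀ x ∈ X, ∀ y ∈ X, ∃ t ∈ T, ∃ g ∈ H, g t.1 = x ∧ g t.2 = y) :
    ∃ D, SCut le X D ∧ D.Nonempty ∧ ∃ z ∈ X, z ∉ D := by
  classical
  obtain ⟨x0, hx0, -⟩ := id hnt
  set D := Reach le X x0 with hD
  have hsub : ∀ n, D n ⊆ X := by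
    intro n
    cases n with
    | zero => intro z hz; rw [hD] at hz; simp only [Reach, Set.mem_singleton_iff] at hz; rwa [hz]
    | succ n => intro z hz; exact hz.1
  have hmono : ∀ n, D n ⊆ D (n + 1) := fun n z hz => ⟨hsub n hz, z, hz, fun h' => h'.2 rfl⟩
  have hmono' : Monotone D := monotone_nat_of_le_succ hmono
  have hbd : ∀ n, ∃ u ∈ X, ∀ z ∈ D n, le z u := by
    intro n
    induction n with
    | zero =>
      refine ⟨x0, hx0, fun z hz => ?_⟩
      rw [hD] at hz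
      simp only [Reach, Set.mem_singleton_iff] at hz
      rw [hz]
      exact h.refl _
    | succ n ih =>
      obtain ⟨u, hu, hub⟩ := ih
      obtain ⟨v, hv, -, hdich⟩ := h.dichotomy hcc hu
      refine ⟨v, hv, fun z hz => ?_⟩
      obtain ⟨hzX, y, hy, hyz⟩ := hz
      rcases hdich z hzX with ⟨h1, h2⟩ | h1
      · exfalso
        apply hyz
        refine ⟨h.trans _ _ _ (hub y hy) h1, ?_⟩
        rintro rfl
        exact h2 (h.antisymm _ _ h1 (hub y hy))
      · exact h1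
  have hinv : ∀ g ∈ H, g x0 = x0 → ∀ n, ∀ z ∈ D n, g z ∈ D n := by
    intro g hg hgx n
    induction n with
    | zero =>
      intro z hz
      rw [hD] at hz ⊢
      simp only [Reach, Set.mem_singleton_iff] at hz ⊢
      rw [hz, hgx]
    | succ n ih =>
      intro z hz
      obtain ⟨hzX, y, hy, hyz⟩ := hz
      refine ⟨h.stab g hg z hzX, g y, ih y hy, ?_⟩
      rintro ⟨h1, h2⟩
      apply hyz
      refine ⟨?_, fun h3 => h2 (by rw [h3])⟩
      have := h.inv g⁻¹ (H.inv_mem hg) _ _ h1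
      simpa using this
  refine ⟨⋃ n, D n, ⟨Set.iUnion_subset hsub, ?_⟩, ⟨x0, Set.mem_iUnion.2 ⟨0, ?_⟩⟩, ?_⟩
  · intro y hy z hz hzn
    obtain ⟨n, hn⟩ := Set.mem_iUnion.1 hy
    have hz' : z ∉ D (n + 1) := fun h' => hzn (Set.mem_iUnion.2 ⟨_, h'⟩)
    by_contra hc
    exact hz' ⟨hz, y, hn, fun h' => hc h'.1⟩
  · rw [hD]; simp [Reach]
  · by_contra hcon
    push Not at hcon
    obtain ⟨T, hT⟩ := hp
    have hN : ∀ t ∈ T, ∃ n, ∀ g ∈ H, g t.1 = x0 → g t.2 ∈ X → g t.2 ∈ D n := by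
      intro t _
      by_cases hex : ∃ g ∈ H, g t.1 = x0 ∧ g t.2 ∈ X
      · obtain ⟨g, hg, hg1, hg2⟩ := hex
        obtain ⟨n, hn⟩ := Set.mem_iUnion.1 (hcon _ hg2)
        refine ⟨n, fun g' hg' h1 _ => ?_⟩
        have := hinv (g' * g⁻¹) (H.mul_mem hg' (H.inv_mem hg)) (by
          have h3 : g⁻¹ x0 = t.1 := by rw [← hg1]; simp
          rw [Perm.mul_apply, h3, h1]) n (g t.2) hn
        simpa using this
      · exact ⟨0, fun g hg h1 h2 => absurd ⟨g, hg, h1, h2⟩ hex⟩
    choose! f hf using hN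
    obtain ⟨u, hu, hub⟩ := hbd (T.sup f)
    obtain ⟨v, hv, huv, huv'⟩ := h.no_max hcc hnt hu
    obtain ⟨t, ht, g, hg, h1, h2⟩ := hT x0 hx0 v hv
    have hvD : v ∈ D (f t) := by
      have := hf t ht g hg h1 (by rw [h2]; exact hv)
      rwa [h2] at this
    have hvD' : v ∈ D (T.sup f) := hmono' (Finset.le_sup ht) hvD
    exact huv' (h.antisymm _ _ huv (hub v hvD'))

section pre

theorem Pre.refl (x : A) : Pre le X x x := fun _ _ h => h

theorem Pre.trans {x y z : A} (h1 : Pre le X x y) (h2 : Pre le X y z) : Pre le X x z :=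
  fun D hD hz => h1 D hD (h2 D hD hz)

/-- If some strong cut contains `x` but not `y` then `x ≤ y`. -/
theorem le_of_not_pre {x y : A} (hy : y ∈ X) (h : ¬ Pre le X y x) : le x y := by
  unfold Pre at h
  push Not at h
  obtain ⟨D, hD, hx, hyD⟩ := h
  exact hD.2 x hx y hy hyD

theorem Pre.total (has : ∀ x y, le x y → le y x → x = y) {x y : A} (hx : x ∈ X) (hy : y ∈ X) :
    Pre le X x y ∨ Pre le X y x := by
  by_contra h
  push Not at h
  obtain ⟨h1, h2⟩ := h
  have h3 := le_of_not_pre hx h1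
  have h4 := le_of_not_pre hy h2
  have := has _ _ h3 h4
  subst this
  exact h1 (Pre.refl _)

theorem SCut.down (has : ∀ x y, le x y → le y x → x = y) {D : Set A} (hD : SCut le X D)
    {x y : A} (hx : x ∈ X) (hxy : le x y) (hy : y ∈ D) : x ∈ D := by
  by_contra hc
  have := hD.2 y hy x hx hc
  have := has _ _ hxy this
  subst this
  exact hc hy

theorem Pre.of_le (has : ∀ x y, le x y → le y x → x = y) {x y : A} (hx : x ∈ X)
    (hxy : le x y) : Pre le X x y := fun _ hD hy => hD.down has hx hxy hy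

theorem SCut.total (has : ∀ x y, le x y → le y x → x = y) {D D' : Set A} (hD : SCut le X D)
    (hD' : SCut le X D') : D ⊆ D' ∨ D' ⊆ D := by
  by_contra h
  push Not at h
  obtain ⟨h1, h2⟩ := h
  obtain ⟨x, hx, hx'⟩ := Set.not_subset.1 h1
  obtain ⟨y, hy, hy'⟩ := Set.not_subset.1 h2
  have h3 := hD.2 x hx y (hD'.1 hy) hy'
  have h4 := hD'.2 y hy x (hD.1 hx) hx'
  have := has _ _ h3 h4
  subst this
  exact hy' hx

end pre

/-- The image of a strong cut under a permutation of `X` preserving the order. -/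
theorem SCut.image {D : Set A} (hD : SCut le X D) {g : Perm A}
    (hle : ∀ x y, le x y → le (g x) (g y)) (hX : ∀ x, g x ∈ X ↔ x ∈ X) :
    SCut le X (g '' D) := by
  refine ⟨?_, ?_⟩
  · rintro _ ⟨x, hx, rfl⟩
    exact (hX x).2 (hD.1 hx)
  · rintro _ ⟨x, hx, rfl⟩ z hz hzD
    have h1 : g (g⁻¹ z) = z := by simp
    rw [← h1]
    apply hle
    refine hD.2 x hx _ ((hX _).1 (by rw [h1]; exact hz)) (fun h' => hzD ⟨_, h', h1⟩)

theorem Sys.orb_iff (_h : Sys G le) {g : Perm A} (hg : g ∈ G) (x y : A) :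
    g y ∈ orb G x ↔ y ∈ orb G x :=
  ⟨fun h' => SO.trans h' (SO.of_mem hg y).symm, fun h' => SO.trans h' (SO.of_mem hg y)⟩

theorem Sys.scut_image (h : Sys G le) {g : Perm A} (hg : g ∈ G) {x : A} {D : Set A}
    (hD : SCut le (orb G x) D) : SCut le (orb G x) (g '' D) :=
  hD.image (h.inv g hg) (h.orb_iff hg x)

theorem Sys.pre_inv (h : Sys G le) {g : Perm A} (hg : g ∈ G) {x y z : A}
    (hp : Pre le (orb G x) y z) : Pre le (orb G x) (g y) (g z) := by
  intro D hD hz
  have h1 := h.scut_image (G.inv_mem hg) hD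
  have h2 := hp _ h1 ⟨_, hz, by simp⟩
  obtain ⟨w, hw, hw'⟩ := h2
  have : w = g y := by rw [← hw']; simp
  rwa [← this]

end Pool.Agent.FinWidth
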