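import Pool.Agent.FinWidth.Basic

/-!
# Transitive partial orders of finite width: directedness and strong cuts
-/

set_option autoImplicit false

namespace Pool.Agent.FinWidth

open Equiv

variable {A : Type} {H : Subgroup (Perm A)} {le : A → A → Prop} {X : Set A}

/-- In a transitive partial order of finite width two elements with a common lower bound have a
common upper bound. -/
theorem Tr.up (h : Tr H le X) {x u v : A} (hx : x ∈ X) (hu : u ∈ X) (hv : v ∈ X)
    (hxu : le x u) (hxv : le x v) : CC le X u v := by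
  classical
  by_contra hcon
  obtain ⟨w, hw⟩ := h.width
  -- pairwise incompatible families with a common lower bound
  let Q : ℕ → Prop := fun n => ∃ F : Finset A, (∀ a ∈ F, a ∈ X) ∧
    (∀ a ∈ F, ∀ b ∈ F, CC le X a b → a = b) ∧ (∃ l ∈ X, ∀ a ∈ F, le l a) ∧ F.card = n
  have hQb : ∀ n, Q n → n ≤ w := by
    rintro n ⟨F, hFX, hFi, -, rfl⟩
    refine hw F hFX (fun a ha b hb hab => hFi a ha b hb ⟨b, hFX b hb, hab, h.refl b⟩)
  have hQ0 : Q 0 := ⟨∅, by simp, by simp, ⟨x, hx, by simp⟩, rfl⟩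
  obtain ⟨n, hn, hmax⟩ : ∃ n, Q n ∧ ∀ m, Q m → m ≤ n := by
    have hfin : {n | Q n}.Finite := Set.Finite.subset (Set.finite_Iic w) hQb
    obtain ⟨n, hn⟩ := hfin.exists_maximal ⟨0, hQ0⟩
    exact ⟨n, hn.1, fun m hm => le_of_not_gt fun hlt => absurd (hn.2 hm hlt.le) (not_le.2 hlt)⟩
  obtain ⟨F, hFX, hFi, ⟨l, hl, hlF⟩, hFc⟩ := hn
  obtain ⟨g, hg, hgl⟩ := h.tr l hl u hu
  have hmem : ∀ a ∈ F.image g, a ∈ X ∧ le u a := by
    intro a ha
    obtain ⟨b, hb, rfl⟩ := Finset.mem_image.1 ha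
    refine ⟨h.stab g hg b (hFX b hb), ?_⟩
    rw [← hgl]
    exact h.inv g hg _ _ (hlF b hb)
  have hginv : ∀ a b, CC le X (g a) (g b) → CC le X a b := by
    rintro a b ⟨z, hz, h1, h2⟩
    refine ⟨g⁻¹ z, h.stab _ (H.inv_mem hg) z hz, ?_, ?_⟩
    · have := h.inv g⁻¹ (H.inv_mem hg) _ _ h1
      simpa using this
    · have := h.inv g⁻¹ (H.inv_mem hg) _ _ h2
      simpa using this
  have hvF : ∀ a ∈ F.image g, ¬ CC le X a v := by
    rintro a ha ⟨z, hz, h1, h2⟩
    exact hcon ⟨z, hz, h.trans _ _ _ (hmem a ha).2 h1, h2⟩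
  have hvF' : v ∉ F.image g := fun hv' => hvF v hv' ⟨v, hv, h.refl v, h.refl v⟩
  have hQ' : Q (n + 1) := by
    refine ⟨insert v (F.image g), ?_, ?_, ⟨x, hx, ?_⟩, ?_⟩
    · intro a ha
      rcases Finset.mem_insert.1 ha with rfl | ha
      · exact hv
      · exact (hmem a ha).1
    · intro a ha b hb hab
      rcases Finset.mem_insert.1 ha with hav | haF
      · rcases Finset.mem_insert.1 hb with hbv | hbF
        · rw [hav, hbv]
        · obtain ⟨z, hz, h1, h2⟩ := hab
          rw [hav] at h1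
          exact absurd ⟨z, hz, h2, h1⟩ (hvF b hbF)
      · rcases Finset.mem_insert.1 hb with hbv | hbF
        · rw [hbv] at hab
          exact absurd hab (hvF a haF)
        · obtain ⟨a', ha', rfl⟩ := Finset.mem_image.1 haF
          obtain ⟨b', hb', rfl⟩ := Finset.mem_image.1 hbF
          rw [hFi a' ha' b' hb' (hginv _ _ hab)]
    · intro a ha
      rcases Finset.mem_insert.1 ha with rfl | ha
      · exact hxv
      · exact h.trans _ _ _ hxu (hmem a ha).2
    · rw [Finset.card_insert_of_notMem hvF', Finset.card_image_of_injective _ g.injective, hFc]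
  exact absurd (hmax _ hQ') (by omega)

theorem Tr.cc_trans (h : Tr H le X) {x y z : A} (_hx : x ∈ X) (hy : y ∈ X) (_hz : z ∈ X)
    (h1 : CC le X x y) (h2 : CC le X y z) : CC le X x z := by
  obtain ⟨u, hu, hxu, hyu⟩ := h1
  obtain ⟨v, hv, hyv, hzv⟩ := h2
  obtain ⟨t, ht, hut, hvt⟩ := h.up hy hu hv hyu hyv
  exact ⟨t, ht, h.trans _ _ _ hxu hut, h.trans _ _ _ hzv hvt⟩

theorem CC.symm {x y : A} (h : CC le X x y) : CC le X y x := by
  obtain ⟨u, hu, h1, h2⟩ := h
  exact ⟨u, hu, h2, h1⟩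

/-- If any two elements have a common upper bound then any two elements have a common lower
bound. -/
theorem Tr.down_of_cc (h : Tr H le X) (hcc : ∀ x ∈ X, ∀ y ∈ X, CC le X x y)
    {x y : A} (hx : x ∈ X) (hy : y ∈ X) : ∃ l ∈ X, le l x ∧ le l y := by
  obtain ⟨u, hu, h1, h2⟩ := hcc x hx y hy
  exact h.dual.up hu hx hy h1 h2

theorem Tr.finset_ub (h : Tr H le X) (hcc : ∀ x ∈ X, ∀ y ∈ X, CC le X x y) (hne : X.Nonempty)
    (F : Finset A) (hF : ∀ a ∈ F, a ∈ X) : ∃ u ∈ X, ∀ a ∈ F, le a u := by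
  classical
  induction F using Finset.induction_on with
  | empty => exact ⟨hne.some, hne.some_mem, by simp⟩
  | insert a F _ ih =>
    obtain ⟨u, hu, hFu⟩ := ih (fun b hb => hF b (Finset.mem_insert_of_mem hb))
    obtain ⟨v, hv, h1, h2⟩ := hcc u hu a (hF a (Finset.mem_insert_self _ _))
    refine ⟨v, hv, fun b hb => ?_⟩
    rcases Finset.mem_insert.1 hb with rfl | hb
    · exact h2
    · exact h.trans _ _ _ (hFu b hb) h1

/-- L2: for each `x` there is a `u` such that each element is above `x` or below `u`. -/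
theorem Tr.dichotomy (h : Tr H le X) (hcc : ∀ x ∈ X, ∀ y ∈ X, CC le X x y)
    {x : A} (hx : x ∈ X) : ∃ u ∈ X, le x u ∧ ∀ z ∈ X, (le x z ∧ x ≠ z) ∨ le z u := by
  classical
  by_contra hcon
  have hno : ∀ y ∈ X, ∀ u ∈ X, ∃ z ∈ X, ¬ (le y z ∧ y ≠ z) ∧ ¬ le z u := by
    -- transfer the failure from `x` to `y`
    intro y hy u hu
    obtain ⟨g, hg, hgx⟩ := h.tr x hx y hy
    by_contra hc
    push Not at hc
    apply hcon
    obtain ⟨v, hv, h1, h2⟩ := hcc x hx (g⁻¹ u) (h.stab _ (H.inv_mem hg) _ hu)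
    refine ⟨v, hv, h1, fun z hz => ?_⟩
    by_cases hz' : le x z ∧ x ≠ z
    · exact Or.inl hz'
    · right
      have h3 := hc (g z) (h.stab g hg z hz) (by
        intro h4
        by_contra h5
        apply hz'
        refine ⟨?_, fun hxz => h5 (by rw [← hgx, hxz])⟩
        have := h.inv g⁻¹ (H.inv_mem hg) _ _ h4
        rw [← hgx] at this
        simpa using this)
      have := h.inv g⁻¹ (H.inv_mem hg) _ _ h3
      refine h.trans _ _ _ ?_ h2
      simpa using this
  obtain ⟨w, hw⟩ := h.width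
  have key : ∀ n : ℕ, ∃ F : Finset A, (∀ a ∈ F, a ∈ X) ∧
      (∀ a ∈ F, ∀ b ∈ F, le a b → a = b) ∧ F.card = n := by
    intro n
    induction n with
    | zero => exact ⟨∅, by simp, by simp, rfl⟩
    | succ n ih =>
      obtain ⟨F, hFX, hFa, hFc⟩ := ih
      obtain ⟨u, hu, hFu⟩ := h.finset_ub hcc ⟨x, hx⟩ F hFX
      have hcc' : ∀ x ∈ X, ∀ y ∈ X, CC (fun a b => le b a) X x y := by
        intro a ha b hb
        obtain ⟨l, hl, h1, h2⟩ := h.down_of_cc hcc ha hb
        exact ⟨l, hl, h1, h2⟩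
      obtain ⟨l, hl, hlF⟩ := h.dual.finset_ub hcc' ⟨x, hx⟩ F hFX
      obtain ⟨z, hz, hz1, hz2⟩ := hno l hl u hu
      have hza : ∀ a ∈ F, ¬ le a z := by
        intro a ha haz
        have hlz : le l z := h.trans _ _ _ (hlF a ha) haz
        have : l = z := by
          by_contra hne
          exact hz1 ⟨hlz, hne⟩
        subst this
        exact hz2 (h.trans _ _ _ (hlF a ha) (hFu a ha))
      have hza' : ∀ a ∈ F, ¬ le z a := fun a ha h' => hz2 (h.trans _ _ _ h' (hFu a ha))
      have hzF : z ∉ F := fun h' => hza z h' (h.refl z)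
      refine ⟨insert z F, ?_, ?_, ?_⟩
      · intro a ha
        rcases Finset.mem_insert.1 ha with rfl | ha
        · exact hz
        · exact hFX a ha
      · intro a ha b hb hab
        rcases Finset.mem_insert.1 ha with hav | haF
        · rcases Finset.mem_insert.1 hb with hbv | hbF
          · rw [hav, hbv]
          · rw [hav] at hab
            exact absurd hab (hza' b hbF)
        · rcases Finset.mem_insert.1 hb with hbv | hbF
          · rw [hbv] at hab
            exact absurd hab (hza a haF)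
          · exact hFa a haF b hbF hab
      · rw [Finset.card_insert_of_notMem hzF, hFc]
  obtain ⟨F, h1, h2, h3⟩ := key (w + 1)
  have := hw F h1 h2
  omega

/-- A transitive cc-connected set with two elements has no maximal element. -/
theorem Tr.no_max (h : Tr H le X) (hcc : ∀ x ∈ X, ∀ y ∈ X, CC le X x y)
    (hnt : ∃ a ∈ X, ∃ b ∈ X, a ≠ b) {x : A} (hx : x ∈ X) : ∃ y ∈ X, le x y ∧ x ≠ y := by
  obtain ⟨a, ha, b, hb, hab⟩ := hnt
  obtain ⟨u, hu, h1, h2⟩ := hcc a ha b hb
  -- one of a, b is strictly below u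
  have : ∃ c ∈ X, le c u ∧ c ≠ u := by
    by_cases hau : a = u
    · exact ⟨b, hb, h2, fun hbu => hab (hau.trans hbu.symm)⟩
    · exact ⟨a, ha, h1, hau⟩
  obtain ⟨c, hc, hcu, hcu'⟩ := this
  obtain ⟨g, hg, rfl⟩ := h.tr c hc x hx
  exact ⟨g u, h.stab g hg u hu, h.inv g hg _ _ hcu, fun h' => hcu' (g.injective h')⟩

end Pool.Agent.FinWidth
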