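import Pool.Agent.FinWidth.Kernel

/-!
# Back-and-forth between a structure with the bounded isolation property and a structure whose
tuples of bounded length look the same
-/

set_option autoImplicit false

namespace Pool.Agent.FinWidth

open Equiv

variable {M B : Type} {K N : ℕ}

/-- `τ b v` says that the `K`-tuple `b` of `B` has the type of the `K`-tuple `v` of `M`. -/
structure Tau (K : ℕ) (G : Subgroup (Perm M)) (τ : (Fin K → B) → (Fin K → M) → Prop) : Prop where
  ex : ∀ b, ∃ v, τ b v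
  subst : ∀ b v (s : Fin K → Fin K), τ b v → τ (b ∘ s) (v ∘ s)
  uniq : ∀ b v v', τ b v → τ b v' → ∃ g ∈ G, ∀ i, g (v i) = v' i
  inv : ∀ b v, ∀ g ∈ G, τ b v → τ b (g ∘ v)
  ext : ∀ b v, ∀ i a, τ b v → ∃ y, τ (Function.update b i y) (Function.update v i a)

/-- All `K`-tuples of pairs from `P` correspond. -/
def Gd (τ : (Fin K → B) → (Fin K → M) → Prop) (P : Set (M × B)) : Prop :=
  ∀ t : Fin K → M × B, (∀ i, t i ∈ P) → τ (Prod.snd ∘ t) (Prod.fst ∘ t)

theorem Gd.mono {τ : (Fin K → B) → (Fin K → M) → Prop} {P Q : Set (M × B)} (h : Gd τ P)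
    (hQ : Q ⊆ P) : Gd τ Q := fun t ht => h t (fun i => hQ (ht i))

/-- The tuple version of `BIP_ary`. -/
theorem tuple_ary {G : Subgroup (Perm M)}
    (hN : ∀ (F : Finset M) (a : M), ∃ F' : Finset M, F' ⊆ F ∧ F'.card ≤ N ∧
      ∀ g ∈ G, (∀ f ∈ F', g f = f) → ∃ h ∈ G, (∀ f ∈ F, h f = f) ∧ h a = g a)
    {I : Type} (x y : I → M) (S : Finset I)
    (hS : ∀ J : Finset I, J ⊆ S → J.card ≤ N + 1 → ∃ g ∈ G, ∀ i ∈ J, g (x i) = y i) :
    ∃ g ∈ G, ∀ i ∈ S, g (x i) = y i := by
  classical
  induction S using Finset.induction_on with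
  | empty => exact ⟨1, G.one_mem, by simp⟩
  | insert i S _ ih =>
    obtain ⟨g0, hg0, hg0S⟩ := ih (fun J hJ hc => hS J (hJ.trans (Finset.subset_insert _ _)) hc)
    obtain ⟨F', hF', hFc, hiso⟩ := hN (S.image x) (x i)
    have hsec : ∀ f : M, ∃ j : I, f ∈ F' → j ∈ S ∧ x j = f ∨ f ∉ F' := by
      intro f
      by_cases hf : f ∈ F'
      · obtain ⟨j, hj, hjf⟩ := Finset.mem_image.1 (hF' hf)
        exact ⟨j, fun _ => Or.inl ⟨hj, hjf⟩⟩
      · exact ⟨i, fun h' => absurd h' hf⟩
    choose s hs using hsec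
    have hs' : ∀ f ∈ F', s f ∈ S ∧ x (s f) = f := fun f hf =>
      (hs f hf).resolve_right (fun h' => h' hf)
    obtain ⟨g1, hg1, hg1J⟩ := hS (insert i (F'.image s))
      (Finset.insert_subset_insert _ (by
        intro j hj
        obtain ⟨f, hf, rfl⟩ := Finset.mem_image.1 hj
        exact (hs' f hf).1))
      ((Finset.card_insert_le _ _).trans (by
        have := Finset.card_image_le (s := F') (f := s)
        omega))
    obtain ⟨k, hk, hkF, hka⟩ := hiso (g0⁻¹ * g1) (G.mul_mem (G.inv_mem hg0) hg1) (by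
      intro f hf
      have h1 := hg1J (s f) (Finset.mem_insert_of_mem (Finset.mem_image.2 ⟨f, hf, rfl⟩))
      have h2 := hg0S (s f) (hs' f hf).1
      rw [(hs' f hf).2] at h1 h2
      rw [Perm.mul_apply, h1, ← h2]
      simp)
    refine ⟨g0 * k, G.mul_mem hg0 hk, fun j hj => ?_⟩
    rcases Finset.mem_insert.1 hj with h2 | h2
    · rw [h2, Perm.mul_apply, hka, Perm.mul_apply]
      have := hg1J i (Finset.mem_insert_self _ _)
      rw [this]
      simp
    · rw [Perm.mul_apply, hkF _ (Finset.mem_image.2 ⟨j, h2, rfl⟩), hg0S j h2]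

namespace Tau

variable {G : Subgroup (Perm M)} {τ : (Fin K → B) → (Fin K → M) → Prop}

theorem gd_range (h : Tau K G τ) {t : Fin K → M × B} (ht : τ (Prod.snd ∘ t) (Prod.fst ∘ t)) :
    Gd τ (Set.range t) := by
  intro t' ht'
  choose s hs using ht'
  have h1 : t' = t ∘ s := funext (fun i => (hs i).symm)
  rw [h1]
  exact h.subst _ _ s ht

theorem gd_move (h : Tau K G τ) {P : Set (M × B)} (hP : Gd τ P) {g : Perm M} (hg : g ∈ G) :
    Gd τ ((fun p : M × B => (g p.1, p.2)) '' P) := by
  intro t ht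
  choose t' ht' htt' using ht
  have h1 := h.inv _ _ g hg (hP t' ht')
  have h2 : Prod.snd ∘ t = Prod.snd ∘ t' := funext (fun i => by simp [← htt' i])
  have h3 : Prod.fst ∘ t = g ∘ Prod.fst ∘ t' := funext (fun i => by simp [← htt' i])
  rw [h2, h3]
  exact h1

/-- Enumeration of a finite set of pairs leaving the last place free. -/
theorem enum {K' : ℕ} (P : Finset (M × B)) (hne : P.Nonempty) (hP : P.card ≤ K') :
    ∃ t : Fin (K' + 1) → M × B, (∀ i, t i ∈ P) ∧ ∀ p ∈ P, ∃ i : Fin (K' + 1),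
      i ≠ Fin.last K' ∧ t i = p := by
  classical
  obtain ⟨p0, hp0⟩ := hne
  let e := P.equivFin
  refine ⟨fun i => if h : (i : ℕ) < P.card then (e.symm ⟨i, h⟩ : M × B) else p0, ?_, ?_⟩
  · intro i
    simp only
    split_ifs with h
    · exact (e.symm ⟨i, h⟩).2
    · exact hp0
  · intro p hp
    have hlt := (e ⟨p, hp⟩).2
    refine ⟨⟨(e ⟨p, hp⟩ : ℕ), by omega⟩, ?_, ?_⟩
    · intro h
      have := congrArg Fin.val h
      simp only [Fin.val_last] at this
      omega
    · simp only
      rw [dif_pos hlt]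
      have h1 : (⟨((e ⟨p, hp⟩ : Fin P.card) : ℕ), hlt⟩ : Fin P.card) = e ⟨p, hp⟩ := rfl
      rw [h1, Equiv.symm_apply_apply]

theorem small_b {K' : ℕ} {τ : (Fin (K' + 1) → B) → (Fin (K' + 1) → M) → Prop}
    (h : Tau (K' + 1) G τ) (hK : 1 ≤ K') (P : Finset (M × B)) (hP : Gd τ (P : Set (M × B)))
    (hc : P.card ≤ K') (b : B) : ∃ a, Gd τ (insert (a, b) (P : Set (M × B))) := by
  classical
  rcases P.eq_empty_or_nonempty with rfl | hne
  · obtain ⟨v, hv⟩ := h.ex (fun _ => b)
    refine ⟨v 0, ?_⟩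
    have h1 := h.subst _ _ (fun _ => 0) hv
    have h2 : Gd τ (Set.range (fun _ : Fin (K' + 1) => (v 0, b))) := h.gd_range h1
    refine h2.mono ?_
    intro p hp
    simp only [Finset.coe_empty, insert_empty_eq, Set.mem_singleton_iff] at hp
    rw [hp]
    exact ⟨0, rfl⟩
  · obtain ⟨t, htP, ht⟩ := enum P hne hc
    obtain ⟨v, hv⟩ := h.ex (Function.update (Prod.snd ∘ t) (Fin.last K') b)
    let s : Fin (K' + 1) → Fin (K' + 1) := fun i => if i = Fin.last K' then 0 else i
    have hlast0 : (0 : Fin (K' + 1)) ≠ Fin.last K' := by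
      intro h0
      have := congrArg Fin.val h0
      simp only [Fin.val_last, Fin.val_zero] at this
      omega
    have hsl : ∀ i, s i ≠ Fin.last K' := by
      intro i
      by_cases hi : i = Fin.last K'
      · simp only [s, if_pos hi]; exact hlast0
      · simp only [s, if_neg hi]; exact hi
    have hsi : ∀ i, i ≠ Fin.last K' → s i = i := fun i hi => by simp only [s, if_neg hi]
    have h1 := h.subst _ _ s hv
    have h2 : (Function.update (Prod.snd ∘ t) (Fin.last K') b) ∘ s = Prod.snd ∘ (t ∘ s) := by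
      funext i
      simp only [Function.comp_apply]
      rw [Function.update_of_ne (hsl i)]
      rfl
    rw [h2] at h1
    have h3 := hP (t ∘ s) (fun i => htP _)
    obtain ⟨g, hg, hgv⟩ := h.uniq _ _ _ h1 h3
    have h4 := h.inv _ _ g hg hv
    refine ⟨g (v (Fin.last K')), ?_⟩
    have h5 : τ (Prod.snd ∘ (Function.update t (Fin.last K') (g (v (Fin.last K')), b)))
        (Prod.fst ∘ (Function.update t (Fin.last K') (g (v (Fin.last K')), b))) := by
      convert h4 using 1
      · funext i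
        by_cases hi : i = Fin.last K'
        · subst hi; simp
        · simp [Function.update_of_ne hi]
      · funext i
        by_cases hi : i = Fin.last K'
        · subst hi; simp
        · simp only [Function.comp_apply, Function.update_of_ne hi]
          have := hgv i
          simp only [Function.comp_apply, hsi i hi] at this
          exact this.symm
    refine (h.gd_range h5).mono ?_
    intro p hp
    rcases hp with hp | hp
    · exact ⟨Fin.last K', by rw [hp]; simp⟩
    · obtain ⟨i, hi, hip⟩ := ht p hp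
      exact ⟨i, by rw [Function.update_of_ne hi, hip]⟩

theorem small_a {K' : ℕ} {τ : (Fin (K' + 1) → B) → (Fin (K' + 1) → M) → Prop}
    (h : Tau (K' + 1) G τ) [Nonempty B] (P : Finset (M × B))
    (hP : Gd τ (P : Set (M × B)))
    (hc : P.card ≤ K') (a : M) : ∃ b, Gd τ (insert (a, b) (P : Set (M × B))) := by
  classical
  rcases P.eq_empty_or_nonempty with rfl | hne
  · obtain ⟨v, hv⟩ := h.ex (fun _ => Classical.arbitrary B)
    obtain ⟨y, hy⟩ := h.ext _ _ 0 a hv
    refine ⟨y, ?_⟩
    have h1 := h.subst _ _ (fun _ => 0) hy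
    have h2 : Gd τ (Set.range (fun _ : Fin (K' + 1) => (a, y))) := by
      apply h.gd_range
      convert h1 using 1
      · funext i; simp
      · funext i; simp
    refine h2.mono ?_
    intro p hp
    simp only [Finset.coe_empty, insert_empty_eq, Set.mem_singleton_iff] at hp
    rw [hp]
    exact ⟨0, rfl⟩
  · obtain ⟨t, htP, ht⟩ := enum P hne hc
    obtain ⟨y, hy⟩ := h.ext _ _ (Fin.last K') a (hP t htP)
    refine ⟨y, ?_⟩
    have h5 : τ (Prod.snd ∘ (Function.update t (Fin.last K') (a, y)))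
        (Prod.fst ∘ (Function.update t (Fin.last K') (a, y))) := by
      convert hy using 1
      · funext i
        by_cases hi : i = Fin.last K'
        · subst hi; simp
        · simp [Function.update_of_ne hi]
      · funext i
        by_cases hi : i = Fin.last K'
        · subst hi; simp
        · simp [Function.update_of_ne hi]
    refine (h.gd_range h5).mono ?_
    intro p hp
    rcases hp with hp | hp
    · exact ⟨Fin.last K', by rw [hp]; simp⟩
    · obtain ⟨i, hi, hip⟩ := ht p hp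
      exact ⟨i, by rw [Function.update_of_ne hi, hip]⟩

/-- Two small correspondences with the same right sides are conjugate. -/
theorem conj {K' : ℕ} {τ : (Fin (K' + 1) → B) → (Fin (K' + 1) → M) → Prop}
    (h : Tau (K' + 1) G τ) (P : Finset (M × B)) (hc : P.card ≤ K') {a a' : M} {b : B}
    (h1 : Gd τ (insert (a, b) (P : Set (M × B)))) (h2 : Gd τ (insert (a', b) (P : Set (M × B)))) :
    ∃ g ∈ G, (∀ p ∈ P, g p.1 = p.1) ∧ g a = a' := by
  classical
  rcases P.eq_empty_or_nonempty with rfl | hne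
  · have e1 := h1 (fun _ => (a, b)) (fun _ => Set.mem_insert _ _)
    have e2 := h2 (fun _ => (a', b)) (fun _ => Set.mem_insert _ _)
    obtain ⟨g, hg, hgv⟩ := h.uniq _ _ _ e1 e2
    exact ⟨g, hg, by simp, hgv 0⟩
  · obtain ⟨t, htP, ht⟩ := enum P hne hc
    have e1 := h1 (Function.update t (Fin.last K') (a, b)) (by
      intro i
      by_cases hi : i = Fin.last K'
      · subst hi; simp
      · rw [Function.update_of_ne hi]; exact Or.inr (htP i))
    have e2 := h2 (Function.update t (Fin.last K') (a', b)) (by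
      intro i
      by_cases hi : i = Fin.last K'
      · subst hi; simp
      · rw [Function.update_of_ne hi]; exact Or.inr (htP i))
    have e3 : Prod.snd ∘ (Function.update t (Fin.last K') (a, b)) =
        Prod.snd ∘ (Function.update t (Fin.last K') (a', b)) := by
      funext i
      by_cases hi : i = Fin.last K'
      · subst hi; simp
      · simp [Function.update_of_ne hi]
    rw [e3] at e1
    obtain ⟨g, hg, hgv⟩ := h.uniq _ _ _ e1 e2
    refine ⟨g, hg, fun p hp => ?_, ?_⟩
    · obtain ⟨i, hi, hip⟩ := ht p hp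
      have := hgv i
      simp only [Function.comp_apply, Function.update_of_ne hi, hip] at this
      exact this
    · have := hgv (Fin.last K')
      simpa using this

variable (hN : ∀ (F : Finset M) (a : M), ∃ F' : Finset M, F' ⊆ F ∧ F'.card ≤ N ∧
      ∀ g ∈ G, (∀ f ∈ F', g f = f) → ∃ h ∈ G, (∀ f ∈ F, h f = f) ∧ h a = g a)

include hN

/-- From small subsets to the whole. -/
theorem of_small {K' : ℕ} {τ : (Fin (K' + 1) → B) → (Fin (K' + 1) → M) → Prop}
    (h : Tau (K' + 1) G τ) (F : Finset (M × B)) (hF : Gd τ (F : Set (M × B))) {a : M} {b : B}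
    (hsm : ∀ P : Finset (M × B), P ⊆ F → P.card ≤ N → Gd τ (insert (a, b) (P : Set (M × B)))) :
    Gd τ (insert (a, b) (F : Set (M × B))) := by
  classical
  intro t ht
  obtain ⟨v, hv⟩ := h.ex (Prod.snd ∘ t)
  have key : ∃ g ∈ G, ∀ i ∈ (Finset.univ : Finset (Fin (K' + 1))),
      g (v i) = (Prod.fst ∘ t) i := by
    refine tuple_ary hN v (Prod.fst ∘ t) Finset.univ ?_
    intro J _ hJ
    rcases J.eq_empty_or_nonempty with rfl | ⟨j0, hj0⟩
    · exact ⟨1, G.one_mem, by simp⟩
    let s : Fin (K' + 1) → Fin (K' + 1) := fun i => if i ∈ J then i else j0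
    have hsJ : ∀ i, s i ∈ J := by
      intro i
      by_cases hi : i ∈ J
      · simp only [s, if_pos hi]; exact hi
      · simp only [s, if_neg hi]; exact hj0
    have hsi : ∀ i ∈ J, s i = i := fun i hi => by simp only [s, if_pos hi]
    have hgood : τ (Prod.snd ∘ (t ∘ s)) (Prod.fst ∘ (t ∘ s)) := by
      by_cases hab : ∃ j ∈ J, t j = (a, b)
      · obtain ⟨j, hj, hjab⟩ := hab
        -- P = pairs of J other than (a, b)
        have hPF : (J.image t).erase (a, b) ⊆ F := by
          intro p hp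
          obtain ⟨hp1, hp2⟩ := Finset.mem_erase.1 hp
          obtain ⟨i, hi, rfl⟩ := Finset.mem_image.1 hp2
          rcases ht i with h1 | h1
          · exact absurd h1 hp1
          · exact h1
        have hPc : ((J.image t).erase (a, b)).card ≤ N := by
          have hmem : (a, b) ∈ J.image t := Finset.mem_image.2 ⟨j, hj, hjab⟩
          rw [Finset.card_erase_of_mem hmem]
          have := Finset.card_image_le (s := J) (f := t)
          omega
        refine hsm _ hPF hPc (t ∘ s) (fun i => ?_)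
        by_cases hi : t (s i) = (a, b)
        · exact Or.inl hi
        · exact Or.inr (Finset.mem_coe.2 (Finset.mem_erase.2
            ⟨hi, Finset.mem_image.2 ⟨s i, hsJ i, rfl⟩⟩))
      · push Not at hab
        refine hF (t ∘ s) (fun i => ?_)
        rcases ht (s i) with h1 | h1
        · exact absurd h1 (hab _ (hsJ i))
        · exact h1
    have h1 := h.subst _ _ s hv
    obtain ⟨g, hg, hgv⟩ := h.uniq _ _ _ h1 hgood
    refine ⟨g, hg, fun i hi => ?_⟩
    have := hgv i
    simp only [Function.comp_apply, hsi i hi] at this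
    exact this
  obtain ⟨g, hg, hgv⟩ := key
  have h1 := h.inv _ _ g hg hv
  have h2 : g ∘ v = Prod.fst ∘ t := funext (fun i => hgv i (Finset.mem_univ i))
  rwa [h2] at h1

theorem forth {K' : ℕ} {τ : (Fin (K' + 1) → B) → (Fin (K' + 1) → M) → Prop}
    (h : Tau (K' + 1) G τ) (hK : 2 * N + 1 ≤ K') [Nonempty B] (F : Finset (M × B))
    (hF : Gd τ (F : Set (M × B))) (a : M) : ∃ b, Gd τ (insert (a, b) (F : Set (M × B))) := by
  classical
  obtain ⟨F', hF', hFc, hiso⟩ := hN (F.image Prod.fst) a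
  have hsec : ∀ f : M, ∃ p : M × B, f ∈ F' → p ∈ F ∧ p.1 = f := by
    intro f
    by_cases hf : f ∈ F'
    · obtain ⟨p, hp, hpf⟩ := Finset.mem_image.1 (hF' hf)
      exact ⟨p, fun _ => ⟨hp, hpf⟩⟩
    · exact ⟨(a, Classical.arbitrary B), fun h' => absurd h' hf⟩
  choose s hs using hsec
  have hPF : F'.image s ⊆ F := by
    intro p hp
    obtain ⟨f, hf, rfl⟩ := Finset.mem_image.1 hp
    exact (hs f hf).1
  have hPc : (F'.image s).card ≤ N := (Finset.card_image_le).trans hFc
  obtain ⟨b, hb⟩ := h.small_a (F'.image s) (hF.mono (Finset.coe_subset.2 hPF)) (by omega) a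
  refine ⟨b, of_small hN h F hF ?_⟩
  intro P hP hPc'
  have hU : (F'.image s ∪ P) ⊆ F := Finset.union_subset hPF hP
  have hUc : (F'.image s ∪ P).card ≤ K' := (Finset.card_union_le _ _).trans (by omega)
  obtain ⟨a', ha'⟩ := h.small_b (by omega) (F'.image s ∪ P) (hF.mono (Finset.coe_subset.2 hU))
    hUc b
  have ha'1 : Gd τ (insert (a', b) ((F'.image s : Finset (M × B)) : Set (M × B))) :=
    ha'.mono (Set.insert_subset_insert (Finset.coe_subset.2 Finset.subset_union_left))
  obtain ⟨g, hg, hgP, hga⟩ := h.conj (F'.image s) (by omega) hb ha'1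
  obtain ⟨k, hk, hkF, hka⟩ := hiso g hg (by
    intro f hf
    have := hgP (s f) (Finset.mem_image.2 ⟨f, hf, rfl⟩)
    rw [(hs f hf).2] at this
    exact this)
  rw [hga] at hka
  have h1 := h.gd_move ha' (G.inv_mem hk)
  refine h1.mono ?_
  intro p hp
  rcases hp with hp | hp
  · refine ⟨(a', b), Set.mem_insert _ _, ?_⟩
    rw [hp, ← hka]
    simp
  · refine ⟨p, Set.mem_insert_of_mem _ (Finset.mem_coe.2 (Finset.mem_union_right _ hp)), ?_⟩
    have h2 := hkF p.1 (Finset.mem_image.2 ⟨p, hP hp, rfl⟩)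
    have h3 : k⁻¹ p.1 = p.1 := by
      conv_lhs => rw [← h2]
      simp
    simp only [h3]

theorem back {K' : ℕ} {τ : (Fin (K' + 1) → B) → (Fin (K' + 1) → M) → Prop}
    (h : Tau (K' + 1) G τ) (hK : 2 * N + 1 ≤ K') (F : Finset (M × B))
    (hF : Gd τ (F : Set (M × B))) (b : B) : ∃ a, Gd τ (insert (a, b) (F : Set (M × B))) := by
  classical
  -- directedness
  have hdir : ∀ P1 P2 : Finset (M × B), P1 ⊆ F → P2 ⊆ F → P1.card ≤ N → P2.card ≤ N →
      ∃ P3 : Finset (M × B), P3 ⊆ F ∧ P3.card ≤ N ∧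
        ∀ a, Gd τ (insert (a, b) (P3 : Set (M × B))) →
          Gd τ (insert (a, b) (P1 : Set (M × B))) ∧ Gd τ (insert (a, b) (P2 : Set (M × B))) := by
    intro P1 P2 h1 h2 c1 c2
    have hU : P1 ∪ P2 ⊆ F := Finset.union_subset h1 h2
    have hUc : (P1 ∪ P2).card ≤ K' := (Finset.card_union_le _ _).trans (by omega)
    obtain ⟨a0, ha0⟩ := h.small_b (by omega) (P1 ∪ P2) (hF.mono (Finset.coe_subset.2 hU)) hUc b
    obtain ⟨F', hF', hFc, hiso⟩ := hN ((P1 ∪ P2).image Prod.fst) a0
    have hsec : ∀ f : M, ∃ p : M × B, f ∈ F' → p ∈ P1 ∪ P2 ∧ p.1 = f := by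
      intro f
      by_cases hf : f ∈ F'
      · obtain ⟨p, hp, hpf⟩ := Finset.mem_image.1 (hF' hf)
        exact ⟨p, fun _ => ⟨hp, hpf⟩⟩
      · exact ⟨(a0, b), fun h' => absurd h' hf⟩
    choose s hs using hsec
    have hPU : F'.image s ⊆ P1 ∪ P2 := by
      intro p hp
      obtain ⟨f, hf, rfl⟩ := Finset.mem_image.1 hp
      exact (hs f hf).1
    have hPc : (F'.image s).card ≤ N := (Finset.card_image_le).trans hFc
    refine ⟨F'.image s, hPU.trans hU, hPc, ?_⟩
    intro a ha
    have ha0' : Gd τ (insert (a0, b) ((F'.image s : Finset (M × B)) : Set (M × B))) :=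
      ha0.mono (Set.insert_subset_insert (Finset.coe_subset.2 hPU))
    obtain ⟨g, hg, hgP, hga⟩ := h.conj (F'.image s) (by omega) ha0' ha
    obtain ⟨k, hk, hkF, hka⟩ := hiso g hg (by
      intro f hf
      have := hgP (s f) (Finset.mem_image.2 ⟨f, hf, rfl⟩)
      rw [(hs f hf).2] at this
      exact this)
    rw [hga] at hka
    have h3 := h.gd_move ha0 hk
    have h4 : insert (a, b) ((P1 ∪ P2 : Finset (M × B)) : Set (M × B)) ⊆
        (fun p : M × B => (k p.1, p.2)) '' (insert (a0, b) ((P1 ∪ P2 : Finset (M × B)) :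
          Set (M × B))) := by
      intro p hp
      rcases hp with hp | hp
      · refine ⟨(a0, b), Set.mem_insert _ _, ?_⟩
        rw [hp, ← hka]
      · refine ⟨p, Set.mem_insert_of_mem _ hp, ?_⟩
        have h5 := hkF p.1 (Finset.mem_image.2 ⟨p, Finset.mem_coe.1 hp, rfl⟩)
        simp only [h5]
    have h5 := h3.mono h4
    exact ⟨h5.mono (Set.insert_subset_insert (Finset.coe_subset.2 Finset.subset_union_left)),
      h5.mono (Set.insert_subset_insert (Finset.coe_subset.2 Finset.subset_union_right))⟩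
  -- a top element
  have htop : ∀ 𝒮 : Finset (Finset (M × B)), (∀ P ∈ 𝒮, P ⊆ F ∧ P.card ≤ N) →
      ∃ P3 : Finset (M × B), P3 ⊆ F ∧ P3.card ≤ N ∧
        ∀ a, Gd τ (insert (a, b) (P3 : Set (M × B))) →
          ∀ P ∈ 𝒮, Gd τ (insert (a, b) (P : Set (M × B))) := by
    intro 𝒮
    induction 𝒮 using Finset.induction_on with
    | empty => exact fun _ => ⟨∅, by simp, by simp, by simp⟩
    | insert P 𝒮 _ ih =>
      intro hall
      obtain ⟨P3, h1, h2, h3⟩ := ih (fun Q hQ => hall Q (Finset.mem_insert_of_mem hQ))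
      obtain ⟨hP1, hP2⟩ := hall P (Finset.mem_insert_self _ _)
      obtain ⟨P4, k1, k2, k3⟩ := hdir P3 P h1 hP1 h2 hP2
      refine ⟨P4, k1, k2, fun a ha Q hQ => ?_⟩
      obtain ⟨e1, e2⟩ := k3 a ha
      rcases Finset.mem_insert.1 hQ with h4 | h4
      · rw [h4]; exact e2
      · exact h3 a e1 Q h4
  obtain ⟨P3, h1, h2, h3⟩ := htop (F.powerset.filter (fun P => P.card ≤ N)) (by
    intro P hP
    obtain ⟨e1, e2⟩ := Finset.mem_filter.1 hP
    exact ⟨Finset.mem_powerset.1 e1, e2⟩)
  obtain ⟨a, ha⟩ := h.small_b (by omega) P3 (hF.mono (Finset.coe_subset.2 h1)) (by omega) b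
  refine ⟨a, of_small hN h F hF ?_⟩
  intro P hP hPc
  exact h3 a ha P (Finset.mem_filter.2 ⟨Finset.mem_powerset.2 hP, hPc⟩)

end Tau

end Pool.Agent.FinWidth
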