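import Pool.Agent.FinWidth.RN4
import Pool.Agent.FinWidth.EF

/-!
# Finite axiomatisability from the bounded isolation property
-/

set_option autoImplicit false

open FirstOrder FirstOrder.Language Cardinal

namespace Pool.Agent.FinWidth

/-- Universal closure. -/
noncomputable def allF {n : ℕ} (χ : FirstOrder.Language.order.Formula (Fin n)) :
    FirstOrder.Language.order.Sentence :=
  (χ.relabel (Sum.inr : Fin n → Empty ⊕ Fin n)).iAlls (Fin n)

theorem realize_allF {n : ℕ} (χ : FirstOrder.Language.order.Formula (Fin n)) (B : Type)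
    [FirstOrder.Language.order.Structure B] :
    B ⊨ allF χ ↔ ∀ x : Fin n → B, χ.Realize x := by
  have key : ∀ x : Fin n → B, (fun a => Sum.elim (default : Empty → B) x a) ∘
      (Sum.inr : Fin n → Empty ⊕ Fin n) = x := fun x => funext fun i => rfl
  simp only [allF, Sentence.Realize, Formula.realize_iAlls, Formula.realize_relabel, key]

/-- Quantification of the variable `i`, which is renamed. -/
noncomputable def exU {n : ℕ} (i : Fin n) (χ : FirstOrder.Language.order.Formula (Fin n)) :
    FirstOrder.Language.order.Formula (Fin n) :=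
  (χ.relabel (Function.update Sum.inl i (Sum.inr ()) : Fin n → Fin n ⊕ Unit)).iExs Unit

theorem realize_exU {n : ℕ} (i : Fin n) (χ : FirstOrder.Language.order.Formula (Fin n)) {B : Type}
    [FirstOrder.Language.order.Structure B] (x : Fin n → B) :
    (exU i χ).Realize x ↔ ∃ y, χ.Realize (Function.update x i y) := by
  have key : ∀ f : Unit → B,
      (Sum.elim x f ∘ (Function.update Sum.inl i (Sum.inr ()) : Fin n → Fin n ⊕ Unit)) =
        Function.update x i (f ()) := by
    intro f
    funext j
    by_cases hj : j = i
    · subst hj; simp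
    · simp [Function.update_of_ne hj]
  simp only [exU, Formula.realize_iExs, Formula.realize_relabel, key]
  constructor
  · rintro ⟨f, hf⟩
    exact ⟨f (), hf⟩
  · rintro ⟨a, ha⟩
    exact ⟨fun _ => a, ha⟩

/-- The formula `x_i ≤ x_j`. -/
noncomputable def leF {n : ℕ} (i j : Fin n) : FirstOrder.Language.order.Formula (Fin n) :=
  (leSymb : FirstOrder.Language.order.Relations 2).formula₂ (Term.var i) (Term.var j)

theorem realize_leF {n : ℕ} (i j : Fin n) {B : Type}
    [FirstOrder.Language.order.Structure B] (x : Fin n → B) :
    (leF i j).Realize x ↔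
      Structure.RelMap (leSymb : FirstOrder.Language.order.Relations 2) ![x i, x j] := by
  simp [leF, Formula.realize_rel₂]

/-- The formula `x_i = x_j`. -/
noncomputable def eqF {n : ℕ} (i j : Fin n) : FirstOrder.Language.order.Formula (Fin n) :=
  Term.equal (Term.var i) (Term.var j)

theorem realize_eqF {n : ℕ} (i j : Fin n) {B : Type}
    [FirstOrder.Language.order.Structure B] (x : Fin n → B) :
    (eqF i j).Realize x ↔ x i = x j := by
  simp [eqF, Formula.realize_equal]

/-- The finite family of sentences. -/
def Fam {n : ℕ} (R : Set (FirstOrder.Language.order.Formula (Fin n))) [Finite R] :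
    Set FirstOrder.Language.order.Sentence :=
  {allF (Formula.iSup (fun θ : R => θ.1))} ∪
  Set.range (fun p : R × R × (Fin n → Fin n) => allF (p.1.1.imp (p.2.1.1.relabel p.2.2))) ∪
  Set.range (fun p : R × R => allF (p.1.1.imp p.2.1.not)) ∪
  Set.range (fun p : R × R × Fin n => allF (p.1.1.imp (exU p.2.2 p.2.1.1))) ∪
  Set.range (fun p : R × Fin n × Fin n => allF (p.1.1.imp (leF p.2.1 p.2.2))) ∪
  Set.range (fun p : R × Fin n × Fin n => allF (p.1.1.imp (leF p.2.1 p.2.2).not)) ∪
  Set.range (fun p : R × Fin n × Fin n => allF (p.1.1.imp (eqF p.2.1 p.2.2))) ∪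
  Set.range (fun p : R × Fin n × Fin n => allF (p.1.1.imp (eqF p.2.1 p.2.2).not))

theorem Fam.finite {n : ℕ} (R : Set (FirstOrder.Language.order.Formula (Fin n))) [Finite R] :
    (Fam R).Finite := by
  unfold Fam
  refine Set.Finite.union (Set.Finite.union (Set.Finite.union (Set.Finite.union (Set.Finite.union
    (Set.Finite.union (Set.Finite.union (Set.finite_singleton _) ?_) ?_) ?_) ?_) ?_) ?_) ?_ <;>
  exact Set.finite_range _

section Transfer

variable {M B : Type} [FirstOrder.Language.order.Structure M]
  [FirstOrder.Language.order.Structure B]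

/-- The induction for formulas. -/
theorem transfer {K N : ℕ} {G : Subgroup (Equiv.Perm M)}
    {τ : (Fin (K + 1) → B) → (Fin (K + 1) → M) → Prop}
    (hN : ∀ (F : Finset M) (a : M), ∃ F' : Finset M, F' ⊆ F ∧ F'.card ≤ N ∧
      ∀ g ∈ G, (∀ f ∈ F', g f = f) → ∃ h ∈ G, (∀ f ∈ F, h f = f) ∧ h a = g a)
    (h : Tau (K + 1) G τ) (hK : 2 * N + 1 ≤ K) [Nonempty B]
    (hle : ∀ b v i j, τ b v →
      (Structure.RelMap (leSymb : FirstOrder.Language.order.Relations 2) ![v i, v j] ↔
        Structure.RelMap (leSymb : FirstOrder.Language.order.Relations 2) ![b i, b j]))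
    (heq : ∀ b v i j, τ b v → (v i = v j ↔ b i = b j)) :
    ∀ {n : ℕ} (φ : FirstOrder.Language.order.BoundedFormula Empty n) (F : Finset (M × B)),
      Gd τ (F : Set (M × B)) → ∀ (xs : Fin n → M) (ys : Fin n → B),
      (∀ i, (xs i, ys i) ∈ F) → (φ.Realize default xs ↔ φ.Realize default ys) := by
  classical
  -- equality and order for pairs of `F`
  have hpair : ∀ (F : Finset (M × B)), Gd τ (F : Set (M × B)) → ∀ p ∈ F, ∀ q ∈ F,
      (p.1 = q.1 ↔ p.2 = q.2) ∧
      (Structure.RelMap (leSymb : FirstOrder.Language.order.Relations 2) ![p.1, q.1] ↔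
        Structure.RelMap (leSymb : FirstOrder.Language.order.Relations 2) ![p.2, q.2]) := by
    intro F hF p hp q hq
    have hne : (Fin.last K) ≠ 0 := by
      intro h0
      have := congrArg Fin.val h0
      simp only [Fin.val_last, Fin.val_zero] at this
      omega
    let t : Fin (K + 1) → M × B := Function.update (fun _ => p) (Fin.last K) q
    have ht0 : t 0 = p := by
      simp only [t]
      rw [Function.update_of_ne hne.symm]
    have ht1 : t (Fin.last K) = q := by simp [t]
    have ht : ∀ i, t i ∈ (F : Set (M × B)) := by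
      intro i
      by_cases hi : i = Fin.last K
      · rw [hi, ht1]; exact Finset.mem_coe.2 hq
      · simp only [t]
        rw [Function.update_of_ne hi]; exact Finset.mem_coe.2 hp
    have h1 := hF t ht
    have h2 := heq _ _ 0 (Fin.last K) h1
    have h3 := hle _ _ 0 (Fin.last K) h1
    simp only [Function.comp_apply, ht0, ht1] at h2 h3
    exact ⟨h2, h3⟩
  -- terms are variables
  have hterm : ∀ {n : ℕ} (t : FirstOrder.Language.order.Term (Empty ⊕ Fin n)),
      ∃ i : Fin n, t = Term.var (Sum.inr i) := by
    intro n t
    cases t with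
    | var x =>
      rcases x with x | i
      · exact x.elim
      · exact ⟨i, rfl⟩
    | func f _ => exact isEmptyElim f
  intro n φ
  induction φ with
  | falsum => intro F _ xs ys _; exact Iff.rfl
  | equal t₁ t₂ =>
    intro F hF xs ys hxy
    obtain ⟨i, rfl⟩ := hterm t₁
    obtain ⟨j, rfl⟩ := hterm t₂
    have := (hpair F hF _ (hxy i) _ (hxy j)).1
    simpa [BoundedFormula.Realize] using this
  | rel R ts =>
    intro F hF xs ys hxy
    cases R
    obtain ⟨i, hi⟩ := hterm (ts 0)
    obtain ⟨j, hj⟩ := hterm (ts 1)
    have h1 := (hpair F hF _ (hxy i) _ (hxy j)).2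
    simp only [BoundedFormula.Realize]
    have e1 : ∀ {C : Type} [FirstOrder.Language.order.Structure C] (zs : Fin _ → C),
        (fun k => (ts k).realize (Sum.elim (default : Empty → C) zs)) = ![zs i, zs j] := by
      intro C _ zs
      funext k
      refine Fin.cases ?_ (fun k => ?_) k
      · simp [hi]
      · refine Fin.cases ?_ (fun k => k.elim0) k
        have : (Fin.succ 0 : Fin 2) = 1 := rfl
        rw [this, hj]
        simp
    rw [e1, e1]
    exact h1
  | imp φ ψ ih1 ih2 =>
    intro F hF xs ys hxy
    rw [BoundedFormula.realize_imp, BoundedFormula.realize_imp, ih1 F hF xs ys hxy,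
      ih2 F hF xs ys hxy]
  | all φ ih =>
    intro F hF xs ys hxy
    rw [BoundedFormula.realize_all, BoundedFormula.realize_all]
    have hsn : ∀ a b, ∀ i, ((Fin.snoc xs a : Fin (_ + 1) → M) i, (Fin.snoc ys b : Fin (_ + 1) → B) i) ∈
        insert (a, b) F := by
      intro a b i
      refine Fin.lastCases ?_ (fun i => ?_) i
      · simp
      · simp only [Fin.snoc_castSucc]
        exact Finset.mem_insert_of_mem (hxy i)
    constructor
    · intro hall b
      obtain ⟨a, ha⟩ := h.back hN hK F hF b
      rw [← Finset.coe_insert] at ha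
      exact (ih _ ha (Fin.snoc xs a) (Fin.snoc ys b) (hsn a b)).1 (hall a)
    · intro hall a
      obtain ⟨b, hb⟩ := h.forth hN hK F hF a
      rw [← Finset.coe_insert] at hb
      exact (ih _ hb (Fin.snoc xs a) (Fin.snoc ys b) (hsn a b)).2 (hall b)

end Transfer

/-- Automorphisms as permutations. -/
def AutG (M : Type) [FirstOrder.Language.order.Structure M] : Subgroup (Equiv.Perm M) where
  carrier := {g | ∀ x y, Structure.RelMap (leSymb : FirstOrder.Language.order.Relations 2)
    ![g x, g y] ↔ Structure.RelMap (leSymb : FirstOrder.Language.order.Relations 2) ![x, y]}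
  mul_mem' := by
    intro a b ha hb x y
    rw [Equiv.Perm.mul_apply, Equiv.Perm.mul_apply, ha, hb]
  one_mem' := fun x y => Iff.rfl
  inv_mem' := by
    intro a ha x y
    have := ha (a⁻¹ x) (a⁻¹ y)
    rw [show a (a⁻¹ x) = x by simp, show a (a⁻¹ y) = y by simp] at this
    exact this.symm

theorem autG_of_equiv {M : Type} [FirstOrder.Language.order.Structure M]
    (g : M ≃[FirstOrder.Language.order] M) : g.toEquiv ∈ AutG M := by
  intro x y
  have := g.map_rel' (leSymb : FirstOrder.Language.order.Relations 2) ![x, y]
  have e : (g.toEquiv ∘ ![x, y]) = ![g.toEquiv x, g.toEquiv y] := by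
    funext i
    refine Fin.cases rfl (fun i => ?_) i
    refine Fin.cases rfl (fun i => i.elim0) i
  rw [← e]
  exact this

/-- Automorphisms as structure isomorphisms. -/
def equivOfAutG {M : Type} [FirstOrder.Language.order.Structure M] (g : Equiv.Perm M)
    (hg : g ∈ AutG M) : M ≃[FirstOrder.Language.order] M :=
  { g with
    map_fun' := fun {n} f => isEmptyElim f
    map_rel' := by
      intro n R x
      cases R
      have := hg (x 0) (x 1)
      have e : ∀ y : Fin 2 → M, ![y 0, y 1] = y := by
        intro y
        funext i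
        refine Fin.cases rfl (fun i => ?_) i
        refine Fin.cases rfl (fun i => i.elim0) i
      have e1 := e x
      have e2 := e (g ∘ x)
      simp only [Function.comp_apply] at e2
      rw [e1, e2] at this
      exact this }

theorem st_iff {M : Type} [FirstOrder.Language.order.Structure M] [Countable M] [Nonempty M]
    (hcat : Cardinal.Categorical Cardinal.aleph0.{0} (FirstOrder.Language.order.completeTheory M))
    {n : ℕ} (v u : Fin n → M) :
    ST FirstOrder.Language.order v u ↔ ∃ g ∈ AutG M, ∀ i, g (v i) = u i := by
  constructor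
  · intro h
    obtain ⟨g, hg⟩ := homog (fun n v => all_atomic hcat n v) v u h
    exact ⟨g.toEquiv, autG_of_equiv g, hg⟩
  · rintro ⟨g, hg, hgv⟩
    have h1 := ST.of_equiv (equivOfAutG g hg) v
    have h2 : (equivOfAutG g hg) ∘ v = u := funext hgv
    rwa [h2] at h1

/-- The main step: finite axiomatisability. -/
theorem finax {M : Type} [FirstOrder.Language.order.Structure M] [Countable M] [Nonempty M]
    (hcat : Cardinal.Categorical Cardinal.aleph0.{0} (FirstOrder.Language.order.completeTheory M))
    (hbip : BIP (AutG M)) :
    ∃ T0 : Finset FirstOrder.Language.order.Sentence,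
      (↑T0 : Set FirstOrder.Language.order.Sentence) ⊆ FirstOrder.Language.order.completeTheory M ∧
      ∀ φ ∈ FirstOrder.Language.order.completeTheory M,
        (↑T0 : FirstOrder.Language.order.Theory) ⊨ᵇ φ := by
  classical
  obtain ⟨N, hN⟩ := hbip
  obtain ⟨Θ, hfin, h1, h2⟩ := ryll hcat (2 * N + 1 + 1)
  have hfR : Finite (Set.range Θ) := hfin
  have hF := (Fam.finite (Set.range Θ)).inter_of_left
    {φ : FirstOrder.Language.order.Sentence | M ⊨ φ}
  refine ⟨hF.toFinset, ?_, ?_⟩
  · intro φ hφ
    rw [Finset.mem_coe, Set.Finite.mem_toFinset] at hφ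
    exact hφ.2
  · intro φ hφ
    rw [Theory.models_sentence_iff]
    intro B
    have hB : ∀ ψ ∈ Fam (Set.range Θ), M ⊨ ψ → (B : Type) ⊨ ψ := by
      intro ψ hψ hMψ
      exact B.is_model.realize_of_mem ψ (by
        rw [Finset.mem_coe, Set.Finite.mem_toFinset]
        exact ⟨hψ, hMψ⟩)
    have hst : ∀ v u : Fin (2 * N + 1 + 1) → M, (Θ v).Realize u →
        ∃ g ∈ AutG M, ∀ i, g (v i) = u i := fun v u h => (st_iff hcat v u).1 ((h1 v u).1 h)
    have hst' : ∀ v u : Fin (2 * N + 1 + 1) → M, (∃ g ∈ AutG M, ∀ i, g (v i) = u i) →
        (Θ v).Realize u := fun v u h => (h1 v u).2 ((st_iff hcat v u).2 h)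
    have himp : ∀ (v : Fin (2 * N + 1 + 1) → M)
        (χ : FirstOrder.Language.order.Formula (Fin (2 * N + 1 + 1))),
        allF ((Θ v).imp χ) ∈ Fam (Set.range Θ) →
        (∀ u : Fin (2 * N + 1 + 1) → M, (Θ v).Realize u → χ.Realize u) →
        ∀ b : Fin (2 * N + 1 + 1) → (B : Type), (Θ v).Realize b → χ.Realize b := by
      intro v χ hmem hall b hb
      have h3 : M ⊨ allF ((Θ v).imp χ) := by
        rw [realize_allF]
        intro x
        rw [Formula.realize_imp]
        exact hall x
      have h4 := hB _ hmem h3
      rw [realize_allF] at h4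
      have h5 := h4 b
      rw [Formula.realize_imp] at h5
      exact h5 hb
    have hTau : Tau (2 * N + 1 + 1) (AutG M)
        (fun (b : Fin (2 * N + 1 + 1) → (B : Type)) v => (Θ v).Realize b) := by
      refine ⟨?_, ?_, ?_, ?_, ?_⟩
      · intro b
        have h3 : M ⊨ allF (Formula.iSup (fun θ : Set.range Θ => θ.1)) := by
          rw [realize_allF]
          intro x
          rw [Formula.realize_iSup]
          exact ⟨⟨Θ x, x, rfl⟩, hst' x x ⟨1, (AutG M).one_mem, fun i => rfl⟩⟩
        have h4 := hB _ (by
          simp only [Fam, Set.mem_union]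
          iterate 7 left
          exact rfl) h3
        rw [realize_allF] at h4
        have h5 := h4 b
        rw [Formula.realize_iSup] at h5
        obtain ⟨⟨_, v, rfl⟩, hv⟩ := h5
        exact ⟨v, hv⟩
      · intro b v s hb
        have h3 := himp v ((Θ (v ∘ s)).relabel s) (by
          simp only [Fam, Set.mem_union]
          iterate 6 left
          right
          exact ⟨(⟨Θ v, v, rfl⟩, ⟨Θ (v ∘ s), v ∘ s, rfl⟩, s), rfl⟩) (by
          intro u hu
          rw [Formula.realize_relabel]
          obtain ⟨g, hg, hgv⟩ := hst v u hu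
          exact hst' _ _ ⟨g, hg, fun i => hgv (s i)⟩) b hb
        rw [Formula.realize_relabel] at h3
        exact h3
      · intro b v v' hb hb'
        by_contra hn
        have h3 := himp v (Θ v').not (by
          simp only [Fam, Set.mem_union]
          iterate 5 left
          right
          exact ⟨(⟨Θ v, v, rfl⟩, ⟨Θ v', v', rfl⟩), rfl⟩) (by
          intro u hu
          rw [Formula.realize_not]
          intro hu'
          obtain ⟨g, hg, hgv⟩ := hst v u hu
          obtain ⟨g', hg', hgv'⟩ := hst v' u hu'
          apply hn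
          refine ⟨g'⁻¹ * g, (AutG M).mul_mem ((AutG M).inv_mem hg') hg, fun i => ?_⟩
          rw [Equiv.Perm.mul_apply, hgv, ← hgv']
          simp) b hb
        rw [Formula.realize_not] at h3
        exact h3 hb'
      · intro b v g hg hb
        have : Θ (g ∘ v) = Θ v := (h2 v (g ∘ v) ((st_iff hcat v _).2 ⟨g, hg, fun i => rfl⟩)).symm
        simp only [this]
        exact hb
      · intro b v i a hb
        have h3 := himp v (exU i (Θ (Function.update v i a))) (by
          simp only [Fam, Set.mem_union]
          iterate 4 left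
          right
          exact ⟨(⟨Θ v, v, rfl⟩, ⟨Θ (Function.update v i a), _, rfl⟩, i), rfl⟩) (by
          intro u hu
          rw [realize_exU]
          obtain ⟨g, hg, hgv⟩ := hst v u hu
          refine ⟨g a, hst' _ _ ⟨g, hg, fun j => ?_⟩⟩
          by_cases hj : j = i
          · subst hj; simp
          · rw [Function.update_of_ne hj, Function.update_of_ne hj, hgv]) b hb
        rw [realize_exU] at h3
        exact h3
    have hle : ∀ (b : Fin (2 * N + 1 + 1) → (B : Type)) v i j, (Θ v).Realize b →
        (Structure.RelMap (leSymb : FirstOrder.Language.order.Relations 2) ![v i, v j] ↔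
        Structure.RelMap (leSymb : FirstOrder.Language.order.Relations 2) ![b i, b j]) := by
      intro b v i j hb
      constructor
      · intro hv
        have h3 := himp v (leF i j) (by
          simp only [Fam, Set.mem_union]
          iterate 3 left
          right
          exact ⟨(⟨Θ v, v, rfl⟩, i, j), rfl⟩) (by
          intro u hu
          rw [realize_leF]
          obtain ⟨g, hg, hgv⟩ := hst v u hu
          rw [← hgv, ← hgv]
          exact (hg _ _).2 hv) b hb
        rwa [realize_leF] at h3
      · intro hbb
        by_contra hv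
        have h3 := himp v (leF i j).not (by
          simp only [Fam, Set.mem_union]
          iterate 2 left
          right
          exact ⟨(⟨Θ v, v, rfl⟩, i, j), rfl⟩) (by
          intro u hu
          rw [Formula.realize_not, realize_leF]
          obtain ⟨g, hg, hgv⟩ := hst v u hu
          rw [← hgv, ← hgv]
          intro h4
          exact hv ((hg _ _).1 h4)) b hb
        rw [Formula.realize_not, realize_leF] at h3
        exact h3 hbb
    have heq : ∀ (b : Fin (2 * N + 1 + 1) → (B : Type)) v i j, (Θ v).Realize b →
        (v i = v j ↔ b i = b j) := by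
      intro b v i j hb
      constructor
      · intro hv
        have h3 := himp v (eqF i j) (by
          simp only [Fam, Set.mem_union]
          iterate 1 left
          right
          exact ⟨(⟨Θ v, v, rfl⟩, i, j), rfl⟩) (by
          intro u hu
          rw [realize_eqF]
          obtain ⟨g, hg, hgv⟩ := hst v u hu
          rw [← hgv, ← hgv, hv]) b hb
        rwa [realize_eqF] at h3
      · intro hbb
        by_contra hv
        have h3 := himp v (eqF i j).not (by
          simp only [Fam, Set.mem_union]
          right
          exact ⟨(⟨Θ v, v, rfl⟩, i, j), rfl⟩) (by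
          intro u hu
          rw [Formula.realize_not, realize_eqF]
          obtain ⟨g, hg, hgv⟩ := hst v u hu
          rw [← hgv, ← hgv]
          intro h4
          exact hv (g.injective h4)) b hb
        rw [Formula.realize_not, realize_eqF] at h3
        exact h3 hbb
    have hfinal := transfer hN hTau le_rfl hle heq φ ∅ (by
      intro t ht
      exact absurd (ht 0) (by simp)) default default (fun i => i.elim0)
    exact hfinal.1 hφ

end Pool.Agent.FinWidth
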