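import Pool.Agent.FinWidth.Classes

/-!
# Passing to a subgroup of finite index
-/

set_option autoImplicit false

namespace Pool.Agent.FinWidth

open Equiv

variable {A : Type} {H G : Subgroup (Perm A)} {le : A → A → Prop} {X : Set A}

/-- `H` has finite index in `G`, in terms of coset representatives. -/
def FI (H G : Subgroup (Perm A)) : Prop :=
  H ≤ G ∧ ∃ C : Finset (Perm A), (∀ c ∈ C, c ∈ G) ∧ ∀ g ∈ G, ∃ c ∈ C, c⁻¹ * g ∈ H

/-- The order restricted to the orbits of `H`. -/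
def leH (H : Subgroup (Perm A)) (le : A → A → Prop) (x y : A) : Prop := le x y ∧ SO H x y

theorem SO.mono {x y : A} (hHG : H ≤ G) (h : SO H x y) : SO G x y := by
  obtain ⟨g, hg, rfl⟩ := h
  exact ⟨g, hHG hg, rfl⟩

theorem FI.exists_pow (hFI : FI H G) {g : Perm A} (hg : g ∈ G) : ∃ n : ℕ, 0 < n ∧ g ^ n ∈ H := by
  classical
  obtain ⟨hHG, C, hC, hC'⟩ := hFI
  have : ∀ n : ℕ, ∃ c : C, (c : Perm A)⁻¹ * g ^ n ∈ H := by
    intro n
    obtain ⟨c, hc, h⟩ := hC' (g ^ n) (G.pow_mem hg n)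
    exact ⟨⟨c, hc⟩, h⟩
  choose f hf using this
  obtain ⟨m, n, hmn, hfmn⟩ := Finite.exists_ne_map_eq_of_infinite f
  wlog hlt : m < n generalizing m n
  · exact this n m (Ne.symm hmn) hfmn.symm (lt_of_le_of_ne (not_lt.1 hlt) (Ne.symm hmn))
  refine ⟨n - m, by omega, ?_⟩
  have h1 := H.mul_mem (H.inv_mem (hf m)) (hf n)
  rw [hfmn] at h1
  have h2 : ((f n : Perm A)⁻¹ * g ^ m)⁻¹ * ((f n : Perm A)⁻¹ * g ^ n) = g ^ (n - m) := by
    have h3 : g ^ n = g ^ m * g ^ (n - m) := by rw [← pow_add]; congr 1; omega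
    rw [h3]
    group
  rwa [h2] at h1

theorem FI.pairs (h : Sys G le) (hFI : FI H G) :
    ∃ T : Finset (A × A), ∀ x y, ∃ t ∈ T, ∃ g ∈ H, g t.1 = x ∧ g t.2 = y := by
  classical
  obtain ⟨hHG, C, hC, hC'⟩ := hFI
  obtain ⟨T, hT⟩ := h.pairs
  refine ⟨(C ×ˢ T).image (fun p => (p.1⁻¹ p.2.1, p.1⁻¹ p.2.2)), fun x y => ?_⟩
  obtain ⟨t, ht, g, hg, h1, h2⟩ := hT x y
  obtain ⟨c, hc, hcg⟩ := hC' g⁻¹ (G.inv_mem hg)
  refine ⟨(c⁻¹ t.1, c⁻¹ t.2), Finset.mem_image.2 ⟨(c, t), Finset.mem_product.2 ⟨hc, ht⟩, rfl⟩,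
    (c⁻¹ * g⁻¹)⁻¹, H.inv_mem hcg, ?_, ?_⟩
  · simp only [mul_inv_rev, inv_inv, Perm.mul_apply]
    rw [← h1]; simp
  · simp only [mul_inv_rev, inv_inv, Perm.mul_apply]
    rw [← h2]; simp

theorem leH_mono_of (R : A → A → Prop) (hHG : H ≤ G) (hR : Mono G le R) :
    Mono H (leH H le) R where
  inv := fun g hg => hR.inv g (hHG hg)
  mono := fun x' x y y' h1 h2 h3 => hR.mono x' x y y' h1.1 h2 h3.1

/-- The system for a subgroup of finite index, provided the permutations in `G` preserving the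
orbits of `H` lie in `H`. -/
theorem FI.sys (h : Sys G le) (hFI : FI H G)
    (hH : ∀ g ∈ G, (∀ x, SO H x (g x)) → g ∈ H) : Sys H (leH H le) where
  refl := fun x => ⟨h.refl x, SO.refl H x⟩
  trans := fun x y z h1 h2 => ⟨h.trans _ _ _ h1.1 h2.1, h1.2.trans h2.2⟩
  antisymm := fun x y h1 h2 => h.antisymm _ _ h1.1 h2.1
  inv := by
    intro g hg x y h1
    refine ⟨h.inv g (hFI.1 hg) _ _ h1.1, ?_⟩
    exact ((SO.of_mem hg x).symm.trans h1.2).trans (SO.of_mem hg y)
  same := fun x y h1 => h1.2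
  pairs := hFI.pairs h
  mc := by
    intro g h1 h2
    exact hH g (h.mc g (fun x => (h1 x).mono hFI.1)
      (fun R hR => h2 R (leH_mono_of R hFI.1 hR))) h1

theorem orb_leH_wle {x : A} {n : ℕ} (hHG : H ≤ G) (hw : WLE le (orb G x) n) :
    WLE (leH H le) (orb H x) n := by
  intro F h1 h2
  refine hw F (fun y hy => (h1 y hy).mono hHG) (fun y hy z hz hyz => h2 y hy z hz ⟨hyz, ?_⟩)
  exact (SO.symm (h1 y hy)).trans (h1 z hz)

/-- L4 -/
theorem FI.cc (h : Sys G le) (hFI : FI H G) {x : A} (hw : ∃ w, WLE le (orb G x) w)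
    (hcc : ∀ y ∈ orb G x, ∀ z ∈ orb G x, CC le (orb G x) y z) :
    ∀ y ∈ orb H x, ∀ z ∈ orb H x, CC (leH H le) (orb H x) y z := by
  classical
  intro y hy z hz
  have htr := h.tr_orb hw
  obtain ⟨hHG, C, hC, hC'⟩ := id hFI
  have hyG : y ∈ orb G x := SO.mono hHG hy
  have hzG : z ∈ orb G x := SO.mono hHG hz
  by_cases hnt : ∃ a ∈ orb G x, ∃ b ∈ orb G x, a ≠ b
  · obtain ⟨u1, hu1, -, hd1⟩ := htr.dichotomy hcc hyG
    obtain ⟨u2, hu2, -, hd2⟩ := htr.dichotomy hcc hzG
    obtain ⟨u, hu, h1, h2⟩ := hcc u1 hu1 u2 hu2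
    have hex : ∃ t ∈ orb H x, ¬ le t u := by
      by_contra hcon
      push Not at hcon
      obtain ⟨v, hv, hvC⟩ := htr.finset_ub hcc ⟨x, self_mem_orb G x⟩ (C.image (fun c => c u)) (by
        intro a ha
        obtain ⟨c, hc, rfl⟩ := Finset.mem_image.1 ha
        exact (h.orb_iff (hC c hc) x u).2 hu)
      obtain ⟨s, hs, hvs, hvs'⟩ := htr.no_max hcc hnt hv
      obtain ⟨g, hg, hgs⟩ := hs
      obtain ⟨c, hc, hcg⟩ := hC' g hg
      have h3 := hcon ((c⁻¹ * g) x) ⟨_, hcg, rfl⟩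
      have h4 := h.inv c (hC c hc) _ _ h3
      have h5 : c ((c⁻¹ * g) x) = s := by rw [← hgs]; simp
      rw [h5] at h4
      have h6 : le s v := h.trans _ _ _ h4 (hvC _ (Finset.mem_image.2 ⟨c, hc, rfl⟩))
      exact hvs' (h.antisymm _ _ hvs h6)
    obtain ⟨t, ht, htu⟩ := hex
    have htG : t ∈ orb G x := SO.mono hHG ht
    refine ⟨t, ht, ⟨?_, (SO.symm hy).trans ht⟩, ⟨?_, (SO.symm hz).trans ht⟩⟩
    · rcases hd1 t htG with h3 | h3
      · exact h3.1
      · exact absurd (h.trans _ _ _ h3 h1) htu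
    · rcases hd2 t htG with h3 | h3
      · exact h3.1
      · exact absurd (h.trans _ _ _ h3 h2) htu
  · push Not at hnt
    have : y = z := hnt y hyG z hzG
    subst this
    exact ⟨y, hy, ⟨h.refl _, SO.refl _ _⟩, ⟨h.refl _, SO.refl _ _⟩⟩

/-- An invariant strong cut for a subgroup of finite index of the stabiliser is invariant. -/
theorem FI.inv_cut (h : Sys G le) (hFI : FI H G) {x : A} {D : Set A}
    (hD : SCut le (orb G x) D) (hH : ∀ g ∈ H, g x = x → ∀ y ∈ D, g y ∈ D) :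
    ∀ g ∈ G, g x = x → ∀ y ∈ D, g y ∈ D := by
  intro g hg hgx y hy
  obtain ⟨n, hn, hgn⟩ := hFI.exists_pow hg
  have hpow : ∀ k : ℕ, (g ^ k) x = x := by
    intro k
    induction k with
    | zero => simp
    | succ k ih => rw [pow_succ, Perm.mul_apply, hgx, ih]
  have hinvx : g⁻¹ x = x := by
    have : g⁻¹ (g x) = x := by simp
    rwa [hgx] at this
  -- iterates of the image
  rcases (h.scut_image hg hD).total h.antisymm hD with h1 | h1
  · exact h1 ⟨y, hy, rfl⟩
  · -- D ⊆ g '' D, hence D ⊆ g^k '' D for all k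
    have h2 : ∀ k : ℕ, ∀ z ∈ D, (g⁻¹ ^ k) z ∈ D := by
      intro k
      induction k with
      | zero => intro z hz; simpa using hz
      | succ k ih =>
        intro z hz
        obtain ⟨w, hw, hw'⟩ := h1 (ih z hz)
        rw [pow_succ', Perm.mul_apply, ← hw']
        simpa using hw
    have h3 : g y = (g ^ n) ((g⁻¹ ^ (n - 1)) y) := by
      have h4 : g ^ n * g⁻¹ ^ (n - 1) = g := by
        have : n = 1 + (n - 1) := by omega
        conv_lhs => rw [this]
        rw [pow_add, mul_assoc, inv_pow]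
        simp
      rw [← Perm.mul_apply, h4]
    rw [h3]
    exact hH _ hgn (hpow n) _ (h2 _ y hy)

/-- LC: the measure does not increase. -/
theorem FI.measure (h : Sys G le) (hFI : FI H G) {x : A} {v : ℕ}
    (hw : WLE le (orb G x) (v + 1)) :
    WLE (leH H le) (orb H x) v ∨
      (Cuts H (leH H le) x).encard ≤ (Cuts G le x).encard := by
  classical
  by_cases hv : WLE (leH H le) (orb H x) v
  · exact Or.inl hv
  right
  have hHG := hFI.1
  have hOX : ∀ {y}, y ∈ orb H x → y ∈ orb G x := fun hy => SO.mono hHG hy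
  -- an antichain of size `v + 1` in the orbit of `H`
  unfold WLE at hv
  push Not at hv
  obtain ⟨S, hSO, hSa, hSc⟩ := hv
  -- extension of strong cuts
  let ext : Set A → Set A := fun D => {z | z ∈ orb G x ∧ ∃ d ∈ D, Pre le (orb G x) z d}
  have hSa' : ∀ s ∈ S, ∀ t ∈ S, le s t → s = t := fun s hs t ht hst =>
    hSa s hs t ht ⟨hst, (SO.symm (hSO s hs)).trans (hSO t ht)⟩
  have hSpre : ∀ s ∈ S, ∀ t ∈ S, Pre le (orb G x) s t := by
    intro s hs t ht
    by_contra hc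
    have h1 := le_of_not_pre (hOX (hSO s hs)) hc
    have h2 := hSa' t ht s hs h1
    subst h2
    exact hc (Pre.refl _)
  have key : ∀ D, SCut (leH H le) (orb H x) D → ∀ d ∈ D, ∀ e ∈ orb H x,
      Pre le (orb G x) e d → e ∈ D := by
    intro D hD d hd e he hpre
    by_contra heD
    have hde : le d e := (hD.2 d hd e he heD).1
    have hne : d ≠ e := by rintro rfl; exact heD hd
    have hdX : d ∈ orb G x := hOX (hD.1 hd)
    have heX : e ∈ orb G x := hOX he
    have hpre' : Pre le (orb G x) d e := Pre.of_le h.antisymm hdX hde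
    have heC : e ∈ Cls le (orb G x) d := ⟨heX, hpre, hpre'⟩
    have hdC : d ∈ Cls le (orb G x) d := self_mem_Cls hdX
    obtain ⟨y, hyC, hyd⟩ := h.cls_disc ⟨_, hw⟩ hdX heC hne
    have htr : Tr (stabS G (Cls le (orb G x) d)) le (Cls le (orb G x) d) := h.tr_cls ⟨_, hw⟩
    -- all elements of the orbit of `H` in the class are connected to `d`
    have hconn : ∀ z ∈ orb H x, z ∈ Cls le (orb G x) d → CC le (Cls le (orb G x) d) d z := by
      intro z hz hzC
      by_cases hzD : z ∈ D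
      · exact ⟨e, heC, hde, (hD.2 z hzD e he heD).1⟩
      · exact ⟨z, hzC, (hD.2 d hd z hz hzD).1, h.refl z⟩
    obtain ⟨s0, hs0⟩ : S.Nonempty := by
      rw [← Finset.card_pos]; omega
    obtain ⟨k, hk, hks⟩ := (SO.symm (hSO s0 hs0)).trans (hD.1 hd)
    have hkG : k ∈ G := hHG hk
    have himg : ∀ s ∈ S, k s ∈ orb H x ∧ k s ∈ Cls le (orb G x) d := by
      intro s hs
      have h1 : k s ∈ orb H x := SO.trans (hSO s hs) (SO.of_mem hk s)
      refine ⟨h1, hOX h1, ?_, ?_⟩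
      · have := h.pre_inv hkG (hSpre s hs s0 hs0)
        rwa [hks] at this
      · have := h.pre_inv hkG (hSpre s0 hs0 s hs)
        rwa [hks] at this
    have hnc : ∀ s ∈ S, ¬ CC le (Cls le (orb G x) d) (k s) y := by
      intro s hs hcc
      have h1 := hconn _ (himg s hs).1 (himg s hs).2
      exact hyd (htr.cc_trans hdC (himg s hs).2 hyC h1 hcc)
    have hyS : y ∉ S.image k := by
      intro hy
      obtain ⟨s, hs, rfl⟩ := Finset.mem_image.1 hy
      exact hnc s hs ⟨k s, hyC, h.refl _, h.refl _⟩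
    have hcard := hw (insert y (S.image k)) (by
      intro a ha
      rcases Finset.mem_insert.1 ha with h1 | h1
      · rw [h1]; exact hyC.1
      · obtain ⟨s, hs, rfl⟩ := Finset.mem_image.1 h1
        exact (himg s hs).2.1) (by
      intro a ha b hb hab
      rcases Finset.mem_insert.1 ha with h1 | h1
      · rcases Finset.mem_insert.1 hb with h2 | h2
        · rw [h1, h2]
        · obtain ⟨s, hs, rfl⟩ := Finset.mem_image.1 h2
          rw [h1] at hab
          exact absurd ⟨k s, (himg s hs).2, h.refl _, hab⟩ (hnc s hs)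
      · obtain ⟨s, hs, rfl⟩ := Finset.mem_image.1 h1
        rcases Finset.mem_insert.1 hb with h2 | h2
        · rw [h2] at hab
          exact absurd ⟨y, hyC, hab, h.refl _⟩ (hnc s hs)
        · obtain ⟨t, ht, rfl⟩ := Finset.mem_image.1 h2
          rw [hSa' s hs t ht ((h.inv_iff hkG s t).1 hab)])
    rw [Finset.card_insert_of_notMem hyS, Finset.card_image_of_injective _ k.injective] at hcard
    omega
  have hext : ∀ D ∈ Cuts H (leH H le) x, ext D ∈ Cuts G le x := by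
    intro D hD
    have hcut : SCut le (orb G x) (ext D) := by
      refine ⟨fun z hz => hz.1, ?_⟩
      rintro y ⟨hyX, d, hd, hyd⟩ z hz hzn
      have h1 : ¬ Pre le (orb G x) z d := fun h' => hzn ⟨hz, d, hd, h'⟩
      exact le_of_not_pre hz (fun h' => h1 (h'.trans hyd))
    refine ⟨hcut, ?_⟩
    refine hFI.inv_cut h hcut ?_
    rintro g hg hgx y ⟨hyX, d, hd, hyd⟩
    exact ⟨(h.orb_iff (hHG hg) x y).2 hyX, g d, hD.2 g hg hgx d hd, h.pre_inv (hHG hg) hyd⟩
  have hrestr : ∀ D ∈ Cuts H (leH H le) x, ext D ∩ orb H x = D := by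
    intro D hD
    ext z
    constructor
    · rintro ⟨⟨-, d, hd, hzd⟩, hz⟩
      exact key D hD.1 d hd z hz hzd
    · intro hz
      exact ⟨⟨hOX (hD.1.1 hz), z, hz, Pre.refl _⟩, hD.1.1 hz⟩
  have hinj : Set.InjOn ext (Cuts H (leH H le) x) := by
    intro D hD D' hD' hDD'
    rw [← hrestr D hD, ← hrestr D' hD', hDD']
  rw [← hinj.encard_image]
  exact Set.encard_le_encard (by rintro _ ⟨D, hD, rfl⟩; exact hext D hD)

end Pool.Agent.FinWidth
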