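import Pool.Agent.FinWidth.Step

/-!
# The bounded isolation property for systems of finite width
-/

set_option autoImplicit false

namespace Pool.Agent.FinWidth

open Equiv

/-- The measure is bounded. -/
theorem Sys.cuts_bound {A : Type} {G : Subgroup (Perm A)} {le : A → A → Prop} (h : Sys G le) :
    ∃ e : ℕ, ∀ x, (Cuts G le x).encard ≤ e := by
  classical
  obtain ⟨T, hT⟩ := h.pairs
  refine ⟨T.powerset.card, fun x => ?_⟩
  have hinj : Set.InjOn (fun D : Set A => T.filter (fun t => ∃ g ∈ G, g t.1 = x ∧ g t.2 ∈ D))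
      (Cuts G le x) := by
    have key : ∀ D ∈ Cuts G le x, ∀ D' ∈ Cuts G le x,
        T.filter (fun t => ∃ g ∈ G, g t.1 = x ∧ g t.2 ∈ D) =
        T.filter (fun t => ∃ g ∈ G, g t.1 = x ∧ g t.2 ∈ D') → D ⊆ D' := by
      intro D _ D' hD' heq z hz
      obtain ⟨t, ht, g, hg, h1, h2⟩ := hT x z
      have h3 : t ∈ T.filter (fun t => ∃ g ∈ G, g t.1 = x ∧ g t.2 ∈ D) :=
        Finset.mem_filter.2 ⟨ht, g, hg, h1, by rw [h2]; exact hz⟩
      rw [heq] at h3
      obtain ⟨-, g', hg', h4, h5⟩ := Finset.mem_filter.1 h3
      have h6 := hD'.2 (g * g'⁻¹) (G.mul_mem hg (G.inv_mem hg')) (by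
        rw [Perm.mul_apply, ← h4]
        simpa using h1.trans h4.symm) _ h5
      rw [Perm.mul_apply, show g'⁻¹ (g' t.2) = t.2 by simp, h2] at h6
      exact h6
    intro D hD D' hD' heq
    exact Set.Subset.antisymm (key D hD D' hD' heq) (key D' hD' D hD heq.symm)
  rw [← hinj.encard_image, ← Set.encard_coe_eq_coe_finsetCard]
  refine Set.encard_le_encard ?_
  rintro _ ⟨D, -, rfl⟩
  simp only [Finset.coe_powerset, Set.mem_preimage, Set.mem_powerset_iff]
  intro t ht
  exact (Finset.mem_filter.1 ht).1

theorem chain_of_wle {A : Type} {G : Subgroup (Perm A)} {le : A → A → Prop} (h : Sys G le)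
    (hw : ∀ x, WLE le (orb G x) 1) :
    ∀ a, ∀ x ∈ orb G a, ∀ y ∈ orb G a, le x y ∨ le y x := by
  classical
  intro a x hx y hy
  by_contra hc
  push Not at hc
  have hne : x ≠ y := by
    rintro rfl
    exact hc.1 (h.refl _)
  have := hw a {x, y} (by
    intro z hz
    rcases Finset.mem_insert.1 hz with h1 | h1
    · rw [h1]; exact hx
    · rw [Finset.mem_singleton.1 h1]; exact hy) (by
    intro z hz z' hz' hzz'
    rcases Finset.mem_insert.1 hz with h1 | h1
    · rcases Finset.mem_insert.1 hz' with h2 | h2
      · rw [h1, h2]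
      · rw [h1, Finset.mem_singleton.1 h2] at hzz'
        exact absurd hzz' hc.1
    · rcases Finset.mem_insert.1 hz' with h2 | h2
      · rw [h2, Finset.mem_singleton.1 h1] at hzz'
        exact absurd hzz' hc.2
      · rw [Finset.mem_singleton.1 h1, Finset.mem_singleton.1 h2])
  rw [Finset.card_pair hne] at this
  omega

/-- The statement proved by induction. -/
def Stmt (v e : ℕ) : Prop :=
  ∀ (A : Type) [Countable A] (G : Subgroup (Perm A)) (le : A → A → Prop), Sys G le →
    (∀ x, WLE le (orb G x) (v + 1)) →
    (∀ x, WLE le (orb G x) v ∨ (Cuts G le x).encard ≤ e) → BIP G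

theorem empty_mem_cuts {A : Type} {G : Subgroup (Perm A)} {le : A → A → Prop} (x : A) :
    (∅ : Set A) ∈ Cuts G le x :=
  ⟨⟨Set.empty_subset _, fun y hy => absurd hy (Set.notMem_empty y)⟩,
    fun _ _ _ y hy => absurd hy (Set.notMem_empty y)⟩

theorem stmt_step (v e : ℕ) (ih : Stmt (v + 1) e) : Stmt (v + 1) (e + 1) := by
  classical
  -- connected case, by induction on the number of wide orbits
  have S2 : ∀ n : ℕ, ∀ (A : Type) [Countable A] (G : Subgroup (Perm A)) (le : A → A → Prop),
      Sys G le → (∀ x, WLE le (orb G x) (v + 1 + 1)) →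
      (∀ x, WLE le (orb G x) (v + 1) ∨ (Cuts G le x).encard ≤ ((e + 1 : ℕ) : ℕ∞)) →
      (∀ x, ∀ y ∈ orb G x, UB le x y) →
      (∃ R : Finset A, R.card ≤ n ∧ ∀ x, ¬ WLE le (orb G x) 1 → ∃ ρ ∈ R, SO G ρ x) →
      BIP G := by
    intro n
    induction n with
    | zero =>
      intro A _ G le h _ _ _ hR
      obtain ⟨R, hRc, hR⟩ := hR
      refine h.bip_base (chain_of_wle h (fun x => ?_))
      by_contra hx
      obtain ⟨ρ, hρ, -⟩ := hR x hx
      have : R = ∅ := Finset.card_eq_zero.1 (by omega)
      rw [this] at hρ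
      exact absurd hρ (Finset.notMem_empty ρ)
    | succ n ihn =>
      intro A _ G le h hw hm hub hR
      by_cases hex : ∃ x, ¬ WLE le (orb G x) 1
      · have hww : ∀ x, ∃ w, WLE le (orb G x) w := fun x => ⟨_, hw x⟩
        obtain ⟨r, hr, htop⟩ := h.exists_top hww hex
        have ht : Top G le r := ⟨h, hww, hr, htop⟩
        refine ht.bip ?_ ?_
        · refine ih _ _ _ (ht.kk_sys _) (fun x => ind_wle (hw _)) (fun x => ?_)
          rcases hm x with h1 | h1
          · exact Or.inl (ind_wle h1)
          · right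
            have h2 := ht.cuts_kk (ht.exists_lower hub) x
            have h3 := h2.trans h1
            push_cast at h3
            exact (ENat.add_le_add_iff_right ENat.one_ne_top).1 h3
        · obtain ⟨R, hRc, hR⟩ := hR
          obtain ⟨R', hR'c, hR'⟩ := ht.bb_reps hR
          refine ihn _ _ _ ht.bb_sys (fun x => ind_wle (hw _)) (fun x => ?_) (ht.bb_ub hub)
            ⟨R', by omega, hR'⟩
          by_cases hx : ∃ D, Lk G le r (x : A) D
          · exact Or.inl ((ht.bb_linked_wle x hx).mono (by omega))
          · rcases hm x with h1 | h1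
            · exact Or.inl (ind_wle h1)
            · exact Or.inr ((ht.cuts_bb x hx).trans h1)
      · push Not at hex
        exact h.bip_base (chain_of_wle h hex)
  -- general case, by induction on the largest width of a disconnected orbit
  have S1 : ∀ d : ℕ, ∀ (A : Type) [Countable A] (G : Subgroup (Perm A)) (le : A → A → Prop),
      Sys G le → (∀ x, WLE le (orb G x) (v + 1 + 1)) →
      (∀ x, WLE le (orb G x) (v + 1) ∨ (Cuts G le x).encard ≤ ((e + 1 : ℕ) : ℕ∞)) →
      (∀ x, (∀ y ∈ orb G x, UB le x y) ∨ WLE le (orb G x) d) →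
      BIP G := by
    intro d
    induction d with
    | zero =>
      intro A _ G le h hw hm hub
      obtain ⟨R, hR⟩ := h.reps
      refine S2 R.card A G le h hw hm (fun x => ?_) ⟨R, le_refl _, fun x _ => hR x⟩
      rcases hub x with h1 | h1
      · exact h1
      · exfalso
        have := h1 {x} (by
          intro y hy
          rw [Finset.mem_singleton.1 hy]
          exact self_mem_orb G x) (by
          intro a ha b hb _
          rw [Finset.mem_singleton.1 ha, Finset.mem_singleton.1 hb])
        simp at this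
    | succ d ihd =>
      intro A _ G le h hw hm hub
      have hww : ∀ x, ∃ w, WLE le (orb G x) w := fun x => ⟨_, hw x⟩
      have hFI := h.kerUB_FI hww
      refine hFI.bip (ihd A _ _ (h.kerUB_sys hww) (fun x => orb_leH_wle hFI.1 (hw x))
        (fun x => ?_) (fun x => h.kerUB_orb hww x (hub x)))
      rcases hm x with h1 | h1
      · exact Or.inl (orb_leH_wle hFI.1 h1)
      · rcases hFI.measure h (hw x) with h2 | h2
        · exact Or.inl h2
        · exact Or.inr (h2.trans h1)
  intro A _ G le h hw hm
  exact S1 (v + 1 + 1) A G le h hw hm (fun x => Or.inr (hw x))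

theorem stmt_all (v : ℕ) : ∀ e, Stmt v e := by
  induction v with
  | zero =>
    intro e A _ G le h hw _
    exact h.bip_base (chain_of_wle h hw)
  | succ v ihv =>
    intro e
    induction e with
    | zero =>
      intro A _ G le h hw hm
      obtain ⟨e', he'⟩ := h.cuts_bound
      refine ihv e' A G le h (fun x => ?_) (fun x => Or.inr (he' x))
      rcases hm x with h1 | h1
      · exact h1
      · exfalso
        have h2 : (Cuts G le x).encard = 0 := by
          have : ((0 : ℕ) : ℕ∞) = 0 := rfl
          rw [this] at h1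
          exact le_antisymm h1 bot_le
        rw [Set.encard_eq_zero] at h2
        have h3 := empty_mem_cuts (G := G) (le := le) x
        rw [h2] at h3
        exact h3
    | succ e ihe => exact stmt_step v e ihe

/-- The bounded isolation property for all systems of bounded width. -/
theorem bip_of_sys {A : Type} [Countable A] {G : Subgroup (Perm A)} {le : A → A → Prop}
    (h : Sys G le) {w : ℕ} (hw : ∀ x, WLE le (orb G x) w) : BIP G := by
  obtain ⟨e, he⟩ := h.cuts_bound
  exact stmt_all w e A G le h (fun x => (hw x).mono (by omega)) (fun x => Or.inr (he x))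

end Pool.Agent.FinWidth
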