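import Pool.Agent.FinWidth.FinAx
import Pool.Agent.FinWidth.Main

/-!
# Countably categorical partial orders of finite width are finitely axiomatisable
-/

set_option autoImplicit false

open FirstOrder FirstOrder.Language Cardinal

namespace Pool.Agent.FinWidth

theorem bip_poset {M : Type} [PartialOrder M] [FirstOrder.Language.order.Structure M]
    [FirstOrder.Language.order.OrderedStructure M] [Countable M] [Nonempty M]
    (hcat : Cardinal.Categorical Cardinal.aleph0.{0} (FirstOrder.Language.order.completeTheory M))
    {n : ℕ} (hn : ∀ s : Finset M, IsAntichain (· ≤ ·) (s : Set M) → s.card ≤ n) :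
    BIP (AutG M) := by
  classical
  have hrel : ∀ x y : M,
      Structure.RelMap (leSymb : FirstOrder.Language.order.Relations 2) ![x, y] ↔ x ≤ y := by
    intro x y
    rw [relMap_leSymb]
    simp
  have hG : ∀ g ∈ AutG M, ∀ x y, g x ≤ g y ↔ x ≤ y := by
    intro g hg x y
    rw [← hrel, ← hrel]
    exact hg x y
  let le : M → M → Prop := fun x y => x ≤ y ∧ SO (AutG M) x y
  have hsys : Sys (AutG M) le := by
    refine ⟨fun x => ⟨le_rfl, SO.refl _ x⟩, fun x y z h1 h2 => ⟨h1.1.trans h2.1, h1.2.trans h2.2⟩,
      fun x y h1 h2 => le_antisymm h1.1 h2.1, ?_, fun x y h => h.2, ?_, ?_⟩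
    · intro g hg x y h
      refine ⟨(hG g hg x y).2 h.1, ?_⟩
      exact ((SO.of_mem hg x).symm.trans h.2).trans (SO.of_mem hg y)
    · obtain ⟨Θ, hfin, h1, h2⟩ := ryll hcat 2
      have hfR : Finite (Set.range Θ) := hfin
      choose s hs using fun θ : Set.range Θ => θ.2
      have hT := Set.finite_range (fun θ : Set.range Θ => (s θ 0, s θ 1))
      refine ⟨hT.toFinset, fun x y => ?_⟩
      let θ : Set.range Θ := ⟨Θ ![x, y], ![x, y], rfl⟩
      refine ⟨(s θ 0, s θ 1), by
        rw [Set.Finite.mem_toFinset]
        exact ⟨θ, rfl⟩, ?_⟩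
      have h3 : (Θ (s θ)).Realize ![x, y] := by
        rw [hs θ]
        exact (h1 _ _).2 (ST.refl _)
      obtain ⟨g, hg, hgv⟩ := (st_iff hcat _ _).1 ((h1 _ _).1 h3)
      exact ⟨g, hg, hgv 0, hgv 1⟩
    · intro g horb hmono x y
      rw [hrel, hrel]
      constructor
      · intro h
        by_contra hn'
        have h1 := hmono (fun a b => ¬ b ≤ a) ⟨by
          intro k hk a b hab
          rw [hG k hk]
          exact hab, by
          intro a' a b b' ha hab hb hba
          exact hab (hb.1.trans (hba.trans ha.1))⟩ y x hn'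
        exact h1 h
      · intro h
        exact hmono (fun a b => a ≤ b) ⟨by
          intro k hk a b hab
          exact (hG k hk a b).2 hab, by
          intro a' a b b' ha hab hb
          exact ha.1.trans (hab.trans hb.1)⟩ x y h
  refine bip_of_sys hsys (w := n) ?_
  intro x F hF hF2
  refine hn F ?_
  intro a ha b hb hab hle
  apply hab
  refine hF2 a ha b hb ⟨hle, ?_⟩
  exact ((hF a ha).symm.trans (hF b hb) : SO (AutG M) a b)

theorem fin_axiomatizable (M : Type) [PartialOrder M] [FirstOrder.Language.order.Structure M]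
    [FirstOrder.Language.order.OrderedStructure M]
    (hcat : Cardinal.Categorical Cardinal.aleph0.{0} (FirstOrder.Language.order.completeTheory M))
    (hw : ∃ n : ℕ, ∀ s : Finset M, IsAntichain (· ≤ ·) (s : Set M) → s.card ≤ n) :
    ∃ T0 : Finset FirstOrder.Language.order.Sentence,
      (↑T0 : Set FirstOrder.Language.order.Sentence) ⊆ FirstOrder.Language.order.completeTheory M ∧
      ∀ φ ∈ FirstOrder.Language.order.completeTheory M,
        (↑T0 : FirstOrder.Language.order.Theory) ⊨ᵇ φ := by
  classical
  obtain ⟨n, hn⟩ := hw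
  rcases isEmpty_or_nonempty M with hE | hne
  · refine ⟨{allF (⊥ : FirstOrder.Language.order.Formula (Fin 1))}, ?_, ?_⟩
    · intro φ hφ
      rw [Finset.coe_singleton, Set.mem_singleton_iff] at hφ
      rw [hφ]
      refine (mem_completeTheory).2 ?_
      rw [realize_allF]
      intro x
      exact (hE.false (x 0)).elim
    · intro φ _
      rw [Theory.models_sentence_iff]
      intro B
      have h1 := B.is_model.realize_of_mem
        (allF (⊥ : FirstOrder.Language.order.Formula (Fin 1))) (by simp)
      rw [realize_allF] at h1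
      obtain ⟨b⟩ := B.nonempty'
      exact (h1 (fun _ => b)).elim
  by_cases hc : Countable M
  · exact finax hcat (bip_poset hcat hn)
  have hinf : Infinite M := by
    by_contra hni
    rw [not_infinite_iff_finite] at hni
    exact hc inferInstance
  obtain ⟨S, -, hSc⟩ := exists_elementarySubstructure_card_eq FirstOrder.Language.order (M := M)
    ∅ Cardinal.aleph0.{0} le_rfl (by simp) (by
      rw [Cardinal.lift_aleph0, Cardinal.lift_le_aleph0]
      exact Cardinal.mk_le_aleph0_iff.2 inferInstance) (by
      rw [Cardinal.lift_aleph0, Cardinal.aleph0_le_lift]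
      exact Cardinal.infinite_iff.1 hinf)
  have hSc' : #S = ℵ₀ := by simpa using hSc
  have hSM : FirstOrder.Language.order.completeTheory S =
      FirstOrder.Language.order.completeTheory M := S.elementarilyEquivalent
  have hScount : Countable S := Cardinal.mk_le_aleph0_iff.1 hSc'.le
  have hSinf : Infinite S := Cardinal.infinite_iff.2 hSc'.ge
  have hSord : FirstOrder.Language.order.OrderedStructure S := by
    refine ⟨?_⟩
    intro x
    have h1 : Structure.RelMap (leSymb : FirstOrder.Language.order.Relations 2) x ↔
        Structure.RelMap (leSymb : FirstOrder.Language.order.Relations 2)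
          (fun i => ((x i : S) : M)) := Iff.rfl
    rw [h1, relMap_leSymb]
    rfl
  rw [← hSM] at hcat ⊢
  refine finax hcat (bip_poset (n := n) hcat ?_)
  intro s hs
  rw [← Finset.card_map (Function.Embedding.subtype _)]
  refine hn _ ?_
  intro a ha b hb hab hle
  obtain ⟨a', ha', rfl⟩ := Finset.mem_map.1 (Finset.mem_coe.1 ha)
  obtain ⟨b', hb', rfl⟩ := Finset.mem_map.1 (Finset.mem_coe.1 hb)
  exact hs ha' hb' (fun h => hab (by rw [h])) hle

end Pool.Agent.FinWidth
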