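import Pool.Agent.FinWidth.Module

/-!
# Induced systems on subsets: classes and transversals
-/

set_option autoImplicit false

namespace Pool.Agent.FinWidth

open Equiv

variable {A : Type} {G : Subgroup (Perm A)} {le : A → A → Prop}

/-- The group induced on `S`. -/
def ind (G : Subgroup (Perm A)) (S : Set A) : Subgroup (Perm S) where
  carrier := {θ | ∃ g ∈ G, ∀ x : S, g x = θ x}
  one_mem' := ⟨1, G.one_mem, fun x => rfl⟩
  mul_mem' := by
    rintro a b ⟨g, hg, hga⟩ ⟨k, hk, hkb⟩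
    exact ⟨g * k, G.mul_mem hg hk, fun x => by
      rw [Perm.mul_apply, hkb, hga, Perm.mul_apply]⟩
  inv_mem' := by
    rintro a ⟨g, hg, hga⟩
    refine ⟨g⁻¹, G.inv_mem hg, fun x => ?_⟩
    have := hga (a⁻¹ x)
    rw [show a (a⁻¹ x) = x by simp] at this
    rw [← this]
    simp

theorem mem_ind {S : Set A} {θ : Perm S} : θ ∈ ind G S ↔ ∃ g ∈ G, ∀ x : S, g x = θ x := Iff.rfl

/-- The order restricted to `S`. -/
def leS (le : A → A → Prop) (S : Set A) (x y : S) : Prop := le x y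

/-- Pair-homogeneous subsets. -/
def HomS (G : Subgroup (Perm A)) (S : Set A) : Prop :=
  ∀ g ∈ G, ∀ x y : S, g x ∈ S → g y ∈ S → ∃ θ ∈ ind G S, (θ x : A) = g x ∧ (θ y : A) = g y

theorem ind_so {S : Set A} {x y : S} (h : SO (ind G S) x y) : SO G (x : A) y := by
  obtain ⟨θ, ⟨g, hg, hgθ⟩, rfl⟩ := h
  exact ⟨g, hg, hgθ x⟩

theorem HomS.so {S : Set A} (hS : HomS G S) {x y : S} (h : SO G (x : A) y) :
    SO (ind G S) x y := by
  obtain ⟨g, hg, hgx⟩ := h
  obtain ⟨θ, hθ, h1, -⟩ := hS g hg x x (by rw [hgx]; exact y.2) (by rw [hgx]; exact y.2)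
  exact ⟨θ, hθ, Subtype.ext (h1.trans hgx)⟩

theorem HomS.sys {S : Set A} (hS : HomS G S) (h : Sys G le)
    (hmc : ∀ θ : Perm S, (∀ x, SO (ind G S) x (θ x)) →
      (∀ R, Mono (ind G S) (leS le S) R → ∀ x y, R x y → R (θ x) (θ y)) → θ ∈ ind G S) :
    Sys (ind G S) (leS le S) where
  refl := fun x => h.refl x
  trans := fun x y z h1 h2 => h.trans _ _ _ h1 h2
  antisymm := fun x y h1 h2 => Subtype.ext (h.antisymm _ _ h1 h2)
  inv := by
    rintro θ ⟨g, hg, hgθ⟩ x y hxy
    unfold leS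
    rw [← hgθ, ← hgθ]
    exact h.inv g hg _ _ hxy
  same := fun x y hxy => hS.so (h.same _ _ hxy)
  pairs := by
    classical
    obtain ⟨T, hT⟩ := h.pairs
    by_cases hne : Nonempty S
    · have : ∀ t : A × A, ∃ s : S × S, (∃ g ∈ G, g t.1 ∈ S ∧ g t.2 ∈ S) →
          (∃ g ∈ G, g t.1 = s.1 ∧ g t.2 = s.2) := by
        intro t
        by_cases ht : ∃ g ∈ G, g t.1 ∈ S ∧ g t.2 ∈ S
        · obtain ⟨g, hg, h1, h2⟩ := ht
          exact ⟨(⟨g t.1, h1⟩, ⟨g t.2, h2⟩), fun _ => ⟨g, hg, rfl, rfl⟩⟩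
        · exact ⟨(hne.some, hne.some), fun h' => absurd h' ht⟩
      choose s hs using this
      refine ⟨T.image s, fun x y => ?_⟩
      obtain ⟨t, ht, g, hg, h1, h2⟩ := hT x y
      have hex : ∃ g ∈ G, g t.1 ∈ S ∧ g t.2 ∈ S :=
        ⟨g, hg, by rw [h1]; exact x.2, by rw [h2]; exact y.2⟩
      obtain ⟨g', hg', h5, h6⟩ := hs t hex
      refine ⟨s t, Finset.mem_image.2 ⟨t, ht, rfl⟩, ?_⟩
      have h7 : (g * g'⁻¹) (s t).1 = x := by rw [← h5, ← h1]; simp
      have h8 : (g * g'⁻¹) (s t).2 = y := by rw [← h6, ← h2]; simp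
      obtain ⟨k, hk, hk1, hk2⟩ := hS (g * g'⁻¹) (G.mul_mem hg (G.inv_mem hg')) (s t).1 (s t).2
        (by rw [h7]; exact x.2) (by rw [h8]; exact y.2)
      exact ⟨k, hk, Subtype.ext (hk1.trans h7), Subtype.ext (hk2.trans h8)⟩
    · exact ⟨∅, fun x => absurd ⟨x⟩ hne⟩
  mc := hmc

theorem ind_wle {S : Set A} {x : S} {n : ℕ} (hw : WLE le (orb G (x : A)) n) :
    WLE (leS le S) (orb (ind G S) x) n := by
  classical
  intro F h1 h2
  have := hw (F.map (Function.Embedding.subtype _)) (by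
    intro y hy
    obtain ⟨z, hz, rfl⟩ := Finset.mem_map.1 hy
    exact ind_so (h1 z hz)) (by
    intro y hy z hz hyz
    obtain ⟨y', hy', rfl⟩ := Finset.mem_map.1 hy
    obtain ⟨z', hz', rfl⟩ := Finset.mem_map.1 hz
    rw [h2 y' hy' z' hz' hyz])
  rwa [Finset.card_map] at this

/-- The class of the point `D`. -/
def KK (G : Subgroup (Perm A)) (le : A → A → Prop) (r : A) (D : Set A) : Set A :=
  {y | Lk G le r y D}

namespace Top

variable {r : A}

theorem kk_inv (h : Top G le r) {D : Set A} {g : Perm A} (hg : g ∈ G) {x : A}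
    (hx : x ∈ KK G le r D) (hgx : g x ∈ KK G le r D) : ∀ y, g y ∈ KK G le r D ↔ y ∈ KK G le r D := by
  have hD : g '' D = D := h.lk_unique (h.lk_inv hx hg) hgx
  intro y
  change Lk G le r (g y) D ↔ Lk G le r y D
  conv_lhs => rw [← hD]
  exact h.lk_inv_iff hg

theorem kk_restrict (h : Top G le r) {D : Set A} {g : Perm A} (hg : g ∈ G) {x : A}
    (hx : x ∈ KK G le r D) (hgx : g x ∈ KK G le r D) :
    ∃ θ ∈ ind G (KK G le r D), ∀ y : KK G le r D, (θ y : A) = g y :=
  ⟨g.subtypePerm (h.kk_inv hg hx hgx), ⟨g, hg, fun _ => rfl⟩, fun _ => rfl⟩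

theorem kk_hom (h : Top G le r) (D : Set A) : HomS G (KK G le r D) := by
  intro g hg x y hx hy
  obtain ⟨θ, hθ, hθg⟩ := h.kk_restrict hg x.2 hx
  exact ⟨θ, hθ, hθg x, hθg y⟩

theorem md_of_kk (_h : Top G le r) {D : Set A} {x y : A} (hx : x ∈ KK G le r D)
    (hy : y ∈ KK G le r D) : Md G le r x y := Or.inr ⟨D, hx, hy⟩

theorem kk_sys (h : Top G le r) (D : Set A) :
    Sys (ind G (KK G le r D)) (leS le (KK G le r D)) := by
  classical
  refine (h.kk_hom D).sys h.sys ?_
  intro θ hθ1 hθ2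
  let σ : Perm A := Equiv.Perm.ofSubtype θ
  have hσ1 : ∀ x : KK G le r D, σ x = θ x := fun x => Equiv.Perm.ofSubtype_apply_coe θ x
  have hσ2 : ∀ x, x ∉ KK G le r D → σ x = x :=
    fun x hx => Equiv.Perm.ofSubtype_apply_of_not_mem θ hx
  have hso : ∀ x, SO G x (σ x) := by
    intro x
    by_cases hx : x ∈ KK G le r D
    · have := ind_so (hθ1 ⟨x, hx⟩)
      rw [← hσ1] at this
      exact this
    · rw [hσ2 x hx]; exact SO.refl G x
  have hmd : ∀ x, Md G le r x (σ x) := by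
    intro x
    by_cases hx : x ∈ KK G le r D
    · have h1 := hσ1 ⟨x, hx⟩
      simp only at h1
      rw [h1]
      exact h.md_of_kk hx (θ ⟨x, hx⟩).2
    · rw [hσ2 x hx]; exact h.md_refl x
  refine ⟨σ, h.sys.mc σ hso ?_, fun x => hσ1 x⟩
  intro R hR x y hxy
  by_cases hm : Md G le r x y
  · by_cases hx : x ∈ KK G le r D
    · have hy : y ∈ KK G le r D := h.lk_of_md hm hx
      have hRS : Mono (ind G (KK G le r D)) (leS le (KK G le r D)) (fun a b => R a b) :=
        { inv := by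
            rintro k ⟨g, hg, hgk⟩ a b hab
            rw [← hgk, ← hgk]
            exact hR.inv g hg _ _ hab
          mono := fun a' a b b' h1 h2 h3 => hR.mono _ _ _ _ h1 h2 h3 }
      have := hθ2 _ hRS ⟨x, hx⟩ ⟨y, hy⟩ hxy
      rw [← hσ1, ← hσ1] at this
      exact this
    · have hy : y ∉ KK G le r D := fun hy => hx (h.lk_of_md (h.md_symm hm) hy)
      rw [hσ2 x hx, hσ2 y hy]
      exact hxy
  · have h1 := h.mod_left hR (hmd x) (hso x) hm hxy
    exact h.mod_right hR (hmd y) (hso y)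
      (fun h2 => hm (h.md_trans (hmd x) (h.md_symm h2))) h1

open Classical in
/-- The transversal map. -/
noncomputable def rep (_h : Top G le r) (x : A) : A :=
  if hx : ∃ D, Lk G le r x D then
    (if hz : ∃ z ∈ orb G r, low G le z = hx.choose then hz.choose else x)
  else x

theorem rep_unlinked (h : Top G le r) {x : A} (hx : ¬ ∃ D, Lk G le r x D) : h.rep x = x := by
  unfold rep
  rw [dif_neg hx]

theorem exists_pt (h : Top G le r) : ∃ p : Set A → A,
    (∀ D ∈ Ix G le r, p D ∈ orb G r ∧ low G le (p D) = D) ∧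
    ∀ x D, Lk G le r x D → h.rep x = p D := by
  classical
  have hp : ∀ D, ∃ z, (∃ z ∈ orb G r, low G le z = D) → (z ∈ orb G r ∧ low G le z = D) := by
    intro D
    by_cases hD : ∃ z ∈ orb G r, low G le z = D
    · obtain ⟨z, h1, h2⟩ := hD
      exact ⟨z, fun _ => ⟨h1, h2⟩⟩
    · exact ⟨r, fun h' => absurd h' hD⟩
  let p : Set A → A := fun D =>
    if hz : ∃ z ∈ orb G r, low G le z = D then hz.choose else r
  refine ⟨p, ?_, ?_⟩
  · intro D hD
    have hD' : ∃ z ∈ orb G r, low G le z = D := hD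
    have : p D = hD'.choose := dif_pos hD'
    rw [this]
    exact hD'.choose_spec
  · intro x D hxD
    have hx : ∃ D, Lk G le r x D := ⟨D, hxD⟩
    have hD : hx.choose = D := h.lk_unique hx.choose_spec hxD
    have hmem := h.lk_mem hxD
    have hz : ∃ z ∈ orb G r, low G le z = D := hmem
    unfold rep
    rw [dif_pos hx]
    have key : ∀ E (_ : E = D), (if hz : ∃ z ∈ orb G r, low G le z = E then hz.choose else x)
        = p D := by
      intro E hE
      subst hE
      rw [dif_pos hz]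
      change _ = (if hz : ∃ z ∈ orb G r, low G le z = E then hz.choose else r)
      rw [dif_pos hz]
    exact key _ hD

theorem md_rep (h : Top G le r) (x : A) : Md G le r x (h.rep x) := by
  by_cases hx : ∃ D, Lk G le r x D
  · obtain ⟨D, hD⟩ := hx
    obtain ⟨p, hp1, hp2⟩ := h.exists_pt
    rw [hp2 x D hD]
    obtain ⟨h1, h2⟩ := hp1 D (h.lk_mem hD)
    refine Or.inr ⟨D, hD, ?_⟩
    have := h.lk_low h1
    rwa [h2] at this
  · rw [h.rep_unlinked hx]
    exact h.md_refl x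

theorem rep_eq (h : Top G le r) {x y : A} (hxy : Md G le r x y) : h.rep x = h.rep y := by
  rcases hxy with rfl | ⟨D, h1, h2⟩
  · rfl
  · obtain ⟨p, hp1, hp2⟩ := h.exists_pt
    rw [hp2 x D h1, hp2 y D h2]

theorem rep_rep (h : Top G le r) (x : A) : h.rep (h.rep x) = h.rep x :=
  (h.rep_eq (h.md_rep x)).symm

theorem md_iff (h : Top G le r) {x y : A} : Md G le r x y ↔ h.rep x = h.rep y := by
  refine ⟨h.rep_eq, fun h1 => ?_⟩
  have h2 := h.md_rep x
  rw [h1] at h2
  exact h.md_trans h2 (h.md_symm (h.md_rep y))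

/-- The transversal. -/
def BB (h : Top G le r) : Set A := {x | h.rep x = x}

theorem rep_mem (h : Top G le r) (x : A) : h.rep x ∈ h.BB := h.rep_rep x

theorem so_rep (h : Top G le r) {b : A} (hb : b ∈ h.BB) {g : Perm A} (hg : g ∈ G) :
    SO G b (h.rep (g b)) := by
  by_cases hx : ∃ D, Lk G le r b D
  · obtain ⟨D, hD⟩ := hx
    obtain ⟨p, hp1, hp2⟩ := h.exists_pt
    have h1 := hp2 b D hD
    have h2 := hp2 _ _ (h.lk_inv hD hg)
    have h3 : h.rep b = b := hb
    rw [h2, ← h3, h1]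
    have h4 := (hp1 D (h.lk_mem hD)).1
    have h5 := (hp1 _ (h.lk_mem (h.lk_inv hD hg))).1
    exact (SO.symm h4).trans h5
  · have h1 : ¬ ∃ D, Lk G le r (g b) D := by
      rintro ⟨D, hD⟩
      apply hx
      have := h.lk_inv hD (G.inv_mem hg)
      rw [show (g⁻¹) (g b) = b by simp] at this
      exact ⟨_, this⟩
    rw [h.rep_unlinked h1]
    exact SO.of_mem hg b

/-- Each element of the group can be corrected to preserve the transversal. -/
theorem correct (h : Top G le r) {g : Perm A} (hg : g ∈ G) :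
    ∃ g' ∈ G, (∀ b ∈ h.BB, g' b = h.rep (g b)) ∧ (∀ x, g' x ∈ h.BB ↔ x ∈ h.BB) ∧
      ∀ x, Md G le r (g x) (g' x) := by
  have hex : ∀ b : A, ∃ k : Perm A, k ∈ G ∧ (b ∈ h.BB → k b = g⁻¹ (h.rep (g b))) := by
    intro b
    by_cases hb : b ∈ h.BB
    · obtain ⟨k, hk, hkb⟩ := (h.so_rep hb hg).trans (SO.of_mem (G.inv_mem hg) _)
      exact ⟨k, hk, fun _ => hkb⟩
    · exact ⟨1, G.one_mem, fun h' => absurd h' hb⟩
  choose k hk hkb using hex
  have hmdk : ∀ x, Md G le r x (k (h.rep x) x) := by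
    intro x
    have h1 : Md G le r (h.rep x) (k (h.rep x) (h.rep x)) := by
      rw [hkb _ (h.rep_mem x)]
      have h2 := h.md_rep (g (h.rep x))
      have h3 := h.md_inv h2 (G.inv_mem hg)
      simpa using h3
    have h2 : Md G le r (k (h.rep x) x) (k (h.rep x) (h.rep x)) := h.md_inv (h.md_rep x) (hk _)
    exact h.md_trans (h.md_rep x) (h.md_trans h1 (h.md_symm h2))
  obtain ⟨κ, hκ, hκx⟩ := h.glue (fun x => k (h.rep x)) (fun x => hk _)
    (fun x y hxy => by rw [h.rep_eq hxy]) hmdk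
  have hg'b : ∀ b ∈ h.BB, (g * κ) b = h.rep (g b) := by
    intro b hb
    have hb' : h.rep b = b := hb
    rw [Perm.mul_apply, hκx, hb', hkb b hb]
    simp
  have hmd : ∀ x, Md G le r (g x) ((g * κ) x) := by
    intro x
    rw [Perm.mul_apply, hκx]
    exact h.md_inv (hmdk x) hg
  refine ⟨g * κ, G.mul_mem hg hκ, hg'b, ?_, hmd⟩
  intro x
  constructor
  · intro hx
    have h1 : (g * κ) (h.rep x) ∈ h.BB := by
      rw [hg'b _ (h.rep_mem x)]
      exact h.rep_mem _
    have h2 : Md G le r ((g * κ) x) ((g * κ) (h.rep x)) :=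
      h.md_inv (h.md_rep x) (G.mul_mem hg hκ)
    have h3 := h.rep_eq h2
    have h4 : h.rep ((g * κ) x) = (g * κ) x := hx
    have h5 : h.rep ((g * κ) (h.rep x)) = (g * κ) (h.rep x) := h1
    rw [h4, h5] at h3
    have h6 := (g * κ).injective h3
    rw [h6]
    exact h.rep_mem x
  · intro hx
    rw [hg'b x hx]
    exact h.rep_mem _

theorem bb_hom (h : Top G le r) : HomS G h.BB := by
  intro g hg x y hx hy
  obtain ⟨g', hg', h1, h2, -⟩ := h.correct hg
  refine ⟨g'.subtypePerm h2, ⟨g', hg', fun z => rfl⟩, ?_, ?_⟩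
  · change g' x = g x
    rw [h1 x x.2]
    exact hx
  · change g' y = g y
    rw [h1 y y.2]
    exact hy

/-- Moving down in the transversal. -/
theorem bb_down (h : Top G le r) {b b1 x : A} (hb : b ∈ h.BB) (hb1 : b1 ∈ h.BB)
    (hle : le b1 b) (hx : Md G le r x b) :
    ∃ x' ∈ orb G x, le x' x ∧ Md G le r x' b1 := by
  by_cases heq : b1 = b
  · subst heq
    exact ⟨x, self_mem_orb G x, h.sys.refl x, hx⟩
  have hso : SO G b1 b := h.sys.same _ _ hle
  by_cases hl : ∃ D, Lk G le r b D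
  · obtain ⟨D, hD⟩ := hl
    obtain ⟨g, hg, hgb⟩ := hso.symm
    have hD1 : Lk G le r b1 (g '' D) := by rw [← hgb]; exact h.lk_inv hD hg
    have hsub := h.lk_mono hD1 hD hle
    have hne : g '' D ≠ D := by
      intro hE
      rw [hE] at hD1
      have := h.rep_eq (Or.inr ⟨D, hD1, hD⟩ : Md G le r b1 b)
      have h3 : h.rep b1 = b1 := hb1
      have h4 : h.rep b = b := hb
      rw [h3, h4] at this
      exact heq this
    have hxD : Lk G le r x D := h.lk_of_md (h.md_symm hx) hD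
    obtain ⟨x', hx', hx'D⟩ := h.lk_surj hxD (h.lk_mem hD1)
    refine ⟨x', hx', h.lk_smono hx'D hxD hx'.symm (hsub.ssubset_of_ne hne), ?_⟩
    exact Or.inr ⟨_, hx'D, hD1⟩
  · have hxb : x = b := by
      rcases hx with h1 | ⟨D, -, h1⟩
      · exact h1
      · exact absurd ⟨D, h1⟩ hl
    subst hxb
    exact ⟨b1, hso.symm, hle, h.md_refl b1⟩

/-- Moving up in the transversal. -/
theorem bb_up (h : Top G le r) {b b1 x : A} (hb : b ∈ h.BB) (hb1 : b1 ∈ h.BB)
    (hle : le b b1) (hx : Md G le r x b) :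
    ∃ x' ∈ orb G x, le x x' ∧ Md G le r x' b1 := by
  by_cases heq : b1 = b
  · subst heq
    exact ⟨x, self_mem_orb G x, h.sys.refl x, hx⟩
  have hso : SO G b b1 := h.sys.same _ _ hle
  by_cases hl : ∃ D, Lk G le r b D
  · obtain ⟨D, hD⟩ := hl
    obtain ⟨g, hg, hgb⟩ := hso
    have hD1 : Lk G le r b1 (g '' D) := by rw [← hgb]; exact h.lk_inv hD hg
    have hsub := h.lk_mono hD hD1 hle
    have hne : D ≠ g '' D := by
      intro hE
      rw [← hE] at hD1
      have := h.rep_eq (Or.inr ⟨D, hD1, hD⟩ : Md G le r b1 b)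
      have h3 : h.rep b1 = b1 := hb1
      have h4 : h.rep b = b := hb
      rw [h3, h4] at this
      exact heq this
    have hxD : Lk G le r x D := h.lk_of_md (h.md_symm hx) hD
    obtain ⟨x', hx', hx'D⟩ := h.lk_surj hxD (h.lk_mem hD1)
    refine ⟨x', hx', h.lk_smono hxD hx'D hx' (hsub.ssubset_of_ne hne), ?_⟩
    exact Or.inr ⟨_, hx'D, hD1⟩
  · have hxb : x = b := by
      rcases hx with h1 | ⟨D, -, h1⟩
      · exact h1
      · exact absurd ⟨D, h1⟩ hl
    subst hxb
    exact ⟨b1, hso, hle, h.md_refl b1⟩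

theorem bb_sys (h : Top G le r) : Sys (ind G h.BB) (leS le h.BB) := by
  classical
  refine h.bb_hom.sys h.sys ?_
  intro θ hθ1 hθ2
  have hex : ∀ b : h.BB, ∃ g : Perm A, g ∈ G ∧ g b = θ b := by
    intro b
    obtain ⟨g, hg, hgb⟩ := ind_so (hθ1 b)
    exact ⟨g, hg, hgb⟩
  choose gg hgg hggb using hex
  let π : A → h.BB := fun x => ⟨h.rep x, h.rep_mem x⟩
  have hπ : ∀ x, (π x : A) = h.rep x := fun x => rfl
  have hπb : ∀ b : h.BB, π b = b := fun b => Subtype.ext b.2
  have hπmd : ∀ x y, Md G le r x y ↔ π x = π y := fun x y => by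
    rw [h.md_iff]
    exact ⟨fun h1 => Subtype.ext h1, fun h1 => congrArg Subtype.val h1⟩
  have hσmd : ∀ x, Md G le r (gg (π x) x) (θ (π x)) := by
    intro x
    rw [← hggb]
    exact h.md_inv (h.md_rep x) (hgg _)
  let σ : Perm A :=
    { toFun := fun x => gg (π x) x
      invFun := fun y => (gg (θ⁻¹ (π y)))⁻¹ y
      left_inv := by
        intro x
        simp only
        have h1 : π (gg (π x) x) = θ (π x) := by
          rw [(hπmd _ _).1 (hσmd x), hπb]
        rw [h1]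
        simp
      right_inv := by
        intro y
        simp only
        have h1 : π ((gg (θ⁻¹ (π y)))⁻¹ y) = θ⁻¹ (π y) := by
          rw [← hπb (θ⁻¹ (π y)), ← hπmd, hπb]
          have h2 : Md G le r y (gg (θ⁻¹ (π y)) (θ⁻¹ (π y))) := by
            rw [hggb, show θ (θ⁻¹ (π y)) = π y by simp]
            exact h.md_rep y
          have h3 := h.md_inv h2 (G.inv_mem (hgg (θ⁻¹ (π y))))
          rw [show (gg (θ⁻¹ (π y)))⁻¹ ((gg (θ⁻¹ (π y))) (θ⁻¹ (π y))) = (θ⁻¹ (π y) : A) by simp] at h3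
          exact h3
        rw [h1]
        simp }
  have hσ : ∀ x, σ x = gg (π x) x := fun x => rfl
  have hso : ∀ x, SO G x (σ x) := fun x => SO.of_mem (hgg _) x
  refine ⟨σ, h.sys.mc σ hso ?_, fun x => ?_⟩
  · intro R hR x y hxy
    rw [hσ, hσ]
    by_cases hm : Md G le r x y
    · rw [← (hπmd x y).1 hm]
      exact hR.inv _ (hgg _) _ _ hxy
    · let S : h.BB → h.BB → Prop := fun b b' =>
        ∃ x1 ∈ orb G x, ∃ y1 ∈ orb G y, Md G le r x1 b ∧ Md G le r y1 b' ∧ R x1 y1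
      have hS : Mono (ind G h.BB) (leS le h.BB) S :=
        { inv := by
            rintro k ⟨g, hg, hgk⟩ b b' ⟨x1, hx1, y1, hy1, h1, h2, h3⟩
            refine ⟨g x1, (h.sys.orb_iff hg x x1).2 hx1, g y1, (h.sys.orb_iff hg y y1).2 hy1,
              ?_, ?_, hR.inv g hg _ _ h3⟩
            · rw [← hgk]; exact h.md_inv h1 hg
            · rw [← hgk]; exact h.md_inv h2 hg
          mono := by
            rintro b1 b b' b1' hb ⟨x1, hx1, y1, hy1, h1, h2, h3⟩ hb'
            obtain ⟨x', hx', hlx, hmx⟩ := h.bb_down b.2 b1.2 hb h1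
            obtain ⟨y', hy', hly, hmy⟩ := h.bb_up b'.2 b1'.2 hb' h2
            exact ⟨x', SO.trans hx1 hx', y', SO.trans hy1 hy', hmx, hmy,
              hR.mono _ _ _ _ hlx h3 hly⟩ }
      have h0 : S (π x) (π y) := ⟨x, self_mem_orb G x, y, self_mem_orb G y, h.md_rep x,
        h.md_rep y, hxy⟩
      obtain ⟨x1, hx1, y1, hy1, h1, h2, h3⟩ := hθ2 S hS _ _ h0
      have hx2 : Md G le r x1 (gg (π x) x) := h.md_trans h1 (h.md_symm (hσmd x))
      have hy2 : Md G le r y1 (gg (π y) y) := h.md_trans h2 (h.md_symm (hσmd y))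
      have hn : ¬ Md G le r x1 y1 := by
        intro h4
        have h5 : Md G le r (θ (π x)) (θ (π y)) := h.md_trans (h.md_symm h1) (h.md_trans h4 h2)
        rw [hπmd, hπb, hπb] at h5
        exact hm ((hπmd x y).2 (θ.injective h5))
      have h4 := h.mod_left hR hx2 ((SO.symm hx1).trans (hso x)) hn h3
      exact h.mod_right hR hy2 ((SO.symm hy1).trans (hso y))
        (fun h5 => hn (h.md_trans hx2 (h.md_symm h5))) h4
  · rw [hσ, hπb]
    exact hggb x

end Top

end Pool.Agent.FinWidth
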