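import Pool.Agent.FinWidth.FinIdx

/-!
# The kernel of the action on the comparability components, and the bounded isolation property
for subgroups of finite index
-/

set_option autoImplicit false

namespace Pool.Agent.FinWidth

open Equiv

variable {A : Type} {H G : Subgroup (Perm A)} {le : A → A → Prop} {X : Set A}

/-- `x` and `y` have a common upper bound. -/
def UB (le : A → A → Prop) (x y : A) : Prop := ∃ u, le x u ∧ le y u

theorem UB.symm {x y : A} (h : UB le x y) : UB le y x := by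
  obtain ⟨u, h1, h2⟩ := h
  exact ⟨u, h2, h1⟩

theorem Sys.ub_refl (h : Sys G le) (x : A) : UB le x x := ⟨x, h.refl x, h.refl x⟩

theorem Sys.cc_of_ub (h : Sys G le) {x y z : A} (hy : y ∈ orb G x) (hyz : UB le y z) :
    CC le (orb G x) y z := by
  obtain ⟨u, h1, h2⟩ := hyz
  exact ⟨u, SO.trans hy (h.same _ _ h1), h1, h2⟩

theorem Sys.so_of_ub (h : Sys G le) {x y : A} (hxy : UB le x y) : SO G x y := by
  obtain ⟨u, h1, h2⟩ := hxy
  exact (h.same _ _ h1).trans (h.same _ _ h2).symm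

theorem CC.ub {x y : A} (h : CC le X x y) : UB le x y := by
  obtain ⟨u, -, h1, h2⟩ := h
  exact ⟨u, h1, h2⟩

theorem Sys.ub_trans (h : Sys G le) (hw : ∀ x, ∃ w, WLE le (orb G x) w) {x y z : A}
    (h1 : UB le x y) (h2 : UB le y z) : UB le x z := by
  have hx : x ∈ orb G x := self_mem_orb G x
  have hy : y ∈ orb G x := h.so_of_ub h1
  have hz : z ∈ orb G x := SO.trans hy (h.so_of_ub h2)
  exact ((h.tr_orb (hw x)).cc_trans hx hy hz (h.cc_of_ub hx h1) (h.cc_of_ub hy h2)).ub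

theorem Sys.ub_inv (h : Sys G le) {g : Perm A} (hg : g ∈ G) {x y : A} (hxy : UB le x y) :
    UB le (g x) (g y) := by
  obtain ⟨u, h1, h2⟩ := hxy
  exact ⟨g u, h.inv g hg _ _ h1, h.inv g hg _ _ h2⟩

/-- The kernel of the action on the components. -/
def kerUB (h : Sys G le) (hw : ∀ x, ∃ w, WLE le (orb G x) w) : Subgroup (Perm A) where
  carrier := {g | g ∈ G ∧ ∀ x, UB le x (g x)}
  one_mem' := ⟨G.one_mem, fun x => h.ub_refl x⟩
  mul_mem' := by
    rintro a b ⟨ha, ha'⟩ ⟨hb, hb'⟩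
    exact ⟨G.mul_mem ha hb, fun x => h.ub_trans hw (hb' x) (ha' (b x))⟩
  inv_mem' := by
    rintro a ⟨ha, ha'⟩
    refine ⟨G.inv_mem ha, fun x => ?_⟩
    have := (ha' (a⁻¹ x)).symm
    simpa using this

theorem Sys.reps (h : Sys G le) : ∃ R : Finset A, ∀ x, ∃ r ∈ R, SO G r x := by
  classical
  obtain ⟨T, hT⟩ := h.pairs
  refine ⟨T.image Prod.fst, fun x => ?_⟩
  obtain ⟨t, ht, g, hg, h1, -⟩ := hT x x
  exact ⟨t.1, Finset.mem_image.2 ⟨t, ht, rfl⟩, g, hg, h1⟩

theorem Sys.ub_reps (h : Sys G le) (hw : ∀ x, ∃ w, WLE le (orb G x) w) :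
    ∃ T : Finset A, ∀ x, ∃ t ∈ T, UB le x t := by
  classical
  obtain ⟨R, hR⟩ := h.reps
  have : ∀ r : A, ∃ F : Finset A, ∀ x ∈ orb G r, ∃ t ∈ F, UB le x t := by
    intro r
    obtain ⟨w, hw'⟩ := hw r
    let Q : ℕ → Prop := fun n => ∃ F : Finset A, (∀ a ∈ F, a ∈ orb G r) ∧
      (∀ a ∈ F, ∀ b ∈ F, UB le a b → a = b) ∧ F.card = n
    have hQb : ∀ n, Q n → n ≤ w := by
      rintro n ⟨F, hFX, hFi, rfl⟩
      exact hw' F hFX (fun a ha b hb hab => hFi a ha b hb ⟨b, hab, h.refl b⟩)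
    have hfin : {n | Q n}.Finite := Set.Finite.subset (Set.finite_Iic w) hQb
    obtain ⟨n, hn⟩ := hfin.exists_maximal ⟨0, ∅, by simp, by simp, rfl⟩
    obtain ⟨F, hFX, hFi, hFc⟩ := hn.1
    refine ⟨F, fun x hx => ?_⟩
    by_contra hcon
    push Not at hcon
    have hxF : x ∉ F := fun hxF => hcon x hxF (h.ub_refl x)
    have hQ : Q (n + 1) := by
      refine ⟨insert x F, ?_, ?_, ?_⟩
      · intro a ha
        rcases Finset.mem_insert.1 ha with h1 | h1
        · rw [h1]; exact hx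
        · exact hFX a h1
      · intro a ha b hb hab
        rcases Finset.mem_insert.1 ha with h1 | h1
        · rcases Finset.mem_insert.1 hb with h2 | h2
          · rw [h1, h2]
          · rw [h1] at hab
            exact absurd hab (hcon b h2)
        · rcases Finset.mem_insert.1 hb with h2 | h2
          · rw [h2] at hab
            exact absurd hab.symm (hcon a h1)
          · exact hFi a h1 b h2 hab
      · rw [Finset.card_insert_of_notMem hxF, hFc]
    have := hn.2 hQ (Nat.le_succ n)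
    omega
  choose F hF using this
  refine ⟨R.biUnion F, fun x => ?_⟩
  obtain ⟨r, hr, hrx⟩ := hR x
  obtain ⟨t, ht, hxt⟩ := hF r x hrx
  exact ⟨t, Finset.mem_biUnion.2 ⟨r, hr, ht⟩, hxt⟩

theorem Sys.kerUB_FI (h : Sys G le) (hw : ∀ x, ∃ w, WLE le (orb G x) w) :
    FI (kerUB h hw) G := by
  classical
  refine ⟨fun g hg => hg.1, ?_⟩
  obtain ⟨T, hT⟩ := h.ub_reps hw
  -- for each map from `T` to `T` choose a group element inducing it
  have : ∀ φ : T → T, ∃ c : Perm A, c ∈ G ∧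
      ((∃ g ∈ G, ∀ t : T, UB le (g t) (φ t)) → ∀ t : T, UB le (c t) (φ t)) := by
    intro φ
    by_cases hex : ∃ g ∈ G, ∀ t : T, UB le (g t) (φ t)
    · obtain ⟨g, hg, hgφ⟩ := hex
      exact ⟨g, hg, fun _ => hgφ⟩
    · exact ⟨1, G.one_mem, fun h' => absurd h' hex⟩
  choose c hcG hc using this
  refine ⟨Finset.univ.image c, ?_, ?_⟩
  · intro k hk
    obtain ⟨φ, -, rfl⟩ := Finset.mem_image.1 hk
    exact hcG φ
  · intro g hg
    have : ∀ t : T, ∃ s : T, UB le (g t) s := by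
      intro t
      obtain ⟨s, hs, hs'⟩ := hT (g t)
      exact ⟨⟨s, hs⟩, hs'⟩
    choose φ hφ using this
    refine ⟨c φ, Finset.mem_image.2 ⟨φ, Finset.mem_univ _, rfl⟩,
      G.mul_mem (G.inv_mem (hcG φ)) hg, fun x => ?_⟩
    have hcφ := hc φ ⟨g, hg, hφ⟩
    obtain ⟨t, ht, hxt⟩ := hT x
    -- g x ~ g t ~ φ t ~ c t ~ c x
    have h1 : UB le (g x) (g t) := h.ub_inv hg hxt
    have h2 : UB le (g t) (φ ⟨t, ht⟩) := hφ ⟨t, ht⟩
    have h3 : UB le (φ ⟨t, ht⟩ : A) (c φ t) := (hcφ ⟨t, ht⟩).symm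
    have h4 : UB le (c φ t) (c φ x) := h.ub_inv (hcG φ) hxt.symm
    have h5 : UB le (g x) (c φ x) :=
      h.ub_trans hw h1 (h.ub_trans hw h2 (h.ub_trans hw h3 h4))
    have h6 := (h.ub_inv (G.inv_mem (hcG φ)) h5).symm
    simpa using h6

theorem Sys.kerUB_sys (h : Sys G le) (hw : ∀ x, ∃ w, WLE le (orb G x) w) :
    Sys (kerUB h hw) (leH (kerUB h hw) le) := by
  refine (h.kerUB_FI hw).sys h ?_
  intro g hg hx
  refine ⟨hg, fun x => ?_⟩
  obtain ⟨k, hk, hkx⟩ := hx x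
  rw [← hkx]
  exact hk.2 x

/-- The orbits of the kernel are connected or have smaller width than a disconnected orbit. -/
theorem Sys.kerUB_orb (h : Sys G le) (hw : ∀ x, ∃ w, WLE le (orb G x) w) (x : A) {d : ℕ}
    (hd : (∀ y ∈ orb G x, UB le x y) ∨ WLE le (orb G x) (d + 1)) :
    (∀ y ∈ orb (kerUB h hw) x, UB (leH (kerUB h hw) le) x y) ∨
      WLE (leH (kerUB h hw) le) (orb (kerUB h hw) x) d := by
  classical
  by_cases hcc : ∀ y ∈ orb G x, UB le x y
  · left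
    intro y hy
    have hccX : ∀ y ∈ orb G x, ∀ z ∈ orb G x, CC le (orb G x) y z := by
      intro y hy z hz
      exact h.cc_of_ub hy (h.ub_trans hw (hcc y hy).symm (hcc z hz))
    exact ((h.kerUB_FI hw).cc h (hw x) hccX x (self_mem_orb _ x) y hy).ub
  · right
    have hd' : WLE le (orb G x) (d + 1) := hd.resolve_left hcc
    push Not at hcc
    obtain ⟨y, hy, hxy⟩ := hcc
    intro F h1 h2
    have hFub : ∀ a ∈ F, UB le x a := by
      intro a ha
      obtain ⟨k, hk, rfl⟩ := h1 a ha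
      exact hk.2 x
    have hya : ∀ a ∈ F, ¬ UB le a y := fun a ha h' => hxy (h.ub_trans hw (hFub a ha) h')
    have hyF : y ∉ F := fun hyF => hya y hyF (h.ub_refl y)
    have h3 := hd' (insert y F) (by
      intro a ha
      rcases Finset.mem_insert.1 ha with h4 | h4
      · rw [h4]; exact hy
      · exact SO.mono (h.kerUB_FI hw).1 (h1 a h4)) (by
      intro a ha b hb hab
      rcases Finset.mem_insert.1 ha with h4 | h4
      · rcases Finset.mem_insert.1 hb with h5 | h5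
        · rw [h4, h5]
        · rw [h4] at hab
          exact absurd ⟨b, h.refl b, hab⟩ (hya b h5)
      · rcases Finset.mem_insert.1 hb with h5 | h5
        · rw [h5] at hab
          exact absurd ⟨y, hab, h.refl y⟩ (hya a h4)
        · exact h2 a h4 b h5 ⟨hab, (SO.symm (h1 a h4)).trans (h1 b h5)⟩)
    rw [Finset.card_insert_of_notMem hyF] at h3
    omega

/-- The group is `N + 1`-ary. -/
theorem BIP_ary {N : ℕ} (hN : ∀ (F : Finset A) (a : A), ∃ F' : Finset A, F' ⊆ F ∧ F'.card ≤ N ∧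
    ∀ g ∈ H, (∀ f ∈ F', g f = f) → ∃ h ∈ H, (∀ f ∈ F, h f = f) ∧ h a = g a)
    (φ : A → A) (F : Finset A)
    (hF : ∀ F' : Finset A, F' ⊆ F → F'.card ≤ N + 1 → ∃ h ∈ H, ∀ f ∈ F', h f = φ f) :
    ∃ h ∈ H, ∀ f ∈ F, h f = φ f := by
  classical
  induction F using Finset.induction_on with
  | empty => exact ⟨1, H.one_mem, by simp⟩
  | insert a F haF ih =>
    obtain ⟨h0, hh0, h0F⟩ := ih (fun F' hF' hc => hF F' (hF'.trans (Finset.subset_insert _ _)) hc)
    obtain ⟨F', hF', hFc, hiso⟩ := hN F a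
    obtain ⟨h1, hh1, h1F⟩ := hF (insert a F') (Finset.insert_subset_insert _ hF')
      ((Finset.card_insert_le _ _).trans (by omega))
    obtain ⟨k, hk, hkF, hka⟩ := hiso (h0⁻¹ * h1) (H.mul_mem (H.inv_mem hh0) hh1) (by
      intro f hf
      rw [Perm.mul_apply, h1F f (Finset.mem_insert_of_mem hf), ← h0F f (hF' hf)]
      simp)
    refine ⟨h0 * k, H.mul_mem hh0 hk, fun f hf => ?_⟩
    rcases Finset.mem_insert.1 hf with h2 | h2
    · rw [h2, Perm.mul_apply, hka, Perm.mul_apply]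
      have := h1F a (Finset.mem_insert_self _ _)
      rw [← this]
      simp
    · rw [Perm.mul_apply, hkF f h2, h0F f h2]

/-- L5 -/
theorem FI.bip (hFI : FI H G) (hB : BIP H) : BIP G := by
  classical
  obtain ⟨N, hN⟩ := hB
  obtain ⟨hHG, C, hC, hC'⟩ := hFI
  refine ⟨C.card * (N + 1) + N, fun F a => ?_⟩
  have hbad : ∀ c : Perm A, ∃ F' : Finset A, F' ⊆ F ∧ F'.card ≤ N + 1 ∧
      ((∃ k ∈ H, ∀ f ∈ F', k f = c⁻¹ f) → ∃ k ∈ H, ∀ f ∈ F, k f = c⁻¹ f) := by
    intro c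
    by_cases hc : ∃ k ∈ H, ∀ f ∈ F, k f = c⁻¹ f
    · exact ⟨∅, by simp, by simp, fun _ => hc⟩
    · have : ¬ ∀ F' : Finset A, F' ⊆ F → F'.card ≤ N + 1 → ∃ k ∈ H, ∀ f ∈ F', k f = c⁻¹ f :=
        fun h' => hc (BIP_ary hN _ F h')
      push Not at this
      obtain ⟨F', h1, h2, h3⟩ := this
      refine ⟨F', h1, h2, ?_⟩
      rintro ⟨k, hk, hk'⟩
      obtain ⟨f, hf, hne⟩ := h3 k hk
      exact absurd (hk' f hf) hne
  choose Fc hFc1 hFc2 hFc3 using hbad
  obtain ⟨F2, hF2, hF2c, hiso⟩ := hN F a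
  refine ⟨C.biUnion Fc ∪ F2, ?_, ?_, ?_⟩
  · apply Finset.union_subset _ hF2
    intro x hx
    obtain ⟨c, -, hc⟩ := Finset.mem_biUnion.1 hx
    exact hFc1 c hc
  · refine (Finset.card_union_le _ _).trans (Nat.add_le_add ?_ hF2c)
    exact (Finset.card_biUnion_le).trans (Finset.sum_le_card_nsmul _ _ _ (fun c _ => hFc2 c))
  · intro g hg hgF
    obtain ⟨c, hc, hcg⟩ := hC' g hg
    obtain ⟨k, hk, hkF⟩ := hFc3 c ⟨c⁻¹ * g, hcg, fun f hf => by
      rw [Perm.mul_apply, hgF f (Finset.mem_union_left _ (Finset.mem_biUnion.2 ⟨c, hc, hf⟩))]⟩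
    -- g1 = c * k fixes F
    have hg1 : ∀ f ∈ F, (c * k) f = f := by
      intro f hf
      rw [Perm.mul_apply, hkF f hf]
      simp
    have hg1G : c * k ∈ G := G.mul_mem (hC c hc) (hHG hk)
    have hmem : (c * k)⁻¹ * g ∈ H := by
      have : (c * k)⁻¹ * g = k⁻¹ * (c⁻¹ * g) := by group
      rw [this]
      exact H.mul_mem (H.inv_mem hk) hcg
    obtain ⟨m, hm, hmF, hma⟩ := hiso ((c * k)⁻¹ * g) hmem (by
      intro f hf
      rw [Perm.mul_apply, hgF f (Finset.mem_union_right _ hf)]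
      have := hg1 f (hF2 hf)
      conv_lhs => rw [← this]
      simp)
    refine ⟨c * k * m, G.mul_mem hg1G (hHG hm), fun f hf => ?_, ?_⟩
    · rw [Perm.mul_apply, hmF f hf, hg1 f hf]
    · rw [Perm.mul_apply, hma, ← Perm.mul_apply]
      simp

end Pool.Agent.FinWidth
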