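import Pool.Agent.FinWidth.Unique
import Pool.Agent.FinWidth.Base

/-!
# The modules attached to a wide orbit of the coarsest level
-/

set_option autoImplicit false

namespace Pool.Agent.FinWidth

open Equiv

variable {A : Type} {G : Subgroup (Perm A)} {le : A → A → Prop}

/-- There is an equivariant monotone map, not injective, from the linear order of `r` to that
of `r'`. -/
def Below (G : Subgroup (Perm A)) (le : A → A → Prop) (r r' : A) : Prop :=
  ∃ h : Set A → Set A, (∀ D ∈ Ix G le r, h D ∈ Ix G le r') ∧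
    (∀ g ∈ G, ∀ D ∈ Ix G le r, h (g '' D) = g '' h D) ∧
    (∀ D ∈ Ix G le r, ∀ E ∈ Ix G le r, D ⊆ E → h D ⊆ h E) ∧
    ∃ D ∈ Ix G le r, ∃ E ∈ Ix G le r, D ≠ E ∧ h D = h E

theorem Below.trans {r r' r'' : A} (h1 : Below G le r r') (h2 : Below G le r' r'') :
    Below G le r r'' := by
  obtain ⟨h, a1, a2, a3, D, hD, E, hE, hne, heq⟩ := h1
  obtain ⟨k, b1, b2, b3, -⟩ := h2
  refine ⟨fun D => k (h D), fun D hD => b1 _ (a1 D hD), fun g hg D hD => ?_,
    fun D hD E hE hDE => b3 _ (a1 D hD) _ (a1 E hE) (a3 D hD E hE hDE), D, hD, E, hE, hne, ?_⟩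
  · simp only
    rw [a2 g hg D hD, b2 g hg _ (a1 D hD)]
  · simp only
    rw [heq]

theorem Below.irrefl (h : Sys G le) (hw : ∀ x, ∃ w, WLE le (orb G x) w) {r : A} :
    ¬ Below G le r r := by
  rintro ⟨k, a1, a2, a3, D, hD, E, hE, hne, heq⟩
  have hid : ∀ D ∈ Ix G le r, k D = D := by
    rintro _ ⟨z, hz, rfl⟩
    obtain ⟨w, hw'⟩ := hw z
    have hEM : EM G le r z (fun x => k (low G le x)) :=
      { mem := fun x hx => a1 _ ⟨x, SO.trans hz hx, rfl⟩
        eqv := fun g hg x hx => by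
          rw [h.low_inv hg, a2 g hg _ ⟨x, SO.trans hz hx, rfl⟩]
        mono := fun x hx y hy hxy =>
          a3 _ ⟨x, SO.trans hz hx, rfl⟩ _ ⟨y, SO.trans hz hy, rfl⟩ (h.low_mono hxy) }
    exact h.unique hw' hEM (h.low_em hz)
  exact hne (by rw [← hid D hD, heq, hid E hE])

theorem ix_congr {r r' : A} (h : SO G r r') : Ix G le r' = Ix G le r := by
  unfold Ix
  rw [orb_eq h]

/-- Selection of a wide orbit of the coarsest level. -/
theorem Sys.exists_top (h : Sys G le) (hw : ∀ x, ∃ w, WLE le (orb G x) w)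
    (hex : ∃ x, ¬ WLE le (orb G x) 1) :
    ∃ r, ¬ WLE le (orb G r) 1 ∧ ∀ r', ¬ WLE le (orb G r') 1 → ¬ Below G le r r' := by
  classical
  obtain ⟨R, hR⟩ := h.reps
  obtain ⟨x, hx⟩ := hex
  let S := {r : A // r ∈ R ∧ ¬ WLE le (orb G r) 1}
  have hfin : Finite S := by
    refine Set.Finite.to_subtype (s := {r | r ∈ R ∧ ¬ WLE le (orb G r) 1}) ?_
    exact Set.Finite.subset R.finite_toSet (fun r hr => hr.1)
  let rel : S → S → Prop := fun a b => Below G le b.1 a.1
  have htrans : IsTrans S rel := ⟨fun a b c h1 h2 => Below.trans h2 h1⟩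
  have hirr : Std.Irrefl rel := ⟨fun a => Below.irrefl h hw⟩
  have hwf : WellFounded rel := Finite.wellFounded_of_trans_of_irrefl rel
  obtain ⟨r0, hr0, hr0x⟩ := hR x
  have hr0w : ¬ WLE le (orb G r0) 1 := by rw [← orb_eq hr0x]; exact hx
  obtain ⟨m, -, hm⟩ := hwf.has_min (Set.univ : Set S) ⟨⟨r0, hr0, hr0w⟩, trivial⟩
  refine ⟨m.1, m.2.2, fun r' hr' hb => ?_⟩
  obtain ⟨s, hs, hsr'⟩ := hR r'
  have hsw : ¬ WLE le (orb G s) 1 := by rw [← orb_eq hsr']; exact hr'
  refine hm ⟨s, hs, hsw⟩ trivial ?_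
  change Below G le m.1 s
  unfold Below at hb ⊢
  rw [ix_congr hsr'] at hb
  exact hb

/-- The hypotheses on the chosen orbit. -/
structure Top (G : Subgroup (Perm A)) (le : A → A → Prop) (r : A) : Prop where
  sys : Sys G le
  width : ∀ x, ∃ w, WLE le (orb G x) w
  wide : ¬ WLE le (orb G r) 1
  top : ∀ r', ¬ WLE le (orb G r') 1 → ¬ Below G le r r'

/-- L8: equivariant monotone maps are strongly monotone. -/
theorem Top.smono {r : A} (h : Top G le r) {z0 : A} {l : A → Set A} (hl : EM G le r z0 l)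
    {z z' : A} (hz : z ∈ orb G z0) (hz' : z' ∈ orb G z0) (hlt : l z ⊂ l z') : le z z' := by
  classical
  by_contra hc
  have hc' : ¬ le z' z := fun h' => hlt.2 (hl.mono _ hz' _ hz h')
  have hso : SO G z z' := (SO.symm hz).trans hz'
  have hlow : low G le z = low G le z' := by
    apply Set.Subset.antisymm
    · by_contra h1
      exact hc' (le_of_low_not_subset hso.symm h1)
    · by_contra h1
      exact hc (le_of_low_not_subset hso h1)
  have hne : z ≠ z' := by
    rintro rfl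
    exact hc (h.sys.refl _)
  have hwide : ¬ WLE le (orb G z0) 1 := by
    intro hw
    have := hw {z, z'} (by
      intro x hx
      rcases Finset.mem_insert.1 hx with h1 | h1
      · rw [h1]; exact hz
      · rw [Finset.mem_singleton.1 h1]; exact hz') (by
      intro x hx y hy hxy
      rcases Finset.mem_insert.1 hx with h1 | h1
      · rcases Finset.mem_insert.1 hy with h2 | h2
        · rw [h1, h2]
        · rw [h1, Finset.mem_singleton.1 h2] at hxy
          exact absurd hxy hc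
      · rcases Finset.mem_insert.1 hy with h2 | h2
        · rw [h2, Finset.mem_singleton.1 h1] at hxy
          exact absurd hxy hc'
        · rw [Finset.mem_singleton.1 h1, Finset.mem_singleton.1 h2])
    rw [Finset.card_pair hne] at this
    omega
  -- values of `l` determine values of `low`
  have haux : ∀ a ∈ orb G z0, ∀ b ∈ orb G z0, l a = l b → low G le b ⊆ low G le a := by
    intro a ha b hb hab
    by_contra hn
    obtain ⟨g, hg, hga⟩ := (SO.symm hz).trans ha
    have hgz' : g z' ∈ orb G z0 := (h.sys.orb_iff hg z0 z').2 hz'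
    have h1 : low G le (g z') = low G le a := by
      rw [h.sys.low_inv hg, ← hlow, ← h.sys.low_inv hg, hga]
    have h2 : le (g z') b := by
      refine le_of_low_not_subset ((SO.symm hgz').trans hb) ?_
      rw [h1]
      exact hn
    have h3 := hl.mono _ hgz' _ hb h2
    rw [← hab, ← hga, hl.eqv g hg z' hz', hl.eqv g hg z hz] at h3
    exact hlt.2 ((Set.image_subset_image_iff g.injective).1 h3)
  have hdet : ∀ a ∈ orb G z0, ∀ b ∈ orb G z0, l a = l b → low G le a = low G le b :=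
    fun a ha b hb hab => Set.Subset.antisymm (haux b hb a ha hab.symm) (haux a ha b hb hab)
  have hsurj : ∀ D ∈ Ix G le r, ∃ a ∈ orb G z0, l a = D := by
    intro D hD
    obtain ⟨g, hg, hgD⟩ := h.sys.ix_tr (hl.mem z hz) hD
    exact ⟨g z, (h.sys.orb_iff hg z0 z).2 hz, by rw [hl.eqv g hg z hz, hgD]⟩
  have hch : ∀ D : Set A, ∃ E : Set A, ∀ a ∈ orb G z0, l a = D → low G le a = E := by
    intro D
    by_cases hD : ∃ a ∈ orb G z0, l a = D
    · obtain ⟨a, ha, rfl⟩ := hD
      exact ⟨low G le a, fun b hb hab => hdet b hb a ha hab⟩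
    · exact ⟨∅, fun a ha hab => absurd ⟨a, ha, hab⟩ hD⟩
  choose k hk using hch
  have hk' : ∀ a ∈ orb G z0, k (l a) = low G le a := fun a ha => (hk (l a) a ha rfl).symm
  refine h.top z0 hwide ⟨k, ?_, ?_, ?_, l z, hl.mem z hz, l z', hl.mem z' hz', ?_, ?_⟩
  · intro D hD
    obtain ⟨a, ha, rfl⟩ := hsurj D hD
    rw [hk' a ha]
    exact ⟨a, ha, rfl⟩
  · intro g hg D hD
    obtain ⟨a, ha, rfl⟩ := hsurj D hD
    rw [← hl.eqv g hg a ha, hk' _ ((h.sys.orb_iff hg z0 a).2 ha), hk' a ha, h.sys.low_inv hg]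
  · intro D hD E hE hDE
    obtain ⟨a, ha, rfl⟩ := hsurj D hD
    obtain ⟨b, hb, rfl⟩ := hsurj E hE
    rw [hk' a ha, hk' b hb]
    by_contra hn
    have h1 : le b a := le_of_low_not_subset ((SO.symm hb).trans ha) hn
    have h2 := hl.mono _ hb _ ha h1
    exact hn (by rw [hdet a ha b hb (Set.Subset.antisymm hDE h2)])
  · exact hlt.ne
  · rw [hk' z hz, hk' z' hz', hlow]

/-- `x` is linked to the point `D` of the linear order of `r`. -/
def Lk (G : Subgroup (Perm A)) (le : A → A → Prop) (r x : A) (D : Set A) : Prop :=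
  ∃ l, EM G le r x l ∧ l x = D

namespace Top

variable {r : A}

theorem lk_unique (h : Top G le r) {x : A} {D E : Set A} (h1 : Lk G le r x D)
    (h2 : Lk G le r x E) : D = E := by
  obtain ⟨l, hl, rfl⟩ := h1
  obtain ⟨l', hl', rfl⟩ := h2
  obtain ⟨w, hw⟩ := h.width x
  exact h.sys.unique hw hl hl'

theorem lk_inv (_h : Top G le r) {x : A} {D : Set A} (h1 : Lk G le r x D) {g : Perm A}
    (hg : g ∈ G) : Lk G le r (g x) (g '' D) := by
  obtain ⟨l, hl, rfl⟩ := h1
  exact ⟨l, hl.move (SO.of_mem hg x), hl.eqv g hg x (self_mem_orb G x)⟩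

theorem lk_inv_iff (h : Top G le r) {x : A} {D : Set A} {g : Perm A}
    (hg : g ∈ G) : Lk G le r (g x) (g '' D) ↔ Lk G le r x D := by
  refine ⟨fun h1 => ?_, fun h1 => h.lk_inv h1 hg⟩
  have := h.lk_inv h1 (G.inv_mem hg)
  rw [im_inv_im] at this
  simpa using this

theorem lk_mem (_h : Top G le r) {x : A} {D : Set A} (h1 : Lk G le r x D) : D ∈ Ix G le r := by
  obtain ⟨l, hl, rfl⟩ := h1
  exact hl.mem x (self_mem_orb G x)

theorem lk_low (h : Top G le r) {x : A} (hx : x ∈ orb G r) : Lk G le r x (low G le x) :=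
  ⟨low G le, h.sys.low_em hx, rfl⟩

theorem lk_surj (h : Top G le r) {x : A} {D E : Set A} (h1 : Lk G le r x D)
    (hE : E ∈ Ix G le r) : ∃ y ∈ orb G x, Lk G le r y E := by
  obtain ⟨g, hg, hgE⟩ := h.sys.ix_tr (h.lk_mem h1) hE
  refine ⟨g x, SO.of_mem hg x, ?_⟩
  rw [← hgE]
  exact h.lk_inv h1 hg

theorem lk_mono (h : Top G le r) {x y : A} {D E : Set A} (h1 : Lk G le r x D)
    (h2 : Lk G le r y E) (hxy : le x y) : D ⊆ E := by
  obtain ⟨l, hl, rfl⟩ := h1
  have hy : y ∈ orb G x := h.sys.same _ _ hxy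
  have h3 : Lk G le r y (l y) := ⟨l, hl.move hy, rfl⟩
  rw [← h.lk_unique h3 h2]
  exact hl.mono _ (self_mem_orb G x) _ hy hxy

theorem lk_smono (h : Top G le r) {x y : A} {D E : Set A} (h1 : Lk G le r x D)
    (h2 : Lk G le r y E) (hxy : SO G x y) (hDE : D ⊂ E) : le x y := by
  obtain ⟨l, hl, rfl⟩ := h1
  have h3 : Lk G le r y (l y) := ⟨l, hl.move hxy, rfl⟩
  have h4 := h.lk_unique h3 h2
  exact h.smono hl (self_mem_orb G x) hxy (by rw [h4]; exact hDE)

end Top

/-- The module equivalence relation. -/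
def Md (G : Subgroup (Perm A)) (le : A → A → Prop) (r x y : A) : Prop :=
  x = y ∨ ∃ D, Lk G le r x D ∧ Lk G le r y D

namespace Top

variable {r : A}

theorem md_refl (_h : Top G le r) (x : A) : Md G le r x x := Or.inl rfl

theorem md_symm (_h : Top G le r) {x y : A} (h1 : Md G le r x y) : Md G le r y x := by
  rcases h1 with h1 | ⟨D, h1, h2⟩
  · exact Or.inl h1.symm
  · exact Or.inr ⟨D, h2, h1⟩

theorem md_trans (h : Top G le r) {x y z : A} (h1 : Md G le r x y) (h2 : Md G le r y z) :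
    Md G le r x z := by
  rcases h1 with rfl | ⟨D, h1, h1'⟩
  · exact h2
  · rcases h2 with rfl | ⟨E, h2, h2'⟩
    · exact Or.inr ⟨D, h1, h1'⟩
    · have := h.lk_unique h1' h2
      subst this
      exact Or.inr ⟨D, h1, h2'⟩

theorem md_inv (h : Top G le r) {x y : A} (h1 : Md G le r x y) {g : Perm A} (hg : g ∈ G) :
    Md G le r (g x) (g y) := by
  rcases h1 with rfl | ⟨D, h1, h2⟩
  · exact Or.inl rfl
  · exact Or.inr ⟨g '' D, h.lk_inv h1 hg, h.lk_inv h2 hg⟩

theorem md_inv_iff (h : Top G le r) {x y : A} {g : Perm A} (hg : g ∈ G) :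
    Md G le r (g x) (g y) ↔ Md G le r x y := by
  refine ⟨fun h1 => ?_, fun h1 => h.md_inv h1 hg⟩
  have := h.md_inv h1 (G.inv_mem hg)
  simpa using this

theorem lk_of_md (h : Top G le r) {x y : A} {D : Set A} (h1 : Md G le r x y)
    (h2 : Lk G le r x D) : Lk G le r y D := by
  rcases h1 with rfl | ⟨E, h3, h4⟩
  · exact h2
  · rw [h.lk_unique h2 h3]
    exact h4

/-- The module property, right side. -/
theorem mod_right (h : Top G le r) {R : A → A → Prop} (hR : Mono G le R) {x x' y : A}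
    (hxx' : Md G le r x x') (hso : SO G x x') (hy : ¬ Md G le r x y) (hyx : R y x) : R y x' := by
  rcases hxx' with rfl | ⟨D, hD, hD'⟩
  · exact hyx
  by_contra hn
  let P : A → Set A → Prop := fun z E => ∃ x1 ∈ orb G x, ∃ x2 ∈ orb G x,
    Lk G le r x1 E ∧ Lk G le r x2 E ∧ R z x1 ∧ ¬ R z x2
  have hPy : P y D := ⟨x, self_mem_orb G x, x', hso, hD, hD', hyx, hn⟩
  have hPinv : ∀ g ∈ G, ∀ z E, P z E → P (g z) (g '' E) := by
    rintro g hg z E ⟨x1, hx1, x2, hx2, h1, h2, h3, h4⟩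
    exact ⟨g x1, (h.sys.orb_iff hg x x1).2 hx1, g x2, (h.sys.orb_iff hg x x2).2 hx2,
      h.lk_inv h1 hg, h.lk_inv h2 hg, hR.inv g hg _ _ h3, fun h5 => h4 ((hR.inv_iff hg _ _).1 h5)⟩
  have hPlt : ∀ z z', le z z' → ∀ E E', P z E → P z' E' → ¬ E' ⊂ E := by
    rintro z z' hzz' E E' ⟨x1, hx1, x2, hx2, h1, h2, h3, h4⟩ ⟨y1, hy1, y2, hy2, k1, k2, k3, k4⟩ hlt
    -- Lk y1 E', R z' y1, Lk x2 E, ¬ R z x2, E' < E
    have h5 : le y1 x2 := h.lk_smono k1 h2 ((SO.symm hy1).trans hx2) hlt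
    exact h4 (hR.mono _ _ _ _ hzz' k3 h5)
  have hPmem : ∀ z E, P z E → E ∈ Ix G le r := by
    rintro z E ⟨x1, -, x2, -, h1, -⟩
    exact h.lk_mem h1
  have hPle : ∀ z z', le z z' → ∀ E E', P z E → P z' E' → E ⊆ E' := by
    intro z z' hzz' E E' h1 h2
    rcases h.sys.ix_total (hPmem z E h1) (hPmem z' E' h2) with h3 | h3
    · exact h3
    · by_contra h4
      exact hPlt z z' hzz' E E' h1 h2 ⟨h3, h4⟩
  have hPuniq : ∀ z E E', P z E → P z E' → E = E' := fun z E E' h1 h2 =>
    Set.Subset.antisymm (hPle z z (h.sys.refl z) E E' h1 h2)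
      (hPle z z (h.sys.refl z) E' E h2 h1)
  let μ : A → Set A := fun z => {w | ∃ E, P z E ∧ w ∈ E}
  have hμ : ∀ z E, P z E → μ z = E := by
    intro z E hE
    ext w
    constructor
    · rintro ⟨E', hE', hw⟩
      rwa [hPuniq z E E' hE hE']
    · intro hw
      exact ⟨E, hE, hw⟩
  have hPex : ∀ z ∈ orb G y, ∃ E, P z E := by
    rintro _ ⟨g, hg, rfl⟩
    exact ⟨_, hPinv g hg y D hPy⟩
  have hEM : EM G le r y μ :=
    { mem := by
        intro z hz
        obtain ⟨E, hE⟩ := hPex z hz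
        rw [hμ z E hE]
        exact hPmem z E hE
      eqv := by
        intro g hg z hz
        obtain ⟨E, hE⟩ := hPex z hz
        rw [hμ z E hE, hμ _ _ (hPinv g hg z E hE)]
      mono := by
        intro z hz z' hz' hzz'
        obtain ⟨E, hE⟩ := hPex z hz
        obtain ⟨E', hE'⟩ := hPex z' hz'
        rw [hμ z E hE, hμ z' E' hE']
        exact hPle z z' hzz' E E' hE hE' }
  have hLk : Lk G le r y D := ⟨μ, hEM, hμ y D hPy⟩
  exact hy (Or.inr ⟨D, hD, hLk⟩)

/-- The module property, left side. -/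
theorem mod_left (h : Top G le r) {R : A → A → Prop} (hR : Mono G le R) {x x' y : A}
    (hxx' : Md G le r x x') (hso : SO G x x') (hy : ¬ Md G le r x y) (hxy : R x y) : R x' y := by
  by_contra hn
  have hy' : ¬ Md G le r x' y := fun h' => hy (h.md_trans hxx' h')
  exact h.mod_right hR.dual (h.md_symm hxx') hso.symm hy' hn hxy

/-- Gluing. -/
theorem glue (h : Top G le r) (k : A → Perm A) (hk : ∀ x, k x ∈ G)
    (hk1 : ∀ x y, Md G le r x y → k x = k y) (hk2 : ∀ x, Md G le r x (k x x)) :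
    ∃ κ ∈ G, ∀ x, κ x = k x x := by
  let κ : Perm A :=
    { toFun := fun x => k x x
      invFun := fun y => (k y)⁻¹ y
      left_inv := by
        intro x
        simp only
        rw [← hk1 x _ (hk2 x)]
        simp
      right_inv := by
        intro y
        simp only
        have h1 : Md G le r ((k y)⁻¹ y) y := by
          have := h.md_inv (hk2 y) (G.inv_mem (hk y))
          simpa using this
        rw [hk1 _ _ h1]
        simp }
  have hκ : ∀ x, κ x = k x x := fun x => rfl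
  refine ⟨κ, h.sys.mc κ (fun x => by rw [hκ]; exact SO.of_mem (hk x) x) ?_, hκ⟩
  intro R hR x y hxy
  rw [hκ, hκ]
  by_cases hm : Md G le r x y
  · rw [← hk1 x y hm]
    exact hR.inv _ (hk x) _ _ hxy
  · have h1 := h.mod_left hR (hk2 x) (SO.of_mem (hk x) x) hm hxy
    refine h.mod_right hR (hk2 y) (SO.of_mem (hk y) y) ?_ h1
    intro h2
    exact hm (h.md_trans (hk2 x) (h.md_symm h2))

end Top

end Pool.Agent.FinWidth
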