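import Pool.Agent.FinWidth.BackForth

/-!
# Types of tuples, atomic tuples and homogeneity
-/

set_option autoImplicit false

open FirstOrder FirstOrder.Language

namespace Pool.Agent.FinWidth

variable {L : FirstOrder.Language.{0, 0}}

/-- Two tuples have the same type. -/
def ST (L : FirstOrder.Language.{0, 0}) {M N : Type} [L.Structure M] [L.Structure N] {α : Type}
    (v : α → M) (u : α → N) : Prop := ∀ φ : L.Formula α, φ.Realize v ↔ φ.Realize u

/-- A tuple is atomic if its type is determined by one formula. -/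
def Atm (L : FirstOrder.Language.{0, 0}) {M : Type} [L.Structure M] {α : Type} (v : α → M) : Prop :=
  ∃ θ : L.Formula α, θ.Realize v ∧ ∀ u : α → M, θ.Realize u → ST L v u

variable {M N P : Type} [L.Structure M] [L.Structure N] [L.Structure P]

theorem ST.refl {α : Type} (v : α → M) : ST L v v := fun _ => Iff.rfl

theorem ST.symm {α : Type} {v : α → M} {u : α → N} (h : ST L v u) : ST L u v :=
  fun φ => (h φ).symm

theorem ST.trans {α : Type} {v : α → M} {u : α → N} {w : α → P} (h : ST L v u)
    (h' : ST L u w) : ST L v w := fun φ => (h φ).trans (h' φ)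

theorem ST.comp {α β : Type} {v : α → M} {u : α → N} (h : ST L v u) (s : β → α) :
    ST L (v ∘ s) (u ∘ s) := by
  intro φ
  have := h (φ.relabel s)
  simpa only [Formula.realize_relabel] using this

/-- Quantification of the first variable. -/
noncomputable def exF {n : ℕ} (θ : L.Formula (Fin (n + 1))) : L.Formula (Fin n) :=
  (θ.relabel (Fin.cons (Sum.inr ()) Sum.inl : Fin (n + 1) → Fin n ⊕ Unit)).iExs Unit

theorem realize_exF {n : ℕ} (θ : L.Formula (Fin (n + 1))) (v : Fin n → M) :
    (exF θ).Realize v ↔ ∃ a, θ.Realize (Fin.cons a v : Fin (n + 1) → M) := by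
  have key : ∀ i : Unit → M,
      (Sum.elim v i ∘ (Fin.cons (Sum.inr ()) Sum.inl : Fin (n + 1) → Fin n ⊕ Unit)) =
        (Fin.cons (i ()) v : Fin (n + 1) → M) := by
    intro i
    funext j
    refine Fin.cases ?_ (fun j => ?_) j <;> simp
  simp only [exF, Formula.realize_iExs, Formula.realize_relabel, key]
  constructor
  · rintro ⟨i, hi⟩
    exact ⟨i (), hi⟩
  · rintro ⟨a, ha⟩
    exact ⟨fun _ => a, ha⟩

theorem Atm.of_st {α : Type} {v u : α → M} (h : Atm L v) (hs : ST L v u) : Atm L u := by
  obtain ⟨θ, h1, h2⟩ := h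
  exact ⟨θ, (hs θ).1 h1, fun w hw => hs.symm.trans (h2 w hw)⟩

/-- Extension of an elementary correspondence by one point. -/
theorem ST.extend {n : ℕ} {v : Fin n → M} {u : Fin n → M} (h : ST L v u) (a : M)
    (ha : Atm L (Fin.cons a v : Fin (n + 1) → M)) :
    ∃ b : M, ST L (Fin.cons a v : Fin (n + 1) → M) (Fin.cons b u : Fin (n + 1) → M) := by
  obtain ⟨θ, h1, h2⟩ := ha
  have h3 : (exF θ).Realize u := (h (exF θ)).1 ((realize_exF θ v).2 ⟨a, h1⟩)
  obtain ⟨b, hb⟩ := (realize_exF θ u).1 h3
  exact ⟨b, h2 _ hb⟩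

/-- If every value of a tuple is a value of `v`, the tuple is a substitution instance. -/
theorem Atm.comp {n k : ℕ} {v : Fin n → M} (h : Atm L v) (s : Fin k → Fin n) :
    Atm L (v ∘ s) := by
  obtain ⟨θ, h1, h2⟩ := h
  -- the formula: there is a tuple `w` satisfying `θ` with `w ∘ s` the given tuple
  let χ : L.Formula (Fin k ⊕ Fin n) :=
    θ.relabel Sum.inr ⊓ Formula.iInf (fun i : Fin k =>
      Term.equal (Term.var (Sum.inl i)) (Term.var (Sum.inr (s i))))
  have hχ : ∀ u : Fin k → M, (χ.iExs (Fin n)).Realize u ↔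
      ∃ w : Fin n → M, θ.Realize w ∧ u = w ∘ s := by
    intro u
    simp only [Formula.realize_iExs, χ, Formula.realize_inf, Formula.realize_relabel,
      Formula.realize_iInf, Formula.realize_equal, Term.realize_var, Sum.elim_inl, Sum.elim_inr]
    refine exists_congr fun w => ?_
    have : (Sum.elim u w ∘ Sum.inr : Fin n → M) = w := by funext i; simp
    rw [this]
    exact and_congr Iff.rfl ⟨fun h => funext h, fun h i => congrFun h i⟩
  refine ⟨χ.iExs (Fin n), (hχ _).2 ⟨v, h1, rfl⟩, ?_⟩
  intro u hu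
  obtain ⟨w, hw, rfl⟩ := (hχ u).1 hu
  exact (h2 w hw).comp s

section Homog

variable [L.IsRelational] [Countable M]

/-- Tuples of the same type are conjugate. -/
theorem homog (hatm : ∀ (n : ℕ) (v : Fin n → M), Atm L v) {n : ℕ} (v u : Fin n → M)
    (h : ST L v u) : ∃ g : M ≃[L] M, ∀ i, g (v i) = u i := by
  classical
  let good : List (M × M) → Prop := fun l =>
    ∀ (k : ℕ) (t : Fin k → M × M), (∀ i, t i ∈ l) → ST L (Prod.fst ∘ t) (Prod.snd ∘ t)
  have hgood : ∀ (l : List (M × M)) (k : ℕ) (t : Fin k → M × M),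
      ST L (Prod.fst ∘ t) (Prod.snd ∘ t) → (∀ p ∈ l, ∃ i, t i = p) → good l := by
    intro l k t ht hl k' t' ht'
    choose s hs using fun i => hl (t' i) (ht' i)
    have : t' = t ∘ s := funext (fun i => (hs i).symm)
    rw [this]
    exact ht.comp s
  have hget : ∀ l : List (M × M), good l →
      ST L (Prod.fst ∘ l.get) (Prod.snd ∘ l.get) := fun l hl =>
    hl _ l.get (fun i => List.get_mem l i)
  have forth : ∀ l, good l → ∀ a, ∃ b, good ((a, b) :: l) := by
    intro l hl a
    obtain ⟨b, hb⟩ := (hget l hl).extend a (hatm _ _)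
    refine ⟨b, hgood _ _ (Fin.cons (a, b) l.get : Fin (l.length + 1) → M × M) ?_ ?_⟩
    · convert hb using 1
      · funext i
        refine Fin.cases ?_ (fun i => ?_) i <;> simp
      · funext i
        refine Fin.cases ?_ (fun i => ?_) i <;> simp
    · intro p hp
      rcases List.mem_cons.1 hp with h1 | h1
      · exact ⟨0, by simp [h1]⟩
      · obtain ⟨i, hi⟩ := List.get_of_mem h1
        exact ⟨i.succ, by simpa using hi⟩
  have hsymm : ∀ l, good l → good (l.map Prod.swap) := by
    intro l hl k t ht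
    have h1 := hl k (Prod.swap ∘ t) (by
      intro i
      obtain ⟨p, hp, hpt⟩ := List.mem_map.1 (ht i)
      simp only [Function.comp_apply, ← hpt, Prod.swap_swap]
      exact hp)
    exact h1.symm
  have back : ∀ l, good l → ∀ b, ∃ a, good ((a, b) :: l) := by
    intro l hl b
    obtain ⟨a, ha⟩ := forth _ (hsymm l hl) b
    refine ⟨a, ?_⟩
    have := hsymm _ ha
    simpa [List.map_map] using this
  have inj : ∀ l, good l → ∀ p ∈ l, ∀ q ∈ l, (p.1 = q.1 ↔ p.2 = q.2) := by
    intro l hl p hp q hq
    have h1 := hl 2 ![p, q] (by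
      intro i
      refine Fin.cases ?_ (fun i => ?_) i
      · simpa using hp
      · refine Fin.cases ?_ (fun i => i.elim0) i
        simpa using hq)
    have h2 := h1 (Term.equal (Term.var 0) (Term.var 1))
    simpa [Formula.realize_equal] using h2
  obtain ⟨e, he0, he⟩ := back_forth good (List.ofFn (fun i => (v i, u i))) (by
    refine hgood _ n (fun i => (v i, u i)) h ?_
    intro p hp
    obtain ⟨i, hi⟩ := (List.mem_ofFn' _ _).1 hp
    exact ⟨i, hi⟩) forth back inj
  refine ⟨⟨e, fun {n} f => isEmptyElim f, ?_⟩, ?_⟩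
  · intro k R x
    obtain ⟨l, hl, _, hS⟩ := he (List.ofFn x)
    have h1 := hl k (fun i => (x i, e (x i))) (fun i => hS _ ((List.mem_ofFn' _ _).2 ⟨i, rfl⟩))
    have h2 := h1 (R.formula (fun i => Term.var i))
    simp only [Formula.realize_rel, Term.realize_var] at h2
    exact h2.symm
  · intro i
    exact he0 (v i, u i) ((List.mem_ofFn' _ _).2 ⟨i, rfl⟩)

end Homog

/-- A structure isomorphism preserves types. -/
theorem ST.of_equiv {α : Type} (g : M ≃[L] N) (v : α → M) : ST L v (g ∘ v) := by
  intro φ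
  exact (StrongHomClass.realize_formula g φ).symm

end Pool.Agent.FinWidth
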