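import Pool.Agent.FinWidth.RN1

/-!
# Isolated types are dense
-/

set_option autoImplicit false

open FirstOrder FirstOrder.Language Cardinal

namespace Pool.Agent.FinWidth

variable {L : FirstOrder.Language.{0, 0}} {M : Type} [L.Structure M]

theorem model_of_equiv {A : Type} [L.Structure A] (hA : A ≅[L] M) :
    A ⊨ L.completeTheory M := by
  rw [Theory.model_iff]
  intro φ hφ
  exact (hA.realize_sentence φ).2 ((mem_completeTheory).1 hφ)

theorem cat_equiv (hcat : Cardinal.Categorical Cardinal.aleph0.{0} (L.completeTheory M)) (A B : Type)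
    [L.Structure A] [L.Structure B] [Countable A] [Infinite A]
    [Countable B] [Infinite B] (hA : A ≅[L] M) (hB : B ≅[L] M) : Nonempty (A ≃[L] B) := by
  have h1 : A ⊨ L.completeTheory M := model_of_equiv hA
  have h2 : B ⊨ L.completeTheory M := model_of_equiv hB
  exact hcat (Theory.ModelType.of (L.completeTheory M) A) (Theory.ModelType.of (L.completeTheory M) B)
    (Cardinal.mk_eq_aleph0 A) (Cardinal.mk_eq_aleph0 B)

theorem equiv_of_model {A : Type} [L.Structure A] [Nonempty M]
    (hA : A ⊨ L.completeTheory M) : A ≅[L] M := by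
  refine (elementarilyEquivalent_iff).2 ?_
  intro φ
  constructor
  · intro h
    by_contra hn
    have : (φ.not : L.Sentence) ∈ L.completeTheory M := by
      rw [mem_completeTheory]
      exact hn
    have h2 := hA.realize_of_mem _ this
    exact h2 h
  · intro h
    exact hA.realize_of_mem _ h

/-- Every complete type of a countably categorical theory is realized in the countable model. -/
theorem type_realized [Countable L.Symbols] [Countable M] [Infinite M]
    (hcat : Cardinal.Categorical Cardinal.aleph0.{0} (L.completeTheory M)) {n : ℕ}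
    (p : (L.completeTheory M).CompleteType (Fin n)) :
    ∃ v : Fin n → M, (L.completeTheory M).typeOf v = p := by
  obtain ⟨N, hN⟩ := Theory.exists_modelType_is_realized_in (L.completeTheory M) p
  obtain ⟨w, hw⟩ := hN
  have hMN : (N : Type) ≅[L] M := equiv_of_model N.is_model
  have hinf : Infinite N := hMN.infinite_iff.2 inferInstance
  obtain ⟨S, hS, hSc⟩ := exists_elementarySubstructure_card_eq L (M := N) (Set.range w)
    Cardinal.aleph0.{0}
    le_rfl (by
      rw [Cardinal.lift_aleph0, Cardinal.lift_le_aleph0]
      exact (Set.countable_range w).le_aleph0) (by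
      rw [Cardinal.lift_aleph0, Cardinal.lift_le_aleph0]
      exact Cardinal.mk_le_aleph0_iff.2 ‹_›) (by
      rw [Cardinal.lift_aleph0, Cardinal.aleph0_le_lift]
      exact Cardinal.infinite_iff.1 hinf)
  have hSc' : #S = ℵ₀ := by simpa using hSc
  have hSM : S ≅[L] M := S.elementarilyEquivalent.trans hMN
  have hScount : Countable S := Cardinal.mk_le_aleph0_iff.1 hSc'.le
  have hSinf : Infinite S := Cardinal.infinite_iff.2 hSc'.ge
  obtain ⟨e⟩ := cat_equiv hcat S M hSM rfl
  refine ⟨fun i => e ⟨w i, hS ⟨i, rfl⟩⟩, ?_⟩
  rw [← hw]
  refine SetLike.ext fun φ => ?_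
  rw [Theory.CompleteType.mem_typeOf, Theory.CompleteType.mem_typeOf]
  have h1 := StrongHomClass.realize_formula e (Formula.equivSentence.symm φ)
    (v := fun i => (⟨w i, hS ⟨i, rfl⟩⟩ : S))
  have h2 := S.subtype.map_formula (Formula.equivSentence.symm φ)
    (fun i => (⟨w i, hS ⟨i, rfl⟩⟩ : S))
  exact h1.trans h2.symm

theorem typeOf_eq_iff [Nonempty M] {n : ℕ} (v u : Fin n → M) :
    (L.completeTheory M).typeOf v = (L.completeTheory M).typeOf u ↔ ST L v u := by
  constructor
  · intro h φ
    rw [← Theory.CompleteType.formula_mem_typeOf (T := L.completeTheory M), h,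
      Theory.CompleteType.formula_mem_typeOf]
  · intro h
    refine SetLike.ext fun φ => ?_
    rw [Theory.CompleteType.mem_typeOf, Theory.CompleteType.mem_typeOf]
    exact h _

/-- Atomic tuples are dense. -/
theorem atm_dense [Countable L.Symbols] [Countable M] [Infinite M]
    (hcat : Cardinal.Categorical Cardinal.aleph0.{0} (L.completeTheory M)) {n : ℕ} (φ : L.Formula (Fin n))
    (hφ : ∃ v : Fin n → M, φ.Realize v) : ∃ v : Fin n → M, φ.Realize v ∧ Atm L v := by
  have hsurj : Function.Surjective
      ((L.completeTheory M).typeOf : (Fin n → M) → (L.completeTheory M).CompleteType (Fin n)) :=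
    fun p => type_realized hcat p
  have hcount : Countable ((L.completeTheory M).CompleteType (Fin n)) := hsurj.countable
  have hd := dense_iUnion_interior_of_closed
    (f := fun x : (L.completeTheory M).CompleteType (Fin n) => ({x} : Set _))
    (fun x => isClosed_singleton) (by ext x; simp)
  obtain ⟨v0, hv0⟩ := hφ
  obtain ⟨x, hx1, hx2⟩ := hd.inter_open_nonempty
    ((L.completeTheory M).typesWith (Formula.equivSentence φ))
    (CompleteType.isOpen_typesWith _)
    ⟨(L.completeTheory M).typeOf v0, by
      rw [Theory.CompleteType.mem_typesWith_iff, Theory.CompleteType.formula_mem_typeOf]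
      exact hv0⟩
  obtain ⟨y, hy⟩ := Set.mem_iUnion.1 hx2
  have hxy : x = y := by
    have := interior_subset hy
    rwa [Set.mem_singleton_iff] at this
  subst hxy
  obtain ⟨U, hU, hxU, hUx⟩ := CompleteType.isTopologicalBasis_range_typesWith.isOpen_iff.1
    isOpen_interior x hy
  obtain ⟨ψ, rfl⟩ := hU
  obtain ⟨v, hv⟩ := hsurj x
  refine ⟨v, ?_, Formula.equivSentence.symm ψ, ?_, ?_⟩
  · rw [← hv, Theory.CompleteType.mem_typesWith_iff,
      Theory.CompleteType.formula_mem_typeOf] at hx1
    exact hx1
  · rw [← hv, Theory.CompleteType.mem_typesWith_iff, Theory.CompleteType.mem_typeOf] at hxU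
    exact hxU
  · intro u hu
    have h1 : (L.completeTheory M).typeOf u ∈ (L.completeTheory M).typesWith ψ := by
      rw [Theory.CompleteType.mem_typesWith_iff, Theory.CompleteType.mem_typeOf]
      exact hu
    have h2 := interior_subset (hUx h1)
    rw [Set.mem_singleton_iff, ← hv] at h2
    exact (typeOf_eq_iff v u).1 h2.symm

/-- Finitely many types if all tuples are atomic. -/
theorem finite_types [Countable L.Symbols] [Countable M] [Infinite M]
    (hcat : Cardinal.Categorical Cardinal.aleph0.{0} (L.completeTheory M)) {n : ℕ}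
    (hatm : ∀ v : Fin n → M, Atm L v) :
    Finite ((L.completeTheory M).CompleteType (Fin n)) := by
  have hsurj : Function.Surjective
      ((L.completeTheory M).typeOf : (Fin n → M) → (L.completeTheory M).CompleteType (Fin n)) :=
    fun p => type_realized hcat p
  have hdisc : DiscreteTopology ((L.completeTheory M).CompleteType (Fin n)) := by
    rw [discreteTopology_iff_isOpen_singleton]
    intro x
    obtain ⟨v, hv⟩ := hsurj x
    obtain ⟨θ, h1, h2⟩ := hatm v
    have : ({x} : Set _) = (L.completeTheory M).typesWith (Formula.equivSentence θ) := by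
      ext y
      obtain ⟨u, hu⟩ := hsurj y
      rw [Set.mem_singleton_iff, Theory.CompleteType.mem_typesWith_iff, ← hu, ← hv,
        Theory.CompleteType.formula_mem_typeOf]
      constructor
      · intro h
        exact ((typeOf_eq_iff u v).1 h θ).2 h1
      · intro h
        exact (typeOf_eq_iff u v).2 (h2 u h).symm
    rw [this]
    exact CompleteType.isOpen_typesWith _
  exact finite_of_compact_of_discrete

end Pool.Agent.FinWidth
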