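import Pool.Agent.FinWidth.RN2

/-!
# All tuples of a countable model of a countably categorical theory are atomic
-/

set_option autoImplicit false

open FirstOrder FirstOrder.Language Cardinal

namespace Pool.Agent.FinWidth

variable {L : FirstOrder.Language.{0, 0}} {M : Type} [L.Structure M]

/-- All tuples from the list are atomic. -/
def AtmL (L : FirstOrder.Language.{0, 0}) {M : Type} [L.Structure M] (l : List M) : Prop :=
  ∀ (n : ℕ) (t : Fin n → M), (∀ i, t i ∈ l) → Atm L t

theorem AtmL.of_tuple {l : List M} {k : ℕ} (t : Fin k → M) (ht : Atm L t)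
    (hl : ∀ a ∈ l, ∃ i, t i = a) : AtmL L l := by
  intro n t' ht'
  choose s hs using fun i => hl (t' i) (ht' i)
  have : t' = t ∘ s := funext (fun i => (hs i).symm)
  rw [this]
  exact ht.comp s

variable (hdense : ∀ (n : ℕ) (φ : L.Formula (Fin n)), (∃ v : Fin n → M, φ.Realize v) →
  ∃ v : Fin n → M, φ.Realize v ∧ Atm L v)

include hdense

/-- One step of the construction. -/
theorem AtmL.step {l : List M} (hl : AtmL L l) {n : ℕ} (φ : L.BoundedFormula Empty (n + 1))
    (x : Fin n → M) (hx : ∀ i, x i ∈ l) (a : M)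
    (ha : φ.Realize default (Fin.snoc x a : Fin (n + 1) → M)) :
    ∃ b : M, φ.Realize default (Fin.snoc x b : Fin (n + 1) → M) ∧ AtmL L (b :: l) := by
  obtain ⟨θ, h1, h2⟩ := hl _ l.get (fun i => List.get_mem l i)
  choose s hs using fun i => List.get_of_mem (hx i)
  have hxs : x = l.get ∘ s := funext (fun i => (hs i).symm)
  let r : Empty ⊕ Fin (n + 1) → Fin (l.length + 1) :=
    Sum.elim Empty.elim (Fin.snoc (fun i => (s i).succ) 0 : Fin (n + 1) → Fin (l.length + 1))
  let ψ : L.Formula (Fin (l.length + 1)) :=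
    θ.relabel Fin.succ ⊓ φ.toFormula.relabel r
  have hψ : ∀ (c : M) (t : Fin l.length → M),
      ψ.Realize (Fin.cons c t : Fin (l.length + 1) → M) ↔
        θ.Realize t ∧ φ.Realize default (Fin.snoc (t ∘ s) c : Fin (n + 1) → M) := by
    intro c t
    simp only [ψ, Formula.realize_inf, Formula.realize_relabel, BoundedFormula.realize_toFormula]
    have e1 : (Fin.cons c t : Fin (l.length + 1) → M) ∘ Fin.succ = t := by
      funext i; simp
    have e2 : (((Fin.cons c t : Fin (l.length + 1) → M) ∘ r) ∘ Sum.inl) = default :=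
      Subsingleton.elim _ _
    have e3 : (((Fin.cons c t : Fin (l.length + 1) → M) ∘ r) ∘ Sum.inr) =
        (Fin.snoc (t ∘ s) c : Fin (n + 1) → M) := by
      funext i
      refine Fin.lastCases ?_ (fun i => ?_) i
      · simp [r]
      · simp [r]
    rw [e1, e2, e3]
  obtain ⟨w, hw1, χ, hw2, hw3⟩ := hdense _ ψ
    ⟨(Fin.cons a l.get : Fin (l.length + 1) → M), (hψ a l.get).2 ⟨h1, by rwa [← hxs]⟩⟩
  obtain ⟨c, t, rfl⟩ : ∃ (c : M) (t : Fin l.length → M), w = Fin.cons c t :=
    ⟨w 0, Fin.tail w, (Fin.cons_self_tail w).symm⟩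
  obtain ⟨k1, -⟩ := (hψ c t).1 hw1
  have hst : ST L l.get t := h2 t k1
  have h3 : (exF χ).Realize l.get := (hst (exF χ)).2 ((realize_exF χ t).2 ⟨c, hw2⟩)
  obtain ⟨b, hb⟩ := (realize_exF χ l.get).1 h3
  have h4 := hw3 _ hb
  refine ⟨b, ?_, ?_⟩
  · rw [hxs]
    exact ((hψ b l.get).1 ((h4 ψ).1 hw1)).2
  · refine AtmL.of_tuple (Fin.cons b l.get : Fin (l.length + 1) → M)
      (Atm.of_st ⟨χ, hw2, hw3⟩ h4) ?_
    intro p hp
    rcases List.mem_cons.1 hp with h5 | h5
    · exact ⟨0, by simp [h5]⟩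
    · obtain ⟨i, hi⟩ := List.get_of_mem h5
      exact ⟨i.succ, by simpa using hi⟩

/-- There is an elementary substructure all of whose tuples are atomic. -/
theorem exists_atomic [L.IsRelational] [Countable L.Symbols] [Countable M] [Nonempty M] :
    ∃ S : L.ElementarySubstructure M, ∀ (n : ℕ) (t : Fin n → M), (∀ i, t i ∈ S) → Atm L t := by
  classical
  -- tasks
  let Task : Type := Σ n : ℕ, L.BoundedFormula Empty (n + 1) × (Fin n → M)
  have hc1 : ∀ n, Countable (L.BoundedFormula Empty n) := by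
    intro n
    have : Countable (Σ n, L.BoundedFormula Empty n) := by
      rw [← Cardinal.mk_le_aleph0_iff]
      refine (BoundedFormula.card_le (L := L) (α := Empty)).trans ?_
      refine max_le le_rfl ?_
      simp only [Cardinal.mk_eq_zero, Cardinal.lift_zero, zero_add, Cardinal.lift_le_aleph0]
      exact Cardinal.mk_le_aleph0_iff.2 ‹_›
    exact Function.Injective.countable (f := fun φ : L.BoundedFormula Empty n =>
      (⟨n, φ⟩ : Σ n, L.BoundedFormula Empty n)) (fun a b h => by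
        simpa using h)
  have hc : Countable Task := by
    have := fun n => hc1 (n + 1)
    infer_instance
  have : Encodable Task := Encodable.ofCountable _
  have step : ∀ (x : Option Task) (l : {l : List M // AtmL L l}), ∃ l' : {l : List M // AtmL L l},
      (∀ p ∈ l.1, p ∈ l'.1) ∧ (∀ (n : ℕ) (φ : L.BoundedFormula Empty (n + 1)) (y : Fin n → M),
        x = some (⟨n, φ, y⟩ : Task) → (∀ i, y i ∈ l.1) →
        ∀ a, φ.Realize default (Fin.snoc y a : Fin (n + 1) → M) →
        ∃ b ∈ l'.1, φ.Realize default (Fin.snoc y b : Fin (n + 1) → M)) := by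
    rintro x ⟨l, hl⟩
    rcases x with _ | ⟨n, φ, y⟩
    · exact ⟨⟨l, hl⟩, fun p hp => hp, by simp⟩
    · by_cases hyp : (∀ i, y i ∈ l) ∧ ∃ a, φ.Realize default (Fin.snoc y a : Fin (n + 1) → M)
      · obtain ⟨hy, a, ha⟩ := hyp
        obtain ⟨b, hb, hbl⟩ := AtmL.step hdense hl φ y hy a ha
        refine ⟨⟨_, hbl⟩, fun p hp => List.mem_cons_of_mem _ hp, ?_⟩
        intro n' φ' y' he _ a' _
        rw [Option.some.injEq] at he
        cases he
        exact ⟨b, by simp, hb⟩
      · refine ⟨⟨l, hl⟩, fun p hp => hp, ?_⟩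
        intro n' φ' y' he hy' a' ha'
        rw [Option.some.injEq] at he
        cases he
        exact absurd ⟨hy', a', ha'⟩ hyp
  choose f hf1 hf2 using step
  have h0 : AtmL L ([] : List M) := by
    intro n t ht
    rcases n with _ | n
    · obtain ⟨v, _, hv⟩ := hdense 0 ⊤ ⟨t, by simp⟩
      have : v = t := Subsingleton.elim _ _
      rwa [this] at hv
    · exact absurd (ht 0) (by simp)
  let Q : ℕ → {l : List M // AtmL L l} := fun n =>
    Nat.rec ⟨[], h0⟩ (fun n l => f (Encodable.decode (Nat.unpair n).1) l) n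
  have hQs : ∀ n, Q (n + 1) = f (Encodable.decode (Nat.unpair n).1) (Q n) := fun n => rfl
  have hmono : ∀ m n, m ≤ n → ∀ p ∈ (Q m).1, p ∈ (Q n).1 := by
    intro m n hmn
    induction hmn with
    | refl => exact fun p hp => hp
    | step _ ih => intro p hp; rw [hQs]; exact hf1 _ _ p (ih p hp)
  have hfin : ∀ (n : ℕ) (t : Fin n → M), (∀ i, ∃ k, t i ∈ (Q k).1) →
      ∃ k, ∀ i, t i ∈ (Q k).1 := by
    intro n t ht
    choose k hk using ht
    obtain ⟨m, hm⟩ := (Set.finite_range k).bddAbove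
    exact ⟨m, fun i => hmono _ _ (hm ⟨i, rfl⟩) _ (hk i)⟩
  let S0 : L.Substructure M :=
    { carrier := {a | ∃ k, a ∈ (Q k).1}
      fun_mem := fun {n} f => isEmptyElim f }
  have hS0 : ∀ a, a ∈ S0 ↔ ∃ k, a ∈ (Q k).1 := fun a => Iff.rfl
  refine ⟨S0.toElementarySubstructure ?_, ?_⟩
  · intro n φ x a ha
    obtain ⟨k, hk⟩ := hfin n (fun i => (x i : M)) (fun i => (hS0 _).1 (x i).2)
    let m := Nat.pair (Encodable.encode (⟨n, φ, fun i => (x i : M)⟩ : Task)) k
    have hkm : k ≤ m := Nat.right_le_pair _ _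
    have hm : Encodable.decode (Nat.unpair m).1 =
        some (⟨n, φ, fun i => (x i : M)⟩ : Task) := by
      simp only [m, Nat.unpair_pair]
      exact Encodable.encodek _
    obtain ⟨b, hb, hφb⟩ := hf2 _ (Q m) n φ (fun i => (x i : M)) hm
      (fun i => hmono _ _ hkm _ (hk i)) a ha
    exact ⟨⟨b, (hS0 b).2 ⟨m + 1, by rw [hQs]; exact hb⟩⟩, hφb⟩
  · intro n t ht
    obtain ⟨k, hk⟩ := hfin n t (fun i => (hS0 _).1 (ht i))
    exact (Q k).2 n t hk

end Pool.Agent.FinWidth
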