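import Pool.Agent.FinWidth.RN3

/-!
# The theorem of Ryll-Nardzewski, in the form we need
-/

set_option autoImplicit false

open FirstOrder FirstOrder.Language Cardinal

namespace Pool.Agent.FinWidth

variable {L : FirstOrder.Language.{0, 0}} {M : Type} [L.Structure M]

theorem atm_of_equiv {S : L.ElementarySubstructure M} (e : M ≃[L] S)
    (hS : ∀ (n : ℕ) (t : Fin n → M), (∀ i, t i ∈ S) → Atm L t) (n : ℕ) (v : Fin n → M) :
    Atm L v := by
  have key : ∀ (u : Fin n → M), ST L u (fun i => ((e (u i) : S) : M)) := by
    intro u φ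
    have h1 := StrongHomClass.realize_formula e φ (v := u)
    have h2 := S.subtype.map_formula φ (e ∘ u)
    exact h1.symm.trans h2.symm
  obtain ⟨θ, h1, h2⟩ := hS n (fun i => ((e (v i) : S) : M)) (fun i => (e (v i)).2)
  refine ⟨θ, (key v θ).2 h1, fun u hu => ?_⟩
  exact (key v).trans ((h2 _ ((key u θ).1 hu)).trans (key u).symm)

theorem atm_finite [Finite M] (n : ℕ) (v : Fin n → M) : Atm L v := by
  classical
  have h : ∀ u : {u : Fin n → M // ¬ ST L v u}, ∃ φ : L.Formula (Fin n),
      φ.Realize v ∧ ¬ φ.Realize u.1 := by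
    rintro ⟨u, hu⟩
    simp only [ST, not_forall] at hu
    obtain ⟨φ, hφ⟩ := hu
    by_cases h1 : φ.Realize v
    · exact ⟨φ, h1, fun h2 => hφ ⟨fun _ => h2, fun _ => h1⟩⟩
    · refine ⟨φ.not, by rwa [Formula.realize_not], ?_⟩
      rw [Formula.realize_not, not_not]
      by_contra h2
      exact hφ ⟨fun h => absurd h h1, fun h => absurd h h2⟩
  choose φ h1 h2 using h
  refine ⟨Formula.iInf φ, ?_, ?_⟩
  · rw [Formula.realize_iInf]
    exact h1
  · intro u hu
    rw [Formula.realize_iInf] at hu
    by_contra hn
    exact h2 ⟨u, hn⟩ (hu ⟨u, hn⟩)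

theorem all_atomic [L.IsRelational] [Countable L.Symbols] [Countable M] [Nonempty M]
    (hcat : Cardinal.Categorical Cardinal.aleph0.{0} (L.completeTheory M)) (n : ℕ)
    (v : Fin n → M) : Atm L v := by
  rcases finite_or_infinite M with hf | hi
  · exact atm_finite n v
  · obtain ⟨S, hS⟩ := exists_atomic (L := L) (M := M) (fun n φ hφ => atm_dense hcat φ hφ)
    have hSM : S ≅[L] M := S.elementarilyEquivalent
    have : Countable S := inferInstance
    have : Infinite S := hSM.infinite_iff.2 inferInstance
    obtain ⟨e⟩ := cat_equiv hcat M S rfl hSM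
    exact atm_of_equiv e hS n v

/-- The same type relation as a setoid. -/
def stSetoid (L : FirstOrder.Language.{0, 0}) (M : Type) [L.Structure M] (n : ℕ) :
    Setoid (Fin n → M) where
  r := fun v u => ST L v u
  iseqv := ⟨fun v => ST.refl v, fun h => ST.symm h, fun h h' => ST.trans h h'⟩

theorem finite_quot [L.IsRelational] [Countable L.Symbols] [Countable M] [Nonempty M]
    (hcat : Cardinal.Categorical Cardinal.aleph0.{0} (L.completeTheory M)) (n : ℕ) :
    Finite (Quotient (stSetoid L M n)) := by
  rcases finite_or_infinite M with hf | hi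
  · infer_instance
  · have h1 := finite_types hcat (n := n) (fun v => all_atomic hcat n v)
    refine Finite.of_injective (β := (L.completeTheory M).CompleteType (Fin n))
      (Quotient.lift (fun v => (L.completeTheory M).typeOf v)
        (fun v u h => (typeOf_eq_iff v u).2 h)) ?_
    intro a b
    induction a using Quotient.ind
    induction b using Quotient.ind
    intro h
    exact Quotient.sound ((typeOf_eq_iff _ _).1 h)

theorem ryll [L.IsRelational] [Countable L.Symbols] [Countable M] [Nonempty M]
    (hcat : Cardinal.Categorical Cardinal.aleph0.{0} (L.completeTheory M)) (n : ℕ) :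
    ∃ Θ : (Fin n → M) → L.Formula (Fin n), (Set.range Θ).Finite ∧
      (∀ v u : Fin n → M, (Θ v).Realize u ↔ ST L v u) ∧
      ∀ v u : Fin n → M, ST L v u → Θ v = Θ u := by
  have hfin := finite_quot hcat n
  choose θ h1 h2 using fun v => all_atomic hcat n v
  refine ⟨fun v => θ (Quotient.mk (stSetoid L M n) v).out, ?_, ?_, ?_⟩
  · refine (Set.finite_range (fun q : Quotient (stSetoid L M n) => θ q.out)).subset ?_
    rintro _ ⟨v, rfl⟩
    exact ⟨_, rfl⟩
  · intro v u
    have h3 : ST L (Quotient.mk (stSetoid L M n) v).out v :=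
      Quotient.exact (Quotient.out_eq (Quotient.mk (stSetoid L M n) v))
    constructor
    · intro h
      exact h3.symm.trans (h2 _ u h)
    · intro h
      exact ((h3.trans h) _).1 (h1 _)
  · intro v u h
    have : Quotient.mk (stSetoid L M n) v = Quotient.mk (stSetoid L M n) u := Quotient.sound h
    simp only [this]

end Pool.Agent.FinWidth
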