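import Pool.Agent.FinWidth.Induced

/-!
# The bounded isolation property from a class and a transversal, and the measures
-/

set_option autoImplicit false

namespace Pool.Agent.FinWidth

open Equiv

variable {A : Type} {G : Subgroup (Perm A)} {le : A → A → Prop}

namespace Top

variable {r : A}

theorem bip (h : Top G le r) (hK : BIP (ind G (KK G le r (low G le r))))
    (hB : BIP (ind G h.BB)) : BIP G := by
  classical
  obtain ⟨N1, hN1⟩ := hK
  obtain ⟨N2, hN2⟩ := hB
  refine ⟨N1 + N2 + 1, fun F a => ?_⟩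
  by_cases hcase : ∃ f0 ∈ F, Md G le r f0 a
  · obtain ⟨f0, hf0, hmd⟩ := hcase
    by_cases hl : ∃ D, Lk G le r a D
    · obtain ⟨D, hD⟩ := hl
      set D0 := low G le r with hD0
      have hD0mem : D0 ∈ Ix G le r := ⟨r, self_mem_orb G r, rfl⟩
      obtain ⟨g1, hg1, hg1D⟩ := h.sys.ix_tr hD0mem (h.lk_mem hD)
      -- membership in the class of `D` in terms of the class of `D0`
      have hmem : ∀ x, Lk G le r x D ↔ g1⁻¹ x ∈ KK G le r D0 := by
        intro x
        have h1 := h.lk_inv_iff (x := g1⁻¹ x) (D := D0) hg1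
        rw [hg1D, show g1 (g1⁻¹ x) = x by simp] at h1
        exact h1
      let a0 : KK G le r D0 := ⟨g1⁻¹ a, (hmem a).1 hD⟩
      obtain ⟨F0, hF0, hF0c, hiso⟩ := hN1 ((F.image (fun x => g1⁻¹ x)).subtype (· ∈ KK G le r D0)) a0
      refine ⟨insert f0 (F0.image (fun x : KK G le r D0 => g1 (x : A))), ?_, ?_, ?_⟩
      · intro f hf
        rcases Finset.mem_insert.1 hf with h1 | h1
        · rw [h1]; exact hf0
        · obtain ⟨x, hx, rfl⟩ := Finset.mem_image.1 h1
          have h2 := Finset.mem_subtype.1 (hF0 hx)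
          obtain ⟨f', hf', hf'x⟩ := Finset.mem_image.1 h2
          rw [← hf'x]
          simpa using hf'
      · have h1 := Finset.card_insert_le f0 (F0.image (fun x : KK G le r D0 => g1 (x : A)))
        have h2 := Finset.card_image_le (s := F0) (f := fun x : KK G le r D0 => g1 (x : A))
        omega
      · intro g hg hgF
        have hgf0 : g f0 = f0 := hgF f0 (Finset.mem_insert_self _ _)
        have hf0D : Lk G le r f0 D := h.lk_of_md (h.md_symm hmd) hD
        -- the conjugate preserves the class of `D0`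
        have hcG : g1⁻¹ * g * g1 ∈ G := G.mul_mem (G.mul_mem (G.inv_mem hg1) hg) hg1
        have hx0 : g1⁻¹ f0 ∈ KK G le r D0 := (hmem f0).1 hf0D
        have hcx0 : (g1⁻¹ * g * g1) (g1⁻¹ f0) ∈ KK G le r D0 := by
          have : (g1⁻¹ * g * g1) (g1⁻¹ f0) = g1⁻¹ f0 := by
            simp only [Perm.mul_apply]
            rw [show g1 (g1⁻¹ f0) = f0 by simp, hgf0]
          rw [this]
          exact hx0
        obtain ⟨θ, hθ, hθc⟩ := h.kk_restrict hcG hx0 hcx0
        obtain ⟨θ', hθ', hθ'F, hθ'a⟩ := hiso θ hθ (by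
          intro x hx
          apply Subtype.ext
          rw [hθc]
          have h3 := hgF (g1 x) (Finset.mem_insert_of_mem (Finset.mem_image.2 ⟨x, hx, rfl⟩))
          simp only [Perm.mul_apply]
          rw [h3]
          simp)
        obtain ⟨h0, hh0, hh0θ⟩ := hθ'
        have hkmem : ∀ x, Lk G le r x D → Lk G le r ((g1 * h0 * g1⁻¹) x) D := by
          intro x hx
          have h3 := (hmem x).1 hx
          have h4 : h0 (g1⁻¹ x) ∈ KK G le r D0 := by
            have h5 := hh0θ ⟨g1⁻¹ x, h3⟩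
            simp only at h5
            rw [h5]
            exact (θ' ⟨g1⁻¹ x, h3⟩).2
          rw [hmem]
          simp only [Perm.mul_apply]
          rw [show g1⁻¹ (g1 (h0 (g1⁻¹ x))) = h0 (g1⁻¹ x) by simp]
          exact h4
        obtain ⟨κ, hκ, hκx⟩ := h.glue
          (fun x => if Lk G le r x D then g1 * h0 * g1⁻¹ else 1)
          (fun x => by
            split_ifs
            · exact G.mul_mem (G.mul_mem hg1 hh0) (G.inv_mem hg1)
            · exact G.one_mem)
          (fun x y hxy => by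
            have : Lk G le r x D ↔ Lk G le r y D :=
              ⟨fun h1 => h.lk_of_md hxy h1, fun h1 => h.lk_of_md (h.md_symm hxy) h1⟩
            simp only [this])
          (fun x => by
            split_ifs with hx
            · exact Or.inr ⟨D, hx, hkmem x hx⟩
            · exact h.md_refl x)
        refine ⟨κ, hκ, fun f hf => ?_, ?_⟩
        · rw [hκx]
          split_ifs with hfD
          · have h3 := (hmem f).1 hfD
            have h4 : (⟨g1⁻¹ f, h3⟩ : KK G le r D0) ∈
                (F.image (fun x => g1⁻¹ x)).subtype (· ∈ KK G le r D0) := by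
              rw [Finset.mem_subtype]
              exact Finset.mem_image.2 ⟨f, hf, rfl⟩
            have h5 := hθ'F _ h4
            have h6 := hh0θ ⟨g1⁻¹ f, h3⟩
            rw [h5] at h6
            simp only at h6
            simp only [Perm.mul_apply]
            rw [h6]
            simp
          · rfl
        · rw [hκx]
          rw [if_pos hD]
          have h6 := hh0θ a0
          rw [hθ'a, hθc] at h6
          change (g1 * h0) a0 = g a
          rw [Perm.mul_apply, h6]
          change g1 ((g1⁻¹ * g * g1) (g1⁻¹ a)) = g a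
          simp
    · have hfa : f0 = a := by
        rcases hmd with h1 | ⟨D, -, h1⟩
        · exact h1
        · exact absurd ⟨D, h1⟩ hl
      subst hfa
      refine ⟨{f0}, by simpa using hf0, by simp, fun g hg hgF => ?_⟩
      refine ⟨1, G.one_mem, fun f _ => rfl, ?_⟩
      rw [hgF f0 (by simp)]
      rfl
  · push Not at hcase
    let π : A → h.BB := fun x => ⟨h.rep x, h.rep_mem x⟩
    have hπb : ∀ b : h.BB, π b = b := fun b => Subtype.ext b.2
    have hπmd : ∀ x y, Md G le r x y ↔ π x = π y := fun x y => by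
      rw [h.md_iff]
      exact ⟨fun h1 => Subtype.ext h1, fun h1 => congrArg Subtype.val h1⟩
    obtain ⟨F0, hF0, hF0c, hiso⟩ := hN2 (F.image π) (π a)
    have hsec : ∀ b : h.BB, ∃ f : A, b ∈ F0 → f ∈ F ∧ π f = b := by
      intro b
      by_cases hb : b ∈ F0
      · obtain ⟨f, hf, hfb⟩ := Finset.mem_image.1 (hF0 hb)
        exact ⟨f, fun _ => ⟨hf, hfb⟩⟩
      · exact ⟨b, fun h' => absurd h' hb⟩
    choose s hs using hsec
    refine ⟨F0.image s, ?_, ?_, ?_⟩
    · intro f hf
      obtain ⟨b, hb, rfl⟩ := Finset.mem_image.1 hf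
      exact (hs b hb).1
    · exact (Finset.card_image_le).trans (by omega)
    · intro g hg hgF
      obtain ⟨g', hg', hg'b, hg'B, hg'md⟩ := h.correct hg
      have hθmem : g'.subtypePerm hg'B ∈ ind G h.BB := ⟨g', hg', fun _ => rfl⟩
      obtain ⟨θ', ⟨h0, hh0, hh0θ⟩, hθ'F, hθ'a⟩ := hiso _ hθmem (by
        intro b hb
        apply Subtype.ext
        change g' b = b
        rw [hg'b b b.2]
        have h1 := hgF (s b) (Finset.mem_image.2 ⟨b, hb, rfl⟩)
        have h2 : Md G le r (s b) b := by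
          rw [hπmd, (hs b hb).2, hπb]
        have h3 := h.md_inv h2 hg
        rw [h1] at h3
        have h4 := h.rep_eq (h.md_trans (h.md_symm h3) h2)
        rw [h4]
        exact b.2)
      have hfix : ∀ f ∈ F, h0 (h.rep f) = h.rep f := by
        intro f hf
        have h1 := hh0θ (π f)
        rw [hθ'F _ (Finset.mem_image.2 ⟨f, hf, rfl⟩)] at h1
        exact h1
      have hh0a : Md G le r (h0 (h.rep a)) (g a) := by
        have h1 := hh0θ (π a)
        rw [hθ'a] at h1
        change h0 (h.rep a) = g' (h.rep a) at h1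
        rw [h1]
        exact h.md_trans (h.md_symm (hg'md _)) (h.md_inv (h.md_symm (h.md_rep a)) hg)
      obtain ⟨ka, hka, hkaa⟩ : SO G a (h0⁻¹ (g a)) :=
        (SO.of_mem hg a).trans (SO.of_mem (G.inv_mem hh0) _)
      have haa : Md G le r a (ka a) := by
        rw [hkaa]
        have h1 := h.md_inv hh0a (G.inv_mem hh0)
        rw [show h0⁻¹ (h0 (h.rep a)) = h.rep a by simp] at h1
        exact h.md_trans (h.md_rep a) h1
      obtain ⟨κ, hκ, hκx⟩ := h.glue
        (fun x => if ∃ f ∈ F, Md G le r f x then h0⁻¹ else if Md G le r a x then ka else 1)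
        (fun x => by
          split_ifs
          · exact G.inv_mem hh0
          · exact hka
          · exact G.one_mem)
        (fun x y hxy => by
          have e1 : (∃ f ∈ F, Md G le r f x) ↔ (∃ f ∈ F, Md G le r f y) :=
            ⟨fun ⟨f, hf, h1⟩ => ⟨f, hf, h.md_trans h1 hxy⟩,
              fun ⟨f, hf, h1⟩ => ⟨f, hf, h.md_trans h1 (h.md_symm hxy)⟩⟩
          have e2 : Md G le r a x ↔ Md G le r a y :=
            ⟨fun h1 => h.md_trans h1 hxy, fun h1 => h.md_trans h1 (h.md_symm hxy)⟩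
          simp only [e1, e2])
        (fun x => by
          split_ifs with h1 h2
          · obtain ⟨f, hf, hfx⟩ := h1
            have h3 : Md G le r x (h.rep f) := h.md_trans (h.md_symm hfx) (h.md_rep f)
            have h4 := h.md_inv h3 (G.inv_mem hh0)
            have h5 : h0⁻¹ (h.rep f) = h.rep f := by
              conv_lhs => rw [← hfix f hf]
              simp
            rw [h5] at h4
            exact h.md_trans h3 (h.md_symm h4)
          · exact h.md_trans (h.md_symm h2) (h.md_trans haa (h.md_inv h2 hka))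
          · exact h.md_refl x)
      refine ⟨h0 * κ, G.mul_mem hh0 hκ, fun f hf => ?_, ?_⟩
      · rw [Perm.mul_apply, hκx, if_pos ⟨f, hf, h.md_refl f⟩]
        simp
      · have h1 : ¬ ∃ f ∈ F, Md G le r f a := by
          rintro ⟨f, hf, hfa⟩
          exact hcase f hf hfa
        rw [Perm.mul_apply, hκx, if_neg h1, if_pos (h.md_refl a), hkaa]
        simp

/-- The measure strictly decreases in a class. -/
theorem cuts_kk (h : Top G le r) {D0 : Set A} (hlow : ∃ E ∈ Ix G le r, E ⊂ D0)
    (x : KK G le r D0) :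
    (Cuts (ind G (KK G le r D0)) (leS le _) x).encard + 1 ≤
      (Cuts G le (x : A)).encard := by
  classical
  obtain ⟨E0, hE0, hE0lt⟩ := hlow
  have hxD : Lk G le r (x : A) D0 := x.2
  let ext : Set (KK G le r D0) → Set A := fun D =>
    {z | z ∈ orb G (x : A) ∧ ∃ E, Lk G le r z E ∧ E ⊂ D0} ∪ Subtype.val '' D
  have hlk : ∀ z ∈ orb G (x : A), ∃ E, Lk G le r z E := by
    rintro _ ⟨g, hg, rfl⟩
    exact ⟨_, h.lk_inv hxD hg⟩
  have hmaps : ∀ D ∈ Cuts (ind G (KK G le r D0)) (leS le _) x,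
      ext D ∈ Cuts G le (x : A) \ {∅} := by
    intro D hD
    refine ⟨⟨⟨?_, ?_⟩, ?_⟩, ?_⟩
    · rintro z (hz | ⟨z, hz, rfl⟩)
      · exact hz.1
      · exact ind_so (hD.1.1 hz)
    · intro y hy z hz hzn
      obtain ⟨E, hE⟩ := hlk z hz
      have hDE : D0 ⊆ E := by
        rcases h.sys.ix_total (h.lk_mem hxD) (h.lk_mem hE) with h1 | h1
        · exact h1
        · by_contra h2
          exact hzn (Or.inl ⟨hz, E, hE, h1, h2⟩)
      rcases hy with ⟨hy, E1, hE1, hlt⟩ | ⟨y, hy, rfl⟩
      · exact h.lk_smono hE1 hE ((SO.symm hy).trans hz) (hlt.trans_subset hDE)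
      · have hyx : SO G (x : A) y := ind_so (hD.1.1 hy)
        by_cases hDE' : D0 = E
        · subst hDE'
          have hz' : (⟨z, hE⟩ : KK G le r D0) ∈ orb (ind G (KK G le r D0)) x :=
            (h.kk_hom D0).so hz
          refine hD.1.2 y hy ⟨z, hE⟩ hz' (fun h1 => hzn (Or.inr ⟨_, h1, rfl⟩))
        · exact h.lk_smono y.2 hE (hyx.symm.trans hz) (hDE.ssubset_of_ne hDE')
    · intro g hg hgx y hy
      have hgD : g '' D0 = D0 := by
        have := h.lk_inv hxD hg
        rw [hgx] at this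
        exact h.lk_unique this hxD
      rcases hy with ⟨hy, E1, hE1, hlt⟩ | ⟨y, hy, rfl⟩
      · refine Or.inl ⟨(h.sys.orb_iff hg _ _).2 hy, g '' E1, h.lk_inv hE1 hg, ?_⟩
        rw [← hgD]
        exact ⟨Set.image_mono hlt.1, fun h' =>
          hlt.2 ((Set.image_subset_image_iff g.injective).1 h')⟩
      · right
        obtain ⟨θ, hθ, hθg⟩ := h.kk_restrict hg x.2 (by rw [hgx]; exact x.2)
        have h1 := hD.2 θ hθ (Subtype.ext ((hθg x).trans hgx)) y hy
        exact ⟨θ y, h1, hθg y⟩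
    · intro hem
      obtain ⟨y, hy, hyE⟩ := h.lk_surj hxD hE0
      have : y ∈ ext D := Or.inl ⟨hy, E0, hyE, hE0lt⟩
      rw [hem] at this
      exact this
  have hinj : Set.InjOn ext (Cuts (ind G (KK G le r D0)) (leS le _) x) := by
    have hres : ∀ D : Set (KK G le r D0), ∀ z : KK G le r D0, (z : A) ∈ ext D ↔ z ∈ D := by
      intro D z
      constructor
      · rintro (⟨-, E, hE, hlt⟩ | ⟨y, hy, hyz⟩)
        · have := h.lk_unique hE z.2
          rw [this] at hlt
          exact absurd hlt (ssubset_irrefl _)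
        · rwa [← Subtype.ext hyz]
      · intro hz
        exact Or.inr ⟨z, hz, rfl⟩
    intro D _ D' _ hDD'
    ext z
    rw [← hres D z, ← hres D' z, hDD']
  have hempty : (∅ : Set A) ∈ Cuts G le (x : A) :=
    ⟨⟨Set.empty_subset _, fun y hy => absurd hy (Set.notMem_empty y)⟩,
      fun _ _ _ y hy => absurd hy (Set.notMem_empty y)⟩
  rw [← hinj.encard_image]
  have h1 : (ext '' Cuts (ind G (KK G le r D0)) (leS le _) x).encard ≤
      (Cuts G le (x : A) \ {∅}).encard :=
    Set.encard_le_encard (by rintro _ ⟨D, hD, rfl⟩; exact hmaps D hD)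
  calc _ ≤ (Cuts G le (x : A) \ {∅}).encard + 1 := by gcongr
    _ = _ := Set.encard_sdiff_singleton_add_one hempty

/-- Elements that are not linked lie in the transversal. -/
theorem unlinked_mem (h : Top G le r) {x : A} (hx : ¬ ∃ D, Lk G le r x D) : x ∈ h.BB :=
  h.rep_unlinked hx

theorem unlinked_orb (h : Top G le r) {x : A} (hx : ¬ ∃ D, Lk G le r x D) {y : A}
    (hy : y ∈ orb G x) : ¬ ∃ D, Lk G le r y D := by
  rintro ⟨D, hD⟩
  obtain ⟨g, hg, rfl⟩ := SO.symm hy
  exact hx ⟨_, h.lk_inv hD hg⟩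

/-- The linked part of the transversal is contained in the orbit of `r`. -/
theorem linked_mem_orb (h : Top G le r) {x : A} (hxB : x ∈ h.BB) (hx : ∃ D, Lk G le r x D) :
    x ∈ orb G r := by
  obtain ⟨D, hD⟩ := hx
  obtain ⟨p, hp1, hp2⟩ := h.exists_pt
  have h1 := hp2 x D hD
  have h2 : h.rep x = x := hxB
  rw [← h2, h1]
  exact (hp1 D (h.lk_mem hD)).1

theorem linked_chain (h : Top G le r) {x y : A} (hxB : x ∈ h.BB) (hyB : y ∈ h.BB)
    (hx : x ∈ orb G r) (hy : y ∈ orb G r) : le x y ∨ le y x := by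
  have hso : SO G x y := (SO.symm hx).trans hy
  by_cases h1 : low G le x ⊆ low G le y
  · by_cases h2 : low G le y ⊆ low G le x
    · have heq := Set.Subset.antisymm h1 h2
      have hmd : Md G le r x y := Or.inr ⟨low G le x, h.lk_low hx, by
        rw [heq]; exact h.lk_low hy⟩
      have h3 := h.rep_eq hmd
      have h4 : h.rep x = x := hxB
      have h5 : h.rep y = y := hyB
      rw [h4, h5] at h3
      rw [h3]
      exact Or.inl (h.sys.refl y)
    · exact Or.inl (le_of_low_not_subset hso h2)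
  · exact Or.inr (le_of_low_not_subset hso.symm h1)

theorem cuts_bb (h : Top G le r) (x : h.BB) (hx : ¬ ∃ D, Lk G le r (x : A) D) :
    (Cuts (ind G h.BB) (leS le _) x).encard ≤ (Cuts G le (x : A)).encard := by
  classical
  have hmaps : ∀ D ∈ Cuts (ind G h.BB) (leS le _) x,
      Subtype.val '' D ∈ Cuts G le (x : A) := by
    intro D hD
    refine ⟨⟨?_, ?_⟩, ?_⟩
    · rintro _ ⟨z, hz, rfl⟩
      exact ind_so (hD.1.1 hz)
    · rintro _ ⟨y, hy, rfl⟩ z hz hzn
      have hzB : z ∈ h.BB := h.unlinked_mem (h.unlinked_orb hx hz)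
      have hz' : (⟨z, hzB⟩ : h.BB) ∈ orb (ind G h.BB) x := h.bb_hom.so hz
      exact hD.1.2 y hy ⟨z, hzB⟩ hz' (fun h1 => hzn ⟨_, h1, rfl⟩)
    · rintro g hg hgx _ ⟨y, hy, rfl⟩
      have hyx : SO G (x : A) y := ind_so (hD.1.1 hy)
      have hgy : g y ∈ h.BB := h.unlinked_mem (h.unlinked_orb hx ((h.sys.orb_iff hg _ _).2 hyx))
      obtain ⟨θ, hθ, h1, h2⟩ := h.bb_hom g hg x y (by rw [hgx]; exact x.2) hgy
      exact ⟨θ y, hD.2 θ hθ (Subtype.ext (h1.trans hgx)) y hy, h2⟩
  have hinj : Set.InjOn (fun D : Set h.BB => (Subtype.val '' D : Set A))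
      (Cuts (ind G h.BB) (leS le _) x) :=
    (Set.image_injective.2 Subtype.val_injective).injOn
  rw [← hinj.encard_image]
  exact Set.encard_le_encard (by rintro _ ⟨D, hD, rfl⟩; exact hmaps D hD)

theorem bb_linked_wle (h : Top G le r) (x : h.BB) (hx : ∃ D, Lk G le r (x : A) D) :
    WLE (leS le h.BB) (orb (ind G h.BB) x) 1 := by
  classical
  intro F h1 h2
  rw [Finset.card_le_one]
  have hxr := h.linked_mem_orb x.2 hx
  intro a ha b hb
  have har : (a : A) ∈ orb G r := SO.trans hxr (ind_so (h1 a ha))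
  have hbr : (b : A) ∈ orb G r := SO.trans hxr (ind_so (h1 b hb))
  rcases h.linked_chain a.2 b.2 har hbr with h3 | h3
  · exact h2 a ha b hb h3
  · exact (h2 b hb a ha h3).symm

theorem bb_ub (h : Top G le r) (hub : ∀ x, ∀ y ∈ orb G x, UB le x y) :
    ∀ x, ∀ y ∈ orb (ind G h.BB) x, UB (leS le h.BB) x y := by
  intro x y hy
  have hxy : SO G (x : A) y := ind_so hy
  by_cases hx : ∃ D, Lk G le r (x : A) D
  · have hxr := h.linked_mem_orb x.2 hx
    rcases h.linked_chain x.2 y.2 hxr (SO.trans hxr hxy) with h3 | h3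
    · exact ⟨y, h3, h.sys.refl _⟩
    · exact ⟨x, h.sys.refl _, h3⟩
  · obtain ⟨u, h1, h2⟩ := hub x y hxy
    have huB : u ∈ h.BB := h.unlinked_mem (h.unlinked_orb hx (h.sys.same _ _ h1))
    exact ⟨⟨u, huB⟩, h1, h2⟩

theorem bb_reps (h : Top G le r) {R : Finset A}
    (hR : ∀ x, ¬ WLE le (orb G x) 1 → ∃ ρ ∈ R, SO G ρ x) :
    ∃ R' : Finset h.BB, R'.card < R.card ∧
      ∀ x, ¬ WLE (leS le h.BB) (orb (ind G h.BB) x) 1 → ∃ ρ ∈ R', SO (ind G h.BB) ρ x := by
  classical
  have hBB : ∀ x ∈ R.filter (fun x => ¬ ∃ D, Lk G le r x D), x ∈ h.BB := fun x hx =>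
    h.unlinked_mem (Finset.mem_filter.1 hx).2
  refine ⟨(R.filter (fun x => ¬ ∃ D, Lk G le r x D)).subtype (· ∈ h.BB), ?_, ?_⟩
  · rw [Finset.card_subtype]
    refine Finset.card_lt_card ?_
    refine ⟨fun x hx => (Finset.mem_filter.1 (Finset.mem_filter.1 hx).1).1, fun hsub => ?_⟩
    obtain ⟨ρ, hρ, hρr⟩ := hR r h.wide
    have h1 := Finset.mem_filter.1 (Finset.mem_filter.1 (hsub hρ)).1
    exact h1.2 ⟨_, h.lk_low hρr.symm⟩
  · intro x hx
    have hxl : ¬ ∃ D, Lk G le r (x : A) D := fun hl => hx (h.bb_linked_wle x hl)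
    have hxw : ¬ WLE le (orb G (x : A)) 1 := fun hw => hx (ind_wle hw)
    obtain ⟨ρ, hρ, hρx⟩ := hR x hxw
    have hρl : ¬ ∃ D, Lk G le r ρ D := h.unlinked_orb hxl hρx.symm
    have hρB : ρ ∈ h.BB := h.unlinked_mem hρl
    refine ⟨⟨ρ, hρB⟩, ?_, h.bb_hom.so hρx⟩
    rw [Finset.mem_subtype]
    exact Finset.mem_filter.2 ⟨hρ, hρl⟩

/-- The linear order of a wide connected orbit has no least element. -/
theorem exists_lower (h : Top G le r) (hub : ∀ x, ∀ y ∈ orb G x, UB le x y) :
    ∃ E ∈ Ix G le r, E ⊂ low G le r := by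
  classical
  have htr := h.sys.tr_orb (h.width r)
  have hcc : ∀ x ∈ orb G r, ∀ y ∈ orb G r, CC le (orb G r) x y := by
    intro x hx y hy
    exact h.sys.cc_of_ub hx (hub x y ((SO.symm hx).trans hy))
  have hnt : ∃ a ∈ orb G r, ∃ b ∈ orb G r, a ≠ b := by
    by_contra hc
    push Not at hc
    apply h.wide
    intro F h1 h2
    rw [Finset.card_le_one]
    intro a ha b hb
    exact hc a (h1 a ha) b (h1 b hb)
  obtain ⟨T, hT⟩ := h.sys.pairs
  obtain ⟨D, hD, ⟨a, ha⟩, b, hb, hbD⟩ := htr.exists_cut hcc hnt ⟨T, fun x _ y _ => hT x y⟩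
  have haX : a ∈ orb G r := hD.1 ha
  have h1 : low G le a ⊆ D := by
    intro z hz
    have h2 := hz.2
    rw [orb_eq haX] at h2
    exact h2 D hD ha
  have h2 : ¬ low G le b ⊆ low G le a := fun h3 => hbD (h1 (h3 (self_mem_low b)))
  have h3 : low G le a ⊂ low G le b := by
    rcases h.sys.low_total ((SO.symm haX).trans hb) with h4 | h4
    · exact ⟨h4, h2⟩
    · exact absurd h4 h2
  obtain ⟨g, hg, hgb⟩ := SO.symm hb
  refine ⟨low G le (g a), ⟨g a, (h.sys.orb_iff hg r a).2 haX, rfl⟩, ?_⟩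
  have h5 : low G le r = g '' low G le b := by rw [← h.sys.low_inv hg, hgb]
  rw [h5, h.sys.low_inv hg]
  exact ⟨Set.image_mono h3.1, fun h' => h3.2 ((Set.image_subset_image_iff g.injective).1 h')⟩

end Top

end Pool.Agent.FinWidth
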