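import Pool.Agent.FinWidth.Kernel

/-!
# Equivariant monotone maps from an orbit to the linear order of an orbit are unique
-/

set_option autoImplicit false

namespace Pool.Agent.FinWidth

open Equiv

variable {A : Type} {G : Subgroup (Perm A)} {le : A → A → Prop}

theorem im_mul (g h : Perm A) (D : Set A) : (g * h) '' D = g '' (h '' D) := by
  rw [Perm.coe_mul, Set.image_comp]

theorem im_one (D : Set A) : (1 : Perm A) '' D = D := by
  simp

theorem im_inv_im (g : Perm A) (D : Set A) : (g⁻¹ : Perm A) '' (g '' D) = D := by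
  rw [← im_mul, inv_mul_cancel, im_one]

theorem im_im_inv (g : Perm A) (D : Set A) : g '' ((g⁻¹ : Perm A) '' D) = D := by
  rw [← im_mul, mul_inv_cancel, im_one]

theorem im_inj (g : Perm A) {D E : Set A} (h : g '' D = g '' E) : D = E := by
  rw [← im_inv_im g D, h, im_inv_im]

theorem orb_eq {x y : A} (h : y ∈ orb G x) : orb G y = orb G x := by
  ext z
  exact ⟨fun hz => SO.trans h hz, fun hz => SO.trans (SO.symm h) hz⟩

/-- The least strong cut of its orbit that contains `x`. -/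
def low (G : Subgroup (Perm A)) (le : A → A → Prop) (x : A) : Set A :=
  {z | z ∈ orb G x ∧ Pre le (orb G x) z x}

theorem self_mem_low (x : A) : x ∈ low G le x := ⟨self_mem_orb G x, Pre.refl x⟩

theorem low_scut (x : A) : SCut le (orb G x) (low G le x) := by
  refine ⟨fun z hz => hz.1, fun y hy z hz hzn => ?_⟩
  exact le_of_not_pre hz (fun h => hzn ⟨hz, h.trans hy.2⟩)

theorem mem_low_iff {x z : A} (hz : z ∈ orb G x) :
    z ∈ low G le x ↔ low G le z ⊆ low G le x := by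
  refine ⟨fun h w hw => ?_, fun h => h (self_mem_low z)⟩
  have hw2 := hw.2
  rw [orb_eq hz] at hw2
  exact ⟨SO.trans hz hw.1, hw2.trans h.2⟩

theorem Sys.low_inv (h : Sys G le) {g : Perm A} (hg : g ∈ G) (x : A) :
    low G le (g x) = g '' low G le x := by
  have horb : orb G (g x) = orb G x := orb_eq (SO.of_mem hg x)
  ext z
  constructor
  · rintro ⟨h1, h2⟩
    rw [horb] at h1 h2
    refine ⟨g⁻¹ z, ⟨(h.orb_iff (G.inv_mem hg) x z).2 h1, ?_⟩, by simp⟩
    have := h.pre_inv (G.inv_mem hg) h2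
    simpa using this
  · rintro ⟨w, ⟨h1, h2⟩, rfl⟩
    refine ⟨?_, ?_⟩
    · rw [horb]; exact (h.orb_iff hg x w).2 h1
    · rw [horb]; exact h.pre_inv hg h2

theorem Sys.low_mono (h : Sys G le) {x y : A} (hxy : le x y) : low G le x ⊆ low G le y := by
  have hso : x ∈ orb G y := (h.same _ _ hxy).symm
  rw [← mem_low_iff hso]
  exact ⟨hso, Pre.of_le h.antisymm hso hxy⟩

theorem Sys.low_total (h : Sys G le) {x y : A} (hxy : SO G x y) :
    low G le x ⊆ low G le y ∨ low G le y ⊆ low G le x := by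
  have h1 := low_scut (G := G) (le := le) x
  have h2 := low_scut (G := G) (le := le) y
  rw [orb_eq hxy] at h2
  exact h1.total h.antisymm h2

theorem le_of_low_not_subset {x y : A} (hxy : SO G x y)
    (hn : ¬ low G le y ⊆ low G le x) : le x y := by
  rw [← mem_low_iff hxy] at hn
  exact (low_scut x).2 x (self_mem_low x) y hxy hn

/-- The linear order attached to the orbit of `r`. -/
def Ix (G : Subgroup (Perm A)) (le : A → A → Prop) (r : A) : Set (Set A) :=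
  {D | ∃ z ∈ orb G r, low G le z = D}

theorem Sys.ix_im (h : Sys G le) {r : A} {D : Set A} (hD : D ∈ Ix G le r) {g : Perm A}
    (hg : g ∈ G) : g '' D ∈ Ix G le r := by
  obtain ⟨z, hz, rfl⟩ := hD
  exact ⟨g z, (h.orb_iff hg r z).2 hz, h.low_inv hg z⟩

theorem Sys.ix_tr (h : Sys G le) {r : A} {D E : Set A} (hD : D ∈ Ix G le r)
    (hE : E ∈ Ix G le r) : ∃ g ∈ G, g '' D = E := by
  obtain ⟨z, hz, rfl⟩ := hD
  obtain ⟨w, hw, rfl⟩ := hE
  obtain ⟨g, hg, hgz⟩ := (SO.symm hz).trans hw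
  exact ⟨g, hg, by rw [← h.low_inv hg, hgz]⟩

theorem Sys.ix_total (h : Sys G le) {r : A} {D E : Set A} (hD : D ∈ Ix G le r)
    (hE : E ∈ Ix G le r) : D ⊆ E ∨ E ⊆ D := by
  obtain ⟨z, hz, rfl⟩ := hD
  obtain ⟨w, hw, rfl⟩ := hE
  exact h.low_total ((SO.symm hz).trans hw)

theorem Sys.ix_pairs (h : Sys G le) (r : A) : ∃ T : Finset (Set A × Set A),
    ∀ D ∈ Ix G le r, ∀ E ∈ Ix G le r, ∃ t ∈ T, ∃ g ∈ G, g '' t.1 = D ∧ g '' t.2 = E := by
  classical
  obtain ⟨T, hT⟩ := h.pairs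
  refine ⟨T.image (fun t => (low G le t.1, low G le t.2)), ?_⟩
  rintro _ ⟨z, hz, rfl⟩ _ ⟨w, hw, rfl⟩
  obtain ⟨t, ht, g, hg, h1, h2⟩ := hT z w
  refine ⟨_, Finset.mem_image.2 ⟨t, ht, rfl⟩, g, hg, ?_, ?_⟩
  · rw [← h.low_inv hg, h1]
  · rw [← h.low_inv hg, h2]

/-- An equivariant monotone map from the orbit of `z0` to the linear order of the orbit of `r`. -/
structure EM (G : Subgroup (Perm A)) (le : A → A → Prop) (r z0 : A) (μ : A → Set A) : Prop where
  mem : ∀ z ∈ orb G z0, μ z ∈ Ix G le r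
  eqv : ∀ g ∈ G, ∀ z ∈ orb G z0, μ (g z) = g '' μ z
  mono : ∀ z ∈ orb G z0, ∀ z' ∈ orb G z0, le z z' → μ z ⊆ μ z'

theorem EM.move {r z0 z1 : A} {μ : A → Set A} (h : EM G le r z0 μ) (hz : z1 ∈ orb G z0) :
    EM G le r z1 μ := by
  have := orb_eq hz
  exact ⟨by rw [this]; exact h.mem, by rw [this]; exact h.eqv, by rw [this]; exact h.mono⟩

/-- The case in which one value determines the other. -/
theorem Sys.unique_aux (h : Sys G le) {r z0 : A} {μ ν : A → Set A}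
    (hμ : EM G le r z0 μ) (hν : EM G le r z0 ν)
    (lt : Set A → Set A → Prop) (hirr : ∀ D, ¬ lt D D)
    (htr : ∀ D E F, lt D E → lt E F → lt D F)
    (hlt : ∀ z ∈ orb G z0, lt (μ z) (ν z))
    (hfun : ∀ z ∈ orb G z0, μ z = μ z0 → ν z = ν z0) : False := by
  classical
  have hfun' : ∀ z ∈ orb G z0, ∀ w ∈ orb G z0, μ z = μ w → ν z = ν w := by
    intro z hz w hw hzw
    obtain ⟨g, hg, hgw⟩ := SO.symm hw
    have h1 : μ (g z) = μ z0 := by rw [hμ.eqv g hg z hz, hzw, ← hμ.eqv g hg w hw, hgw]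
    have h2 := hfun (g z) ((h.orb_iff hg z0 z).2 hz) h1
    rw [hν.eqv g hg z hz, ← hgw, hν.eqv g hg w hw] at h2
    exact im_inj g h2
  have hsucc : ∀ z : A, ∃ z' : A, z ∈ orb G z0 → z' ∈ orb G z0 ∧ μ z' = ν z := by
    intro z
    by_cases hz : z ∈ orb G z0
    · obtain ⟨g, hg, hgD⟩ := h.ix_tr (hμ.mem z hz) (hν.mem z hz)
      exact ⟨g z, fun _ => ⟨(h.orb_iff hg z0 z).2 hz, by rw [hμ.eqv g hg z hz, hgD]⟩⟩
    · exact ⟨z, fun h' => absurd h' hz⟩
  choose s hs using hsucc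
  let z : ℕ → A := fun n => s^[n] z0
  have hz0 : z 0 = z0 := rfl
  have hzs : ∀ n, z (n + 1) = s (z n) := fun n => Function.iterate_succ_apply' s n z0
  have hzX : ∀ n, z n ∈ orb G z0 := by
    intro n
    induction n with
    | zero => exact self_mem_orb G z0
    | succ n ih => rw [hzs]; exact (hs _ ih).1
  have hzn : ∀ n, μ (z (n + 1)) = ν (z n) := fun n => by rw [hzs]; exact (hs _ (hzX n)).2
  have hlt1 : ∀ n, lt (μ (z n)) (μ (z (n + 1))) := fun n => by rw [hzn]; exact hlt _ (hzX n)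
  have hlt2 : ∀ m n, m < n → lt (μ (z m)) (μ (z n)) := by
    intro m n hmn
    induction hmn with
    | refl => exact hlt1 m
    | step _ ih => exact htr _ _ _ ih (hlt1 _)
  obtain ⟨T, hT⟩ := h.ix_pairs r
  have hT' : ∀ n : ℕ, ∃ t : T, ∃ g ∈ G, g '' (t : Set A × Set A).1 = μ (z 0) ∧
      g '' (t : Set A × Set A).2 = μ (z n) := by
    intro n
    obtain ⟨t, ht, g, hg, h1, h2⟩ := hT _ (hμ.mem _ (hzX 0)) _ (hμ.mem _ (hzX n))
    exact ⟨⟨t, ht⟩, g, hg, h1, h2⟩
  choose t gt hgt1 hgt2 hgt3 using hT'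
  obtain ⟨m, n, hmn, htmn⟩ := Finite.exists_ne_map_eq_of_infinite t
  have hk : gt n * (gt m)⁻¹ ∈ G := G.mul_mem (hgt1 n) (G.inv_mem (hgt1 m))
  have hk0 : (gt n * (gt m)⁻¹) '' μ (z 0) = μ (z 0) := by
    rw [im_mul]
    conv_lhs => rw [← hgt2 m]
    rw [im_inv_im, htmn, hgt2 n]
  have hkn : (gt n * (gt m)⁻¹) '' μ (z m) = μ (z n) := by
    rw [im_mul, ← hgt3 m, im_inv_im, htmn, hgt3 n]
  have hfix : ∀ j, (gt n * (gt m)⁻¹) '' μ (z j) = μ (z j) := by
    intro j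
    induction j with
    | zero => exact hk0
    | succ j ih =>
      rw [hzn, ← hν.eqv _ hk _ (hzX j)]
      refine hfun' _ ((h.orb_iff hk z0 _).2 (hzX j)) _ (hzX j) ?_
      rw [hμ.eqv _ hk _ (hzX j), ih]
  have heq : μ (z m) = μ (z n) := by rw [← hfix m, hkn]
  rcases lt_or_gt_of_ne hmn with h1 | h1
  · have := hlt2 m n h1
    rw [heq] at this
    exact hirr _ this
  · have := hlt2 n m h1
    rw [heq] at this
    exact hirr _ this

theorem Sys.unique_lt (h : Sys G le) {r z0 : A} {w : ℕ} (hw : WLE le (orb G z0) w)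
    {μ ν : A → Set A} (hμ : EM G le r z0 μ) (hν : EM G le r z0 ν)
    (hlt0 : μ z0 ⊂ ν z0) : False := by
  classical
  have hlt : ∀ z ∈ orb G z0, μ z ⊂ ν z := by
    rintro _ ⟨g, hg, rfl⟩
    rw [hμ.eqv g hg z0 (self_mem_orb G z0), hν.eqv g hg z0 (self_mem_orb G z0)]
    exact ⟨Set.image_mono hlt0.1, fun h' =>
      hlt0.2 ((Set.image_subset_image_iff g.injective).1 h')⟩
  by_cases hA : ∀ z ∈ orb G z0, μ z = μ z0 → ν z = ν z0
  · exact h.unique_aux hμ hν (fun D E => D ⊂ E) (fun D => ssubset_irrefl D)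
      (fun D E F h1 h2 => h1.trans h2) hlt hA
  by_cases hA' : ∀ z ∈ orb G z0, ν z = ν z0 → μ z = μ z0
  · exact h.unique_aux hν hμ (fun D E => E ⊂ D) (fun D => ssubset_irrefl D)
      (fun D E F h1 h2 => h2.trans h1) hlt hA'
  push Not at hA hA'
  obtain ⟨z1, hz1, hμ1, hν1⟩ := hA
  obtain ⟨z2, hz2, hν2, hμ2⟩ := hA'
  -- moving an ordered pair
  have him : ∀ (g : Perm A) (D E : Set A), D ⊂ E → g '' D ⊂ g '' E := fun g D E hDE =>
    ⟨Set.image_mono hDE.1, fun h' => hDE.2 ((Set.image_subset_image_iff g.injective).1 h')⟩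
  have hself := self_mem_orb G z0
  have stepν : ∀ z ∈ orb G z0, ∃ z' ∈ orb G z0, μ z' = μ z ∧ ν z' ⊂ ν z := by
    intro z hz
    rcases h.ix_total (hν.mem z1 hz1) (hν.mem z0 hself) with h1 | h1
    · obtain ⟨g, hg, rfl⟩ := hz
      refine ⟨g z1, (h.orb_iff hg z0 z1).2 hz1, ?_, ?_⟩
      · rw [hμ.eqv g hg z1 hz1, hμ1, hμ.eqv g hg z0 hself]
      · rw [hν.eqv g hg z1 hz1, hν.eqv g hg z0 hself]
        exact him g _ _ (h1.ssubset_of_ne hν1)
    · obtain ⟨g, hg, rfl⟩ := (SO.symm hz1).trans hz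
      refine ⟨g z0, (h.orb_iff hg z0 z0).2 hself, ?_, ?_⟩
      · rw [hμ.eqv g hg z1 hz1, hμ1, hμ.eqv g hg z0 hself]
      · rw [hν.eqv g hg z1 hz1, hν.eqv g hg z0 hself]
        exact him g _ _ (h1.ssubset_of_ne hν1.symm)
  have stepμ : ∀ z ∈ orb G z0, ∃ z' ∈ orb G z0, ν z' = ν z ∧ μ z ⊂ μ z' := by
    intro z hz
    rcases h.ix_total (hμ.mem z2 hz2) (hμ.mem z0 hself) with h1 | h1
    · obtain ⟨g, hg, rfl⟩ := (SO.symm hz2).trans hz
      refine ⟨g z0, (h.orb_iff hg z0 z0).2 hself, ?_, ?_⟩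
      · rw [hν.eqv g hg z2 hz2, hν2, hν.eqv g hg z0 hself]
      · rw [hμ.eqv g hg z2 hz2, hμ.eqv g hg z0 hself]
        exact him g _ _ (h1.ssubset_of_ne hμ2)
    · obtain ⟨g, hg, rfl⟩ := hz
      refine ⟨g z2, (h.orb_iff hg z0 z2).2 hz2, ?_, ?_⟩
      · rw [hν.eqv g hg z2 hz2, hν2, hν.eqv g hg z0 hself]
      · rw [hμ.eqv g hg z2 hz2, hμ.eqv g hg z0 hself]
        exact him g _ _ (h1.ssubset_of_ne hμ2.symm)
  have step : ∀ z : A, ∃ z' : A, z ∈ orb G z0 → z' ∈ orb G z0 ∧ μ z ⊂ μ z' ∧ ν z' ⊂ ν z := by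
    intro z
    by_cases hz : z ∈ orb G z0
    · obtain ⟨z', hz', h1, h2⟩ := stepν z hz
      obtain ⟨z'', hz'', h3, h4⟩ := stepμ z' hz'
      refine ⟨z'', fun _ => ⟨hz'', ?_, ?_⟩⟩
      · rw [← h1]; exact h4
      · rw [h3]; exact h2
    · exact ⟨z, fun h' => absurd h' hz⟩
  choose s hs using step
  let z : ℕ → A := fun n => s^[n] z0
  have hzs : ∀ n, z (n + 1) = s (z n) := fun n => Function.iterate_succ_apply' s n z0
  have hzX : ∀ n, z n ∈ orb G z0 := by
    intro n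
    induction n with
    | zero => exact self_mem_orb G z0
    | succ n ih => rw [hzs]; exact (hs _ ih).1
  have hcross : ∀ m n, m < n → μ (z m) ⊂ μ (z n) ∧ ν (z n) ⊂ ν (z m) := by
    intro m n hmn
    induction hmn with
    | refl => rw [hzs]; exact (hs _ (hzX m)).2
    | @step n' _ ih =>
      have := (hs (z n') (hzX n')).2
      rw [← hzs] at this
      exact ⟨ih.1.trans this.1, this.2.trans ih.2⟩
  have hinc : ∀ m n, m < n → ¬ le (z m) (z n) ∧ ¬ le (z n) (z m) := by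
    intro m n hmn
    obtain ⟨h1, h2⟩ := hcross m n hmn
    exact ⟨fun h' => h2.2 (hν.mono _ (hzX m) _ (hzX n) h'),
      fun h' => h1.2 (hμ.mono _ (hzX n) _ (hzX m) h')⟩
  have hinj : Function.Injective z := by
    intro m n hmn
    by_contra hne
    rcases lt_or_gt_of_ne hne with h1 | h1
    · exact (hinc m n h1).1 (by rw [hmn]; exact h.refl _)
    · exact (hinc n m h1).1 (by rw [hmn]; exact h.refl _)
  have := hw ((Finset.range (w + 1)).image z) (by
    intro x hx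
    obtain ⟨n, -, rfl⟩ := Finset.mem_image.1 hx
    exact hzX n) (by
    intro x hx y hy hxy
    obtain ⟨m, -, rfl⟩ := Finset.mem_image.1 hx
    obtain ⟨n, -, rfl⟩ := Finset.mem_image.1 hy
    rcases lt_trichotomy m n with h1 | h1 | h1
    · exact absurd hxy (hinc m n h1).1
    · rw [h1]
    · exact absurd hxy (hinc n m h1).2)
  rw [Finset.card_image_of_injective _ hinj, Finset.card_range] at this
  omega

/-- L7: uniqueness. -/
theorem Sys.unique (h : Sys G le) {r z0 : A} {w : ℕ} (hw : WLE le (orb G z0) w)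
    {μ ν : A → Set A} (hμ : EM G le r z0 μ) (hν : EM G le r z0 ν) : μ z0 = ν z0 := by
  by_contra hne
  rcases h.ix_total (hμ.mem z0 (self_mem_orb G z0)) (hν.mem z0 (self_mem_orb G z0)) with h1 | h1
  · exact h.unique_lt hw hμ hν (h1.ssubset_of_ne hne)
  · exact h.unique_lt hw hν hμ (h1.ssubset_of_ne (Ne.symm hne))

theorem Sys.low_em (h : Sys G le) {r z0 : A} (hz : z0 ∈ orb G r) :
    EM G le r z0 (low G le) where
  mem := fun z hz' => ⟨z, SO.trans hz hz', rfl⟩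
  eqv := fun _ hg z _ => h.low_inv hg z
  mono := fun _ _ _ _ hle => h.low_mono hle

end Pool.Agent.FinWidth
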